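import Pool.Agent.Work.MP_157c12_gt.Defs

/-!
# Hahn series with two logarithmic derivations: basic lemmas
-/

open MvPolynomial

namespace Pool.Agent.Work.MP_157c12_gt

section Hahn

variable {Γ : Type} [AddCommGroup Γ] [LinearOrder Γ] [IsOrderedAddMonoid Γ]

@[simp] lemma hdF_coeff (φ : Γ →+ ℂ) (f : Hn Γ) (γ : Γ) : (hdF φ f).coeff γ = φ γ * f.coeff γ := rfl

/-- the derivation multiplying the coefficient of `t ^ γ` by `φ γ` -/
noncomputable def hd (φ : Γ →+ ℂ) : Derivation ℂ (Hn Γ) (Hn Γ) where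
  toFun := hdF φ
  map_add' := by
    intro f g
    ext γ
    simp [mul_add]
  map_smul' := by
    intro c f
    ext γ
    simp only [hdF_coeff, HahnSeries.coeff_smul, smul_eq_mul, RingHom.id_apply]
    ring
  map_one_eq_zero' := by
    ext γ
    show φ γ * (1 : Hn Γ).coeff γ = 0
    by_cases h : γ = 0
    · simp [h]
    · simp [HahnSeries.coeff_one, h]
  leibniz' := by
    intro f g
    ext γ
    show φ γ * (f * g).coeff γ = (f * hdF φ g + g * hdF φ f).coeff γ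
    rw [mul_comm g (hdF φ f), HahnSeries.coeff_add]
    have h1 := HahnSeries.coeff_mul_right' (x := f) (y := hdF φ g) (a := γ) (s := g.support)
      g.isPWO_support (by
      intro δ hδ h
      exact hδ (by simp [h]))
    have h2 := HahnSeries.coeff_mul_left' (x := hdF φ f) (y := g) (a := γ) (s := f.support)
      f.isPWO_support (by
      intro δ hδ h
      exact hδ (by simp [h]))
    rw [h1, h2, HahnSeries.coeff_mul, Finset.mul_sum, ← Finset.sum_add_distrib]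
    apply Finset.sum_congr rfl
    rintro ⟨i, j⟩ hij
    have hij' : i + j = γ := (Finset.mem_antidiagonal.mp hij).2.2
    simp only [hdF_coeff]
    rw [← hij', map_add]
    ring

@[simp] lemma hd_coeff (φ : Γ →+ ℂ) (f : Hn Γ) (γ : Γ) : (hd φ f).coeff γ = φ γ * f.coeff γ := rfl

lemma hd_comm (φ ψ : Γ →+ ℂ) (f : Hn Γ) : hd φ (hd ψ f) = hd ψ (hd φ f) := by
  ext γ
  simp only [hd_coeff]
  ring

lemma hd_single (φ : Γ →+ ℂ) (γ : Γ) (c : ℂ) :
    hd φ (HahnSeries.single γ c) = HahnSeries.single γ (φ γ * c) := by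
  ext δ
  rw [hd_coeff]
  by_cases h : δ = γ
  · subst h
    simp
  · simp [h]

lemma vv_eq (f : Hn Γ) : vv Γ f = f.orderTop := HahnSeries.addVal_apply

lemma vv_hd (φ : Γ →+ ℂ) (f : Hn Γ) : vv Γ f ≤ vv Γ (hd φ f) := by
  rw [vv_eq, vv_eq, HahnSeries.le_orderTop_iff_forall]
  intro j hj
  rw [hd_coeff, HahnSeries.coeff_eq_zero_of_lt_orderTop hj, mul_zero]

lemma vv_smul (c : ℂ) (f : Hn Γ) : vv Γ f ≤ vv Γ (c • f) := by
  rw [vv_eq, vv_eq, HahnSeries.le_orderTop_iff_forall]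
  intro j hj
  rw [HahnSeries.coeff_smul, HahnSeries.coeff_eq_zero_of_lt_orderTop hj, smul_zero]

lemma Lead.val {f : Hn Γ} {γ : Γ} {c : ℂ} (h : Lead f γ c) : vv Γ f = γ := by
  rw [vv_eq]
  apply HahnSeries.orderTop_eq_of_le
  · rw [HahnSeries.mem_support, h.2.1]
    exact h.1
  · intro g hg
    by_contra hlt
    exact (HahnSeries.mem_support _ _).mp hg (h.2.2 g (not_le.mp hlt))

lemma Lead.ne_zero {f : Hn Γ} {γ : Γ} {c : ℂ} (h : Lead f γ c) : f ≠ 0 := by
  rintro rfl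
  have := h.2.1
  simp at this
  exact h.1 this.symm

lemma lead_of_vv {f : Hn Γ} {γ : Γ} (h : vv Γ f = γ) : Lead f γ (f.coeff γ) := by
  rw [vv_eq] at h
  refine ⟨HahnSeries.coeff_orderTop_ne h, rfl, ?_⟩
  intro γ' hγ'
  apply HahnSeries.coeff_eq_zero_of_lt_orderTop
  rw [h]
  exact_mod_cast hγ'

lemma lead_exists {f : Hn Γ} (h : f ≠ 0) : ∃ γ c, Lead f γ c := by
  refine ⟨f.order, f.coeff f.order, lead_of_vv ?_⟩
  rw [vv_eq, HahnSeries.order_eq_orderTop_of_ne_zero h]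

lemma coeff_eq_zero_of_lt_vv {f : Hn Γ} {γ : Γ} (h : (γ : WithTop Γ) < vv Γ f) : f.coeff γ = 0 := by
  rw [vv_eq] at h
  exact HahnSeries.coeff_eq_zero_of_lt_orderTop h

lemma Lead.add {f g : Hn Γ} {γ : Γ} {c : ℂ} (h : Lead f γ c) (hg : (γ : WithTop Γ) < vv Γ g) :
    Lead (f + g) γ c := by
  refine ⟨h.1, ?_, ?_⟩
  · rw [HahnSeries.coeff_add, h.2.1, coeff_eq_zero_of_lt_vv hg, add_zero]
  · intro γ' hγ'
    rw [HahnSeries.coeff_add, h.2.2 γ' hγ', coeff_eq_zero_of_lt_vv, add_zero]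
    exact lt_trans (by exact_mod_cast hγ') hg

lemma Lead.neg {f : Hn Γ} {γ : Γ} {c : ℂ} (h : Lead f γ c) : Lead (-f) γ (-c) := by
  refine ⟨neg_ne_zero.mpr h.1, ?_, ?_⟩
  · rw [HahnSeries.coeff_neg, h.2.1]
  · intro γ' hγ'
    rw [HahnSeries.coeff_neg, h.2.2 γ' hγ', neg_zero]

lemma Lead.smul {f : Hn Γ} {γ : Γ} {c : ℂ} (h : Lead f γ c) {k : ℂ} (hk : k ≠ 0) :
    Lead (k • f) γ (k * c) := by
  refine ⟨mul_ne_zero hk h.1, ?_, ?_⟩
  · rw [HahnSeries.coeff_smul, h.2.1, smul_eq_mul]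
  · intro γ' hγ'
    rw [HahnSeries.coeff_smul, h.2.2 γ' hγ', smul_zero]

lemma Lead.mul {f g : Hn Γ} {γ δ : Γ} {c d : ℂ} (hf : Lead f γ c) (hg : Lead g δ d) :
    Lead (f * g) (γ + δ) (c * d) := by
  have h1 : f.order = γ := by
    have := hf.val
    rw [vv_eq, ← HahnSeries.order_eq_orderTop_of_ne_zero hf.ne_zero] at this
    exact_mod_cast this
  have h2 : g.order = δ := by
    have := hg.val
    rw [vv_eq, ← HahnSeries.order_eq_orderTop_of_ne_zero hg.ne_zero] at this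
    exact_mod_cast this
  have h3 : Pool.Agent.Work.MP_157c12_gt.vv Γ (f * g) = ((γ + δ : Γ) : WithTop Γ) := by
    rw [AddValuation.map_mul, hf.val, hg.val]
    rfl
  have h4 := lead_of_vv h3
  have h5 : (f * g).coeff (γ + δ) = c * d := by
    have := HahnSeries.coeff_mul_order_add_order f g
    rw [h1, h2, HahnSeries.leadingCoeff_eq, HahnSeries.leadingCoeff_eq, h1, h2, hf.2.1, hg.2.1]
      at this
    exact this
  rw [h5] at h4
  exact h4

lemma Lead.pow {f : Hn Γ} {γ : Γ} {c : ℂ} (hf : Lead f γ c) (n : ℕ) :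
    Lead (f ^ n) (n • γ) (c ^ n) := by
  induction n with
  | zero =>
    refine ⟨by simp, by simp, ?_⟩
    intro γ' hγ'
    rw [zero_smul] at hγ'
    rw [pow_zero, HahnSeries.coeff_one, if_neg (ne_of_lt hγ')]
  | succ n ih =>
    rw [pow_succ, pow_succ, succ_nsmul]
    exact ih.mul hf

lemma lead_single (γ : Γ) {c : ℂ} (hc : c ≠ 0) : Lead (HahnSeries.single γ c) γ c := by
  refine ⟨hc, by simp, ?_⟩
  intro γ' hγ'
  exact HahnSeries.coeff_single_of_ne (ne_of_lt hγ')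

lemma Lead.unique {f : Hn Γ} {γ δ : Γ} {c d : ℂ} (hf : Lead f γ c) (hg : Lead f δ d) :
    γ = δ ∧ c = d := by
  have h : γ = δ := by
    have := hf.val.symm.trans hg.val
    exact_mod_cast this
  subst h
  exact ⟨rfl, hf.2.1.symm.trans hg.2.1⟩

lemma Lead.inv {f : Hn Γ} {γ : Γ} {c : ℂ} (hf : Lead f γ c) : Lead f⁻¹ (-γ) c⁻¹ := by
  have h0 : f⁻¹ ≠ 0 := inv_ne_zero hf.ne_zero
  obtain ⟨δ, d, hd⟩ := lead_exists h0
  have h1 := hf.mul hd
  rw [mul_inv_cancel₀ hf.ne_zero] at h1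
  have h2 : Lead (1 : Hn Γ) 0 1 := by
    have := lead_single (0 : Γ) (one_ne_zero (α := ℂ))
    simpa using this
  obtain ⟨h3, h4⟩ := h1.unique h2
  have h5 : δ = -γ := (neg_eq_of_add_eq_zero_right h3).symm
  have h6 : d = c⁻¹ := (inv_eq_of_mul_eq_one_right h4).symm
  rw [← h5, ← h6]
  exact hd

lemma Lead.der {f : Hn Γ} {γ : Γ} {c : ℂ} (h : Lead f γ c) (φ : Γ →+ ℂ) (hφ : φ γ ≠ 0) :
    Lead (hd φ f) γ (φ γ * c) := by
  refine ⟨mul_ne_zero hφ h.1, ?_, ?_⟩
  · rw [hd_coeff, h.2.1]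
  · intro γ' hγ'
    rw [hd_coeff, h.2.2 γ' hγ', mul_zero]

lemma vv_algebraMap {c : ℂ} (hc : c ≠ 0) : vv Γ (algebraMap ℂ (Hn Γ) c) = 0 := by
  have h : algebraMap ℂ (Hn Γ) c = HahnSeries.single 0 c := rfl
  rw [h, (lead_single (0 : Γ) hc).val]
  rfl

/-! ### exponents in two variables -/

/-- exponents of monomials in two variables in `Γ`, with the two logarithmic derivations -/
structure Expo (Γ : Type) [AddCommGroup Γ] [LinearOrder Γ] [IsOrderedAddMonoid Γ] where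
  io : ℚ × ℚ →+ Γ
  inj : Function.Injective io
  f1 : Γ →+ ℂ
  f2 : Γ →+ ℂ
  h1 : ∀ e, f1 (io e) = (e.1 : ℂ)
  h2 : ∀ e, f2 (io e) = (e.2 : ℂ)

/-- the first derivation -/
noncomputable abbrev Expo.d1 (s : Expo Γ) : Derivation ℂ (Hn Γ) (Hn Γ) := hd s.f1

/-- the second derivation -/
noncomputable abbrev Expo.d2 (s : Expo Γ) : Derivation ℂ (Hn Γ) (Hn Γ) := hd s.f2

/-- the monomial `c η^i y^j` -/
noncomputable def mo (s : Expo Γ) (i j : ℚ) (c : ℂ) : Hn Γ := HahnSeries.single (s.io (i, j)) c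

lemma mo_d1 (s : Expo Γ) (i j : ℚ) (c : ℂ) : s.d1 (mo s i j c) = mo s i j (i * c) := by
  rw [mo, Expo.d1, hd_single, s.h1]
  rfl

lemma mo_d2 (s : Expo Γ) (i j : ℚ) (c : ℂ) : s.d2 (mo s i j c) = mo s i j (j * c) := by
  rw [mo, Expo.d2, hd_single, s.h2]
  rfl

lemma mo_mul (s : Expo Γ) (i j i' j' : ℚ) (c c' : ℂ) :
    mo s i j c * mo s i' j' c' = mo s (i + i') (j + j') (c * c') := by
  rw [mo, mo, mo, HahnSeries.single_mul_single, ← map_add]
  rfl

lemma mo_lead (s : Expo Γ) (i j : ℚ) {c : ℂ} (hc : c ≠ 0) : Lead (mo s i j c) (s.io (i, j)) c :=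
  lead_single _ hc

lemma mo_one (s : Expo Γ) : mo s 0 0 1 = 1 := by
  have : s.io ((0 : ℚ), (0 : ℚ)) = 0 := s.io.map_zero
  rw [mo, this]
  rfl

lemma algebraMap_eq_mo (s : Expo Γ) (c : ℂ) : algebraMap ℂ (Hn Γ) c = mo s 0 0 c := by
  have : s.io ((0 : ℚ), (0 : ℚ)) = 0 := s.io.map_zero
  rw [mo, this]
  rfl

lemma mo_add (s : Expo Γ) (i j : ℚ) (c c' : ℂ) : mo s i j (c + c') = mo s i j c + mo s i j c' := by
  rw [mo, mo, mo, HahnSeries.single_add]

lemma Th_single (s : Expo Γ) (i j : ℚ) (c : ℂ) :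
    Th s.io (AddMonoidAlgebra.single (i, j) c) = mo s i j c := by
  rw [Th, AddMonoidAlgebra.lift_single]
  show c • HahnSeries.single (s.io (i, j)) 1 = _
  ext δ
  rw [HahnSeries.coeff_smul, mo]
  by_cases h : δ = s.io (i, j)
  · subst h
    simp
  · simp [h]

end Hahn

/-! ### the three exponent systems -/

/-- the real number `t` as an element of `RA` -/
def rA (t : ℝ) : RA := t

lemma rA_le {s t : ℝ} : rA s ≤ rA t ↔ s ≤ t := Iff.rfl

lemma rA_lt {s t : ℝ} : rA s < rA t ↔ s < t := Iff.rfl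

lemma rA_add (s t : ℝ) : rA (s + t) = rA s + rA t := rfl

lemma rA_zero : rA 0 = 0 := rfl

lemma rA_neg (s : ℝ) : rA (-s) = -rA s := rfl

lemma rA_inj {s t : ℝ} : rA s = rA t ↔ s = t := Iff.rfl

lemma ia_apply (a : ℝ) (i j : ℚ) : ia a (i, j) = rA (-((i : ℝ) * a + j)) := rfl

lemma ia_inj {a : ℝ} (ha : Irrational a) : Function.Injective (ia a) := by
  rw [injective_iff_map_eq_zero]
  rintro ⟨i, j⟩ h
  have h' : (i : ℝ) * a + j = 0 := by
    have : (-((i : ℝ) * a + j) : ℝ) = 0 := h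
    linarith
  have hi : i = 0 := by
    by_contra hi
    apply ha
    refine ⟨-j / i, ?_⟩
    have hi' : (i : ℝ) ≠ 0 := by exact_mod_cast hi
    push_cast
    field_simp
    linarith
  subst hi
  have hj : j = 0 := by
    have : (j : ℝ) = 0 := by simpa using h'
    exact_mod_cast this
  subst hj
  rfl

/-- the exponents `(i, j) ↦ -(i a + j)` for irrational `a` -/
lemma exA_exists {a : ℝ} (ha : Irrational a) : ∃ s : Expo RA, s.io = ia a := by
  obtain ⟨g, hg⟩ := LinearMap.exists_leftInverse_of_injective ((ia a).toRatLinearMap)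
    (LinearMap.ker_eq_bot.mpr (ia_inj ha))
  have hg' : ∀ e, g (ia a e) = e := fun e => LinearMap.congr_fun hg e
  refine ⟨⟨ia a, ia_inj ha,
    ((Rat.castHom ℂ).toAddMonoidHom.comp ((AddMonoidHom.fst ℚ ℚ).comp g.toAddMonoidHom)),
    ((Rat.castHom ℂ).toAddMonoidHom.comp ((AddMonoidHom.snd ℚ ℚ).comp g.toAddMonoidHom)),
    ?_, ?_⟩, rfl⟩
  · intro e
    show ((g (ia a e)).1 : ℂ) = _
    rw [hg']
  · intro e
    show ((g (ia a e)).2 : ℂ) = _
    rw [hg']

/-- the exponent system of slope `a` -/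
noncomputable def exA {a : ℝ} (ha : Irrational a) : Expo RA := (exA_exists ha).choose

lemma exA_io {a : ℝ} (ha : Irrational a) : (exA ha).io = ia a := (exA_exists ha).choose_spec

/-- components of a lexicographic exponent -/
def lfst : LX →+ ℚ where
  toFun := fun g => (ofLex g).1
  map_zero' := rfl
  map_add' := fun _ _ => rfl

def lsnd : LX →+ ℚ where
  toFun := fun g => (ofLex g).2
  map_zero' := rfl
  map_add' := fun _ _ => rfl

lemma LX_ext {g h : LX} (h1 : lfst g = lfst h) (h2 : lsnd g = lsnd h) : g = h :=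
  Prod.ext h1 h2

lemma LX_lt {g h : LX} : g < h ↔ lfst g < lfst h ∨ (lfst g = lfst h ∧ lsnd g < lsnd h) :=
  Prod.Lex.lt_iff

lemma LX_le {g h : LX} : g ≤ h ↔ lfst g < lfst h ∨ (lfst g = lfst h ∧ lsnd g ≤ lsnd h) :=
  Prod.Lex.le_iff

lemma lfst_mono : Monotone lfst := by
  intro g h hgh
  rcases LX_le.mp hgh with h1 | h1
  · exact h1.le
  · exact h1.1.le

lemma il_apply (i j : ℚ) : il (i, j) = toLex (-i, -j) := rfl

lemma lfst_il (i j : ℚ) : lfst (il (i, j)) = -i := rfl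

lemma lsnd_il (i j : ℚ) : lsnd (il (i, j)) = -j := rfl

lemma lfst_il2 (i j : ℚ) : lfst (il2 (i, j)) = -(i + j) := rfl

lemma lsnd_il2 (i j : ℚ) : lsnd (il2 (i, j)) = i := rfl

/-- the exponent system with `η ≫ y` -/
noncomputable def exL : Expo LX where
  io := il
  inj := by
    intro e f h
    have h1 : lfst (il e) = lfst (il f) := by rw [h]
    have h2 : lsnd (il e) = lsnd (il f) := by rw [h]
    have h3 : (-e.1 : ℚ) = -f.1 := h1
    have h4 : (-e.2 : ℚ) = -f.2 := h2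
    exact Prod.ext (neg_injective h3) (neg_injective h4)
  f1 := -((Rat.castHom ℂ).toAddMonoidHom.comp lfst)
  f2 := -((Rat.castHom ℂ).toAddMonoidHom.comp lsnd)
  h1 := by
    intro e
    show -((-e.1 : ℚ) : ℂ) = _
    push_cast
    ring
  h2 := by
    intro e
    show -((-e.2 : ℚ) : ℂ) = _
    push_cast
    ring

lemma exL_f1 (g : LX) : exL.f1 g = -(lfst g : ℂ) := rfl

lemma exL_f2 (g : LX) : exL.f2 g = -(lsnd g : ℂ) := rfl

/-- the exponent system with orders `(-(i + j), i)` -/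
noncomputable def exL2 : Expo LX where
  io := il2
  inj := by
    intro e f h
    have h1 : lfst (il2 e) = lfst (il2 f) := by rw [h]
    have h2 : lsnd (il2 e) = lsnd (il2 f) := by rw [h]
    have h3 : -(e.1 + e.2 : ℚ) = -(f.1 + f.2) := h1
    have h4 : (e.1 : ℚ) = f.1 := h2
    refine Prod.ext h4 ?_
    linarith
  f1 := (Rat.castHom ℂ).toAddMonoidHom.comp lsnd
  f2 := -((Rat.castHom ℂ).toAddMonoidHom.comp lfst) - (Rat.castHom ℂ).toAddMonoidHom.comp lsnd
  h1 := by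
    intro e
    rfl
  h2 := by
    intro e
    show -((-(e.1 + e.2) : ℚ) : ℂ) - ((e.1 : ℚ) : ℂ) = _
    push_cast
    ring

lemma exL2_f1 (g : LX) : exL2.f1 g = (lsnd g : ℂ) := rfl

/-- the coarse valuation (first component) -/
noncomputable def v1 : AddValuation (Hn LX) (WithTop ℚ) :=
  (vv LX).map lfst.withTopMap (by simp) (WithTop.monotone_map_iff.mpr lfst_mono)

lemma v1_apply (f : Hn LX) : v1 f = (vv LX f).map lfst := rfl

lemma Lead.val1 {f : Hn LX} {γ : LX} {c : ℂ} (h : Lead f γ c) : v1 f = (lfst γ : WithTop ℚ) := by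
  rw [v1_apply, h.val]
  rfl

end Pool.Agent.Work.MP_157c12_gt
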