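import Pool.Agent.Work.MP_157c12_gt.Stmts

/-!
# Item B4: a root between two slopes
-/

namespace Pool.Agent.Work.MP_157c12_gt

namespace ItemB4

open Polynomial

section
variable {H : Type} [Field H] {Γ : Type} [AddCommGroup Γ] [LinearOrder Γ] [IsOrderedAddMonoid Γ]

/-- the monic polynomial with given roots -/
noncomputable def RR (s : Multiset H) : Polynomial H := (s.map (fun a => X - C a)).prod

lemma RR_zero : RR (0 : Multiset H) = 1 := by simp [RR]

lemma RR_cons (a : H) (s : Multiset H) : RR (a ::ₘ s) = (X - C a) * RR s := by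
  simp [RR]

lemma coeff_zero_cons (a : H) (s : Multiset H) :
    (RR (a ::ₘ s)).coeff 0 = -(a * (RR s).coeff 0) := by
  rw [RR_cons, sub_mul, coeff_sub, coeff_C_mul, mul_coeff_zero, coeff_X_zero, zero_mul, zero_sub]

lemma coeff_succ_cons (a : H) (s : Multiset H) (j : ℕ) :
    (RR (a ::ₘ s)).coeff (j + 1) = (RR s).coeff j - a * (RR s).coeff (j + 1) := by
  rw [RR_cons, sub_mul, coeff_sub, coeff_C_mul, coeff_X_mul]

lemma ns_succ (j : ℕ) (g : Γ) : (((j + 1) • g : Γ) : WithTop Γ) = ((j • g : Γ) : WithTop Γ) + g := by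
  rw [succ_nsmul]; exact WithTop.coe_add _ _

lemma factB (v : AddValuation H (WithTop Γ)) (g : Γ) (s : Multiset H) :
    (∀ r ∈ s, (g : WithTop Γ) ≤ v r) →
    ∀ j, ((s.card • g : Γ) : WithTop Γ) ≤ v ((RR s).coeff j) + ((j • g : Γ) : WithTop Γ) := by
  induction s using Multiset.induction_on with
  | empty =>
    intro _ j
    rw [RR_zero]
    rcases j with _ | j
    · simp
    · rw [coeff_one, if_neg (Nat.succ_ne_zero j), v.map_zero, WithTop.top_add]
      exact le_top
  | cons a s ih =>
    intro hs j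
    have ih' := ih fun r hr => hs r (Multiset.mem_cons_of_mem hr)
    have ha := hs a (Multiset.mem_cons_self a s)
    rw [Multiset.card_cons, ns_succ]
    rcases j with _ | j
    · rw [coeff_zero_cons, v.map_neg, v.map_mul]
      have h0 := ih' 0
      calc ((s.card • g : Γ) : WithTop Γ) + g ≤
          (v ((RR s).coeff 0) + ((0 • g : Γ) : WithTop Γ)) + v a := add_le_add h0 ha
        _ = _ := by rw [add_right_comm, add_comm (v ((RR s).coeff 0))]
    · rw [coeff_succ_cons]
      have h1 : ((s.card • g : Γ) : WithTop Γ) ≤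
          v ((RR s).coeff j) + ((j • g : Γ) : WithTop Γ) := ih' j
      have h2 := ih' (j + 1)
      have h3 : min (v ((RR s).coeff j)) (v (a * (RR s).coeff (j + 1))) ≤
          v ((RR s).coeff j - a * (RR s).coeff (j + 1)) :=
        v.map_le_sub (min_le_left _ _) (min_le_right _ _)
      refine le_trans ?_ (add_le_add_left h3 _)
      rw [← min_add_add_right]
      refine le_min ?_ ?_
      · rw [ns_succ, ← add_assoc]
        exact add_le_add_left h1 _
      · rw [v.map_mul, add_assoc]
        rw [add_comm ((s.card • g : Γ) : WithTop Γ)]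
        exact add_le_add ha h2

lemma factA (v : AddValuation H (WithTop Γ)) (g : Γ) (s : Multiset H) :
    (∀ r ∈ s, v r ≤ (g : WithTop Γ)) → v ((RR s).coeff 0) ≠ ⊤ ∧
    ∀ j, v ((RR s).coeff 0) ≤ v ((RR s).coeff j) + ((j • g : Γ) : WithTop Γ) := by
  induction s using Multiset.induction_on with
  | empty =>
    intro _
    rw [RR_zero]
    constructor
    · simp
    · intro j
      rcases j with _ | j
      · simp
      · have h1 : (1 : Polynomial H).coeff (j + 1) = 0 := by
          rw [coeff_one, if_neg (Nat.succ_ne_zero j)]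
        rw [h1, v.map_zero, WithTop.top_add]
        exact le_top
  | cons a s ih =>
    intro hs
    obtain ⟨ih0, ih'⟩ := ih fun r hr => hs r (Multiset.mem_cons_of_mem hr)
    have ha := hs a (Multiset.mem_cons_self a s)
    constructor
    · rw [coeff_zero_cons, v.map_neg, v.map_mul]
      exact WithTop.add_ne_top.2 ⟨ne_top_of_le_ne_top WithTop.coe_ne_top ha, ih0⟩
    · intro j
      rcases j with _ | j
      · simp
      · rw [coeff_zero_cons, coeff_succ_cons, v.map_neg, v.map_mul]
        have h3 : min (v ((RR s).coeff j)) (v (a * (RR s).coeff (j + 1))) ≤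
            v ((RR s).coeff j - a * (RR s).coeff (j + 1)) :=
          v.map_le_sub (min_le_left _ _) (min_le_right _ _)
        refine le_trans ?_ (add_le_add_left h3 _)
        rw [← min_add_add_right]
        refine le_min ?_ ?_
        · rw [ns_succ, ← add_assoc, add_comm (v a)]
          exact add_le_add (ih' j) ha
        · rw [v.map_mul, add_assoc]
          exact add_le_add_right (ih' (j + 1)) _

lemma RR_monic (s : Multiset H) : (RR s).Monic ∧ (RR s).natDegree = s.card := by
  constructor
  · exact monic_multiset_prod_of_monic _ _ fun a _ => monic_X_sub_C a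
  · exact natDegree_multiset_prod_X_sub_C_eq_card s

lemma RR_top (s : Multiset H) : (RR s).coeff s.card = 1 := by
  have h := RR_monic s
  have := h.1.coeff_natDegree
  rwa [h.2] at this

lemma wt_cancel {a b : WithTop Γ} (c : Γ) (h : a + (c : WithTop Γ) ≤ b + (c : WithTop Γ)) :
    a ≤ b := (WithTop.add_le_add_iff_right WithTop.coe_ne_top).1 h

lemma wt_mono {g1 g0 : Γ} (h : g1 < g0) (j : ℕ) :
    ((j • g1 : Γ) : WithTop Γ) ≤ ((j • g0 : Γ) : WithTop Γ) :=
  WithTop.coe_le_coe.2 (nsmul_le_nsmul_right h.le j)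

end

end ItemB4

open ItemB4 Polynomial in
theorem b4 : SB4 := by
  intro H _ _ Γ _ _ _ v P m j0 g1 g0 hg hm hj0 h1 h0
  classical
  by_contra hcon
  have hroots : ∀ r ∈ P.roots, v r ≤ (g1 : WithTop Γ) ∨ (g0 : WithTop Γ) ≤ v r := by
    intro r hr
    by_contra hr2
    rw [not_or, not_le, not_le] at hr2
    exact hcon ⟨r, isRoot_of_mem_roots hr, hr2.1, hr2.2⟩
  set A : Multiset H := P.roots.filter (fun r => v r ≤ (g1 : WithTop Γ)) with hA
  set B : Multiset H := P.roots.filter (fun r => ¬ v r ≤ (g1 : WithTop Γ)) with hB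
  set c : H := P.leadingCoeff with hc
  have hP : P = C c * (RR A * RR B) := by
    have := (IsAlgClosed.splits P).eq_prod_roots
    have h2 : RR A * RR B = RR P.roots := by
      unfold RR
      rw [← Multiset.prod_add, ← Multiset.map_add, hA, hB, Multiset.filter_add_not]
    rw [h2]
    exact this
  have hP0 : P ≠ 0 := by
    rintro rfl; simp at hm
  have hc0 : v c ≠ ⊤ := (AddValuation.ne_top_iff v).2 (leadingCoeff_ne_zero.2 hP0)
  obtain ⟨a0, ha⟩ := factA v g1 A fun r hr => (Multiset.mem_filter.1 hr).2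
  have hb := factB v g0 B fun r hr => by
    obtain ⟨h3, h4⟩ := Multiset.mem_filter.1 hr
    exact (hroots r h3).resolve_left h4
  set k := B.card with hk
  have hbt : (RR B).coeff k = 1 := RR_top B
  have hbz : ∀ j, k < j → (RR B).coeff j = 0 := fun j hj =>
    coeff_eq_zero_of_natDegree_lt (by rw [(RR_monic B).2]; exact hj)
  -- general lower bound at a slope
  have hcoef : ∀ n, P.coeff n = c * ∑ x ∈ Finset.HasAntidiagonal.antidiagonal n,
      (RR A).coeff x.1 * (RR B).coeff x.2 := by
    intro n
    conv_lhs => rw [hP]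
    rw [coeff_C_mul, coeff_mul]
  have hlow0 : ∀ n, v c + v ((RR A).coeff 0) + ((k • g0 : Γ) : WithTop Γ) ≤
      v (P.coeff n) + ((n • g0 : Γ) : WithTop Γ) := by
    intro n
    rw [hcoef n, v.map_mul, add_assoc, add_assoc]
    refine add_le_add_right ?_ _
    have h5 : ∀ x ∈ Finset.HasAntidiagonal.antidiagonal n, v ((RR A).coeff 0) + ((k • g0 : Γ) : WithTop Γ) +
        ((-(n • g0) : Γ) : WithTop Γ) ≤ v ((RR A).coeff x.1 * (RR B).coeff x.2) := by
      intro x hx
      rw [Finset.HasAntidiagonal.mem_antidiagonal] at hx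
      refine wt_cancel (n • g0) ?_
      rw [add_assoc, ← WithTop.coe_add, neg_add_cancel, WithTop.coe_zero, add_zero, v.map_mul,
        ← hx, add_nsmul, WithTop.coe_add]
      calc v ((RR A).coeff 0) + ((k • g0 : Γ) : WithTop Γ)
          ≤ (v ((RR A).coeff x.1) + ((x.1 • g0 : Γ) : WithTop Γ)) +
            (v ((RR B).coeff x.2) + ((x.2 • g0 : Γ) : WithTop Γ)) :=
            add_le_add ((ha x.1).trans (add_le_add_right (wt_mono hg x.1) _)) (hb x.2)
        _ = _ := by abel
    have h6 := v.map_le_sum h5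
    have h7 := add_le_add_left h6 ((n • g0 : Γ) : WithTop Γ)
    rw [add_assoc, ← WithTop.coe_add, neg_add_cancel, WithTop.coe_zero, add_zero] at h7
    exact h7
  have hb1 : ∀ j, j ≠ k → ((k • g1 : Γ) : WithTop Γ) <
      v ((RR B).coeff j) + ((j • g1 : Γ) : WithTop Γ) := by
    intro j hj
    rcases lt_or_gt_of_ne hj with h6 | h6
    · have h7 := hb j
      by_cases h8 : v ((RR B).coeff j) = ⊤
      · rw [h8, WithTop.top_add]; exact WithTop.coe_lt_top _
      · obtain ⟨t, ht⟩ := WithTop.ne_top_iff_exists.1 h8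
        rw [← ht] at h7 ⊢
        have h9 : k • g0 ≤ t + j • g0 := by exact_mod_cast h7
        have h10 : k • g1 < t + j • g1 := by
          have e1 : k • g0 = (k - j) • g0 + j • g0 := by
            rw [← add_nsmul, Nat.sub_add_cancel h6.le]
          have e2 : k • g1 = (k - j) • g1 + j • g1 := by
            rw [← add_nsmul, Nat.sub_add_cancel h6.le]
          rw [e1] at h9
          rw [e2]
          have h11 : (k - j) • g0 ≤ t := le_of_add_le_add_right h9
          have h12 : (k - j) • g1 < (k - j) • g0 :=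
            nsmul_lt_nsmul_right (Nat.sub_ne_zero_of_lt h6) hg
          exact add_lt_add_left (lt_of_lt_of_le h12 h11) _
        exact_mod_cast h10
    · rw [hbz j h6, v.map_zero, WithTop.top_add]
      exact WithTop.coe_lt_top _
  have hlow1 : ∀ n, v c + v ((RR A).coeff 0) + ((k • g1 : Γ) : WithTop Γ) ≤
      v (P.coeff n) + ((n • g1 : Γ) : WithTop Γ) := by
    intro n
    rw [hcoef n, v.map_mul, add_assoc, add_assoc]
    refine add_le_add_right ?_ _
    have hb1' : ∀ j, ((k • g1 : Γ) : WithTop Γ) ≤
        v ((RR B).coeff j) + ((j • g1 : Γ) : WithTop Γ) := by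
      intro j
      by_cases hj : j = k
      · rw [hj, hbt, v.map_one, zero_add]
      · exact (hb1 j hj).le
    have h5 : ∀ x ∈ Finset.HasAntidiagonal.antidiagonal n, v ((RR A).coeff 0) + ((k • g1 : Γ) : WithTop Γ) +
        ((-(n • g1) : Γ) : WithTop Γ) ≤ v ((RR A).coeff x.1 * (RR B).coeff x.2) := by
      intro x hx
      rw [Finset.HasAntidiagonal.mem_antidiagonal] at hx
      refine wt_cancel (n • g1) ?_
      rw [add_assoc, ← WithTop.coe_add, neg_add_cancel, WithTop.coe_zero, add_zero, v.map_mul,
        ← hx, add_nsmul, WithTop.coe_add]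
      calc v ((RR A).coeff 0) + ((k • g1 : Γ) : WithTop Γ)
          ≤ (v ((RR A).coeff x.1) + ((x.1 • g1 : Γ) : WithTop Γ)) +
            (v ((RR B).coeff x.2) + ((x.2 • g1 : Γ) : WithTop Γ)) :=
            add_le_add (ha x.1) (hb1' x.2)
        _ = _ := by abel
    have h6 := v.map_le_sum h5
    have h7 := add_le_add_left h6 ((n • g1 : Γ) : WithTop Γ)
    rw [add_assoc, ← WithTop.coe_add, neg_add_cancel, WithTop.coe_zero, add_zero] at h7
    exact h7
  -- the coefficient k
  have hvk : v (P.coeff k) = v c + v ((RR A).coeff 0) := by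
    rw [hcoef k, v.map_mul]
    congr 1
    have hmem : ((0 : ℕ), k) ∈ Finset.HasAntidiagonal.antidiagonal k := by simp
    rw [← Finset.add_sum_erase _ _ hmem]
    have h5 : v ((RR A).coeff 0 * (RR B).coeff k) = v ((RR A).coeff 0) := by
      rw [hbt, mul_one]
    have h6 : v ((RR A).coeff 0) < v (∑ x ∈ (Finset.HasAntidiagonal.antidiagonal k).erase (0, k),
        (RR A).coeff x.1 * (RR B).coeff x.2) := by
      refine v.map_lt_sum a0 ?_
      intro x hx
      obtain ⟨hx1, hx2⟩ := Finset.mem_erase.1 hx
      rw [Finset.HasAntidiagonal.mem_antidiagonal] at hx2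
      have hxk : x.2 ≠ k := by
        intro h7
        apply hx1
        have : x.1 = 0 := by omega
        exact Prod.ext this h7
      have h8 := hb1 x.2 hxk
      have h9 := ha x.1
      obtain ⟨t, ht⟩ := WithTop.ne_top_iff_exists.1 a0
      rw [v.map_mul]
      rw [← ht] at h9 ⊢
      by_cases h10 : v ((RR A).coeff x.1) = ⊤
      · rw [h10, WithTop.top_add]; exact WithTop.coe_lt_top _
      by_cases h11 : v ((RR B).coeff x.2) = ⊤
      · rw [h11, WithTop.add_top]; exact WithTop.coe_lt_top _
      obtain ⟨p, hp⟩ := WithTop.ne_top_iff_exists.1 h10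
      obtain ⟨q, hq⟩ := WithTop.ne_top_iff_exists.1 h11
      rw [← hp] at h9 ⊢
      rw [← hq] at h8 ⊢
      have h12 : k • g1 < q + x.2 • g1 := by exact_mod_cast h8
      have h13 : t ≤ p + x.1 • g1 := by exact_mod_cast h9
      have h14 : t < p + q := by
        have e1 : k • g1 = x.1 • g1 + x.2 • g1 := by rw [← add_nsmul, hx2]
        rw [e1] at h12
        have h15 : x.1 • g1 < q := lt_of_add_lt_add_right h12
        exact lt_of_le_of_lt h13 (add_lt_add_right h15 _)
      exact_mod_cast h14
    rw [← h5] at h6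
    rw [v.map_add_eq_of_lt_left h6, h5]
  have hkm : m = k := by
    by_contra hne
    have hPk : P.coeff k ≠ 0 := by
      intro h5
      rw [h5, v.map_zero] at hvk
      exact (WithTop.add_ne_top.2 ⟨hc0, a0⟩) hvk.symm
    have h6 := (h1 k (fun h => hne h.symm)).resolve_right hPk
    have h7 := hlow1 m
    rw [← hvk] at h7
    exact absurd (lt_of_lt_of_le h6 h7) (lt_irrefl _)
  have h8 := (h0 m le_rfl).resolve_right hm
  have h9 := hlow0 j0
  rw [← hvk, ← hkm] at h9
  exact absurd (lt_of_lt_of_le h8 h9) (lt_irrefl _)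

end Pool.Agent.Work.MP_157c12_gt
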