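import Pool.Agent.Work.MP_157c12_gt.Stmts

/-!
# B1: Hahn series over `ℂ` with a divisible value group are algebraically closed

Zorn on pairs `(h, g)`, where `h` is an approximate root with error of order at least `g`.
-/

open Polynomial

namespace Pool.Agent.Work.MP_157c12_gt

namespace ItemB1

section Basic

variable {Γ : Type} [AddCommGroup Γ] [LinearOrder Γ] [IsOrderedAddMonoid Γ]

/-- the order is at least `m` -/
def Ge (f : Hn Γ) (m : Γ) : Prop := ∀ δ < m, f.coeff δ = 0

lemma Ge.zero (m : Γ) : Ge (0 : Hn Γ) m := fun _ _ => by simp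

lemma Ge.mono {f : Hn Γ} {m n : Γ} (h : Ge f m) (hn : n ≤ m) : Ge f n :=
  fun δ hδ => h δ (lt_of_lt_of_le hδ hn)

lemma Ge.add {f g : Hn Γ} {m : Γ} (hf : Ge f m) (hg : Ge g m) : Ge (f + g) m := by
  intro δ hδ
  rw [HahnSeries.coeff_add, hf δ hδ, hg δ hδ, add_zero]

lemma Ge.neg {f : Hn Γ} {m : Γ} (hf : Ge f m) : Ge (-f) m := by
  intro δ hδ
  rw [HahnSeries.coeff_neg, hf δ hδ, neg_zero]

lemma Ge.sum {ι : Type} (s : Finset ι) (f : ι → Hn Γ) (m : Γ) (h : ∀ i ∈ s, Ge (f i) m) :
    Ge (∑ i ∈ s, f i) m := by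
  classical
  induction s using Finset.induction_on with
  | empty => simpa using Ge.zero m
  | insert a s ha ih =>
    rw [Finset.sum_insert ha]
    exact (h a (Finset.mem_insert_self a s)).add
      (ih fun i hi => h i (Finset.mem_insert_of_mem hi))

lemma coeffSum {ι : Type} (s : Finset ι) (f : ι → Hn Γ) (m : Γ) :
    (∑ i ∈ s, f i).coeff m = ∑ i ∈ s, (f i).coeff m := by
  classical
  induction s using Finset.induction_on with
  | empty => simp
  | insert a s ha ih =>
    rw [Finset.sum_insert ha, Finset.sum_insert ha, HahnSeries.coeff_add, ih]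

lemma Ge.mul {f g : Hn Γ} {m n : Γ} (hf : Ge f m) (hg : Ge g n) : Ge (f * g) (m + n) := by
  intro δ hδ
  rw [HahnSeries.coeff_mul]
  refine Finset.sum_eq_zero ?_
  rintro ⟨i, j⟩ hij
  have hij' : i + j = δ := (Finset.mem_antidiagonal.mp hij).2.2
  by_cases h1 : i < m
  · simp [hf i h1]
  · have h2 : j < n := by
      by_contra h2
      exact absurd hδ (not_lt.mpr (hij' ▸ add_le_add (not_lt.mp h1) (not_lt.mp h2)))
    simp [hg j h2]

lemma coeffMul {f g : Hn Γ} {m n : Γ} (hf : Ge f m) (hg : Ge g n) :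
    (f * g).coeff (m + n) = f.coeff m * g.coeff n := by
  rw [HahnSeries.coeff_mul]
  rw [Finset.sum_eq_single (m, n)]
  · rintro ⟨i, j⟩ hij hne
    have hij' : i + j = m + n := (Finset.mem_antidiagonal.mp hij).2.2
    by_cases h1 : i < m
    · simp [hf i h1]
    · have h2 : j < n := by
        by_contra h2
        rcases lt_or_eq_of_le (not_lt.mp h1) with h3 | h3
        · exact absurd hij' (ne_of_gt (add_lt_add_of_lt_of_le h3 (not_lt.mp h2)))
        · subst h3
          exact hne (by rw [add_left_cancel hij'])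
      simp [hg j h2]
  · intro h
    by_contra hc
    apply h
    rw [Finset.mem_antidiagonal]
    refine ⟨?_, ?_, rfl⟩
    · intro h0
      exact hc (by simp [h0])
    · intro h0
      exact hc (by simp [h0])

lemma Ge.one : Ge (1 : Hn Γ) 0 := by
  intro δ hδ
  rw [HahnSeries.coeff_one, if_neg hδ.ne]

lemma Ge.pow {d : Hn Γ} {g : Γ} (hd : Ge d g) (l : ℕ) :
    Ge (d ^ l) (l • g) ∧ (d ^ l).coeff (l • g) = d.coeff g ^ l := by
  induction l with
  | zero => exact ⟨by simpa using Ge.one, by simp⟩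
  | succ l ih =>
    rw [pow_succ, pow_succ, succ_nsmul]
    exact ⟨ih.1.mul hd, by rw [coeffMul ih.1 hd, ih.2]⟩

lemma Ge.natCast (k : ℕ) : Ge (k : Hn Γ) 0 ∧ (k : Hn Γ).coeff 0 = k := by
  rw [← HahnSeries.single_zero_natCast]
  refine ⟨?_, by simp⟩
  intro δ hδ
  rw [HahnSeries.coeff_single_of_ne hδ.ne]

/-- reduction of a polynomial at the slope `g` and the value `M` -/
noncomputable def red (Q : (Hn Γ)[X]) (M g : Γ) : ℂ[X] :=
  ∑ j ∈ Finset.range (Q.natDegree + 1), Polynomial.monomial j ((Q.coeff j).coeff (M - j • g))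

lemma redCoeff (Q : (Hn Γ)[X]) (M g : Γ) (j : ℕ) :
    (red Q M g).coeff j = (Q.coeff j).coeff (M - j • g) := by
  unfold red
  rw [Polynomial.finsetSum_coeff]
  simp only [Polynomial.coeff_monomial]
  by_cases hj : j ∈ Finset.range (Q.natDegree + 1)
  · rw [Finset.sum_ite_eq' _ j, if_pos hj]
  · rw [Finset.sum_ite_eq' _ j, if_neg hj]
    rw [Polynomial.coeff_eq_zero_of_natDegree_lt]
    · simp
    · simpa using hj

lemma redDeg (Q : (Hn Γ)[X]) (M g : Γ) : (red Q M g).natDegree < Q.natDegree + 1 := by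
  rw [Nat.lt_succ_iff, Polynomial.natDegree_le_iff_coeff_eq_zero]
  intro j hj
  rw [redCoeff, Polynomial.coeff_eq_zero_of_natDegree_lt hj]
  simp

lemma taylorCoeff {R : Type} [CommRing R] (Q : R[X]) (d : R) (i N : ℕ) (hN : Q.natDegree < N) :
    (taylor d Q).coeff i =
      ∑ l ∈ Finset.range N, (((l + i).choose i : ℕ) : R) * Q.coeff (l + i) * d ^ l := by
  rw [taylor_coeff, Polynomial.eval_eq_sum_range' (n := N)]
  · refine Finset.sum_congr rfl fun l _ => ?_
    rw [hasseDeriv_coeff]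
  · exact lt_of_le_of_lt ((natDegree_hasseDeriv_le Q i).trans (Nat.sub_le _ _)) hN

lemma taylorMain (Q : (Hn Γ)[X]) (M g : Γ) (d : Hn Γ) (hQ : ∀ j, Ge (Q.coeff j) (M - j • g))
    (hd : Ge d g) (i : ℕ) :
    Ge ((taylor d Q).coeff i) (M - i • g) ∧
      ((taylor d Q).coeff i).coeff (M - i • g) = (taylor (d.coeff g) (red Q M g)).coeff i := by
  rw [taylorCoeff Q d i (Q.natDegree + 1) (Nat.lt_succ_self _),
    taylorCoeff (red Q M g) (d.coeff g) i (Q.natDegree + 1) (redDeg Q M g)]
  have key : ∀ l : ℕ, Ge ((((l + i).choose i : ℕ) : Hn Γ) * Q.coeff (l + i) * d ^ l) (M - i • g) ∧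
      ((((l + i).choose i : ℕ) : Hn Γ) * Q.coeff (l + i) * d ^ l).coeff (M - i • g) =
        (((l + i).choose i : ℕ) : ℂ) * (red Q M g).coeff (l + i) * (d.coeff g) ^ l := by
    intro l
    have h1 := Ge.natCast (Γ := Γ) ((l + i).choose i)
    have h2 := hQ (l + i)
    have h3 := hd.pow l
    have e : M - i • g = 0 + (M - (l + i) • g) + l • g := by
      rw [add_nsmul]
      abel
    rw [e]
    refine ⟨(h1.1.mul h2).mul h3.1, ?_⟩
    rw [coeffMul (h1.1.mul h2) h3.1, coeffMul h1.1 h2, h1.2, h3.2, redCoeff]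
  refine ⟨Ge.sum _ _ _ fun l _ => (key l).1, ?_⟩
  rw [coeffSum]
  exact Finset.sum_congr rfl fun l _ => (key l).2

/-- `h` approximates a root of `P` up to an error of order at least `g` -/
def Ap (P : (Hn Γ)[X]) (h : Hn Γ) (g : Γ) : Prop :=
  ∃ M : Γ, (∀ j, Ge ((taylor h P).coeff j) (M - j • g)) ∧
    ∃ k, 1 ≤ k ∧ ((taylor h P).coeff k).coeff (M - k • g) ≠ 0

lemma Ap.move {P : (Hn Γ)[X]} {h d : Hn Γ} {g : Γ} (ha : Ap P h g) (hd : Ge d g) :
    Ap P (h + d) g := by
  obtain ⟨M, h1, k, hk, h2⟩ := ha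
  have e : taylor (h + d) P = taylor d (taylor h P) := by
    rw [taylor_taylor, add_comm]
  refine ⟨M, fun j => ?_, (red (taylor h P) M g).natDegree, ?_, ?_⟩
  · rw [e]
    exact (taylorMain _ M g d h1 hd j).1
  · refine hk.trans (Polynomial.le_natDegree_of_ne_zero ?_)
    rw [redCoeff]
    exact h2
  · rw [e, (taylorMain _ M g d h1 hd _).2, coeff_taylor_natDegree]
    rw [Polynomial.leadingCoeff_ne_zero]
    intro h0
    apply h2
    rw [← redCoeff, h0, coeff_zero]

lemma nsmulLe {k : ℕ} (hk : 1 ≤ k) {a b : Γ} (h : k • a ≤ k • b) : a ≤ b :=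
  (nsmul_le_nsmul_iff_right (by omega : k ≠ 0)).mp h

lemma nsmulLt {k : ℕ} {a b : Γ} (h : k • a < k • b) : a < b := by
  by_contra hc
  exact absurd h (not_lt.mpr (nsmul_le_nsmul_right (not_lt.mp hc) k))

variable [Module ℚ Γ]

/-- the largest slope at `h` -/
lemma maxSlope (P : (Hn Γ)[X]) (hdeg : 1 ≤ P.natDegree) (h : Hn Γ)
    (h0 : (taylor h P).coeff 0 ≠ 0) :
    ∃ g' : Γ, Ap P h g' ∧ ∀ (M g : Γ) (k : ℕ), 1 ≤ k → Ge ((taylor h P).coeff 0) M →
      ((taylor h P).coeff k).coeff (M - k • g) ≠ 0 →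
      g ≤ g' ∧ (((taylor h P).coeff 0).coeff M = 0 → g < g') := by
  classical
  set b : ℕ → Hn Γ := fun j => (taylor h P).coeff j with hb
  set n := P.natDegree with hn
  let I : Finset ℕ := (Finset.range (n + 1)).filter fun j => 1 ≤ j ∧ b j ≠ 0
  have hmem : ∀ j, 1 ≤ j → b j ≠ 0 → j ∈ I := by
    intro j hj hbj
    rw [Finset.mem_filter, Finset.mem_range]
    refine ⟨?_, hj, hbj⟩
    have h1 := Polynomial.le_natDegree_of_ne_zero hbj
    rw [natDegree_taylor] at h1
    omega
  have hP : P ≠ 0 := by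
    rintro rfl
    simp at h0
  have hI : I.Nonempty := by
    refine ⟨n, hmem n hdeg ?_⟩
    show (taylor h P).coeff n ≠ 0
    rw [hn, coeff_taylor_natDegree]
    exact Polynomial.leadingCoeff_ne_zero.mpr hP
  let s : ℕ → Γ := fun j => ((j : ℚ)⁻¹) • ((b 0).order - (b j).order)
  have hs : ∀ j, 1 ≤ j → j • s j = (b 0).order - (b j).order := by
    intro j hj
    show j • (((j : ℚ)⁻¹) • ((b 0).order - (b j).order)) = _
    rw [← Nat.cast_smul_eq_nsmul ℚ, smul_smul, mul_inv_cancel₀, one_smul]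
    exact_mod_cast (by omega : j ≠ 0)
  obtain ⟨k0, hk0, hmax⟩ := Finset.exists_max_image I s hI
  have hk0' := (Finset.mem_filter.mp hk0).2
  refine ⟨s k0, ⟨(b 0).order, ?_, k0, hk0'.1, ?_⟩, ?_⟩
  · intro j
    show Ge (b j) _
    by_cases hbj : b j = 0
    · rw [hbj]
      exact Ge.zero _
    · have hge : Ge (b j) (b j).order := fun δ hδ => HahnSeries.coeff_eq_zero_of_lt_order hδ
      refine hge.mono ?_
      rcases Nat.eq_zero_or_pos j with rfl | hj
      · simp
      · have h1 := hmax j (hmem j hj hbj)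
        have h2 : j • s j ≤ j • s k0 := nsmul_le_nsmul_right h1 j
        rw [hs j hj] at h2
        rw [sub_le_comm]
        exact h2
  · show (b k0).coeff _ ≠ 0
    rw [hs k0 hk0'.1, sub_sub_cancel]
    intro h1
    exact hk0'.2 (HahnSeries.coeff_order_eq_zero.mp h1)
  · intro M g k hk hM hc
    change (b k).coeff _ ≠ 0 at hc
    change Ge (b 0) M at hM
    have hbk : b k ≠ 0 := by
      intro h1
      rw [h1] at hc
      simp at hc
    have h1 : (b k).order ≤ M - k • g := HahnSeries.order_le_of_coeff_ne_zero hc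
    have hb0 : b 0 ≠ 0 := h0
    have h2 : M ≤ (b 0).order := by
      by_contra h3
      exact hb0 (HahnSeries.coeff_order_eq_zero.mp (hM _ (not_le.mp h3)))
    have h3 : s k ≤ s k0 := hmax k (hmem k hk hbk)
    have h4 : k • s k ≤ k • s k0 := nsmul_le_nsmul_right h3 k
    rw [hs k hk] at h4
    have h5 : k • g ≤ M - (b k).order := by
      rw [le_sub_comm]
      exact h1
    refine ⟨nsmulLe hk (h5.trans ((sub_le_sub_right h2 _).trans h4)), ?_⟩
    intro h6
    change (b 0).coeff M = 0 at h6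
    have h7 : M < (b 0).order := by
      refine lt_of_le_of_ne h2 ?_
      intro h8
      rw [h8] at h6
      exact hb0 (HahnSeries.coeff_order_eq_zero.mp h6)
    exact nsmulLt (lt_of_le_of_lt h5 (lt_of_lt_of_le (sub_lt_sub_right h7 _) h4))

/-- improvement of an approximate root -/
lemma improve (P : (Hn Γ)[X]) (hdeg : 1 ≤ P.natDegree) (hroot : ∀ h, (taylor h P).coeff 0 ≠ 0)
    (h : Hn Γ) (g : Γ) (ha : Ap P h g) : ∃ d g', Ge d g ∧ g < g' ∧ Ap P (h + d) g' := by
  obtain ⟨M, h1, k, hk, h2⟩ := ha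
  have h3 : (red (taylor h P) M g).degree ≠ 0 := by
    have h4 : 1 ≤ (red (taylor h P) M g).natDegree := by
      refine hk.trans (Polynomial.le_natDegree_of_ne_zero ?_)
      rw [redCoeff]
      exact h2
    intro h5
    have h6 : (red (taylor h P) M g).natDegree = 0 :=
      Polynomial.natDegree_eq_zero_iff_degree_le_zero.mpr h5.le
    omega
  obtain ⟨c, hc⟩ := IsAlgClosed.exists_root _ h3
  set d : Hn Γ := HahnSeries.single g c with hd
  have hdg : Ge d g := fun δ hδ => by rw [hd, HahnSeries.coeff_single_of_ne hδ.ne]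
  have hdc : d.coeff g = c := by rw [hd, HahnSeries.coeff_single_same]
  have e : taylor (h + d) P = taylor d (taylor h P) := by
    rw [taylor_taylor, add_comm]
  obtain ⟨g', hg1, hg2⟩ := maxSlope P hdeg (h + d) (hroot _)
  refine ⟨d, g', hdg, ?_, hg1⟩
  set k' := (red (taylor h P) M g).natDegree with hk'
  have hk1 : 1 ≤ k' := by
    refine hk.trans (Polynomial.le_natDegree_of_ne_zero ?_)
    rw [redCoeff]
    exact h2
  refine (hg2 M g k' hk1 ?_ ?_).2 ?_
  · rw [e]
    have := (taylorMain _ M g d h1 hdg 0).1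
    simpa using this
  · rw [e, (taylorMain _ M g d h1 hdg _).2, coeff_taylor_natDegree]
    rw [Polynomial.leadingCoeff_ne_zero]
    intro h0
    rw [hk', h0] at hk1
    simp at hk1
  · rw [e]
    have h9 := (taylorMain _ M g d h1 hdg 0).2
    rw [hdc, taylor_coeff_zero (r := c), hc] at h9
    simpa using h9

end Basic

end ItemB1

open ItemB1 in
theorem b1 : SB1 := by
  intro Γ _ _ _ _
  refine IsAlgClosed.of_exists_root _ ?_
  intro P _ hirr
  by_contra hno
  push Not at hno
  have hroot : ∀ h, (taylor h P).coeff 0 ≠ 0 := fun h => by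
    rw [taylor_coeff_zero]
    exact hno h
  have hdeg : 1 ≤ P.natDegree := hirr.natDegree_pos
  let S := {p : Hn Γ × Γ // Ap P p.1 p.2}
  let r : S → S → Prop := fun a b => a.1.2 ≤ b.1.2 ∧ Ge (b.1.1 - a.1.1) a.1.2
  obtain ⟨m, hm⟩ : ∃ m, ∀ a, r m a → r a m := by
    refine exists_maximal_of_chains_bounded (r := r) ?_ ?_
    · intro c hc
      classical
      let F : Γ → ℂ := fun δ =>
        if h : ∃ a ∈ c, δ < a.1.2 then h.choose.1.1.coeff δ else 0
      have hF : ∀ a ∈ c, ∀ δ < a.1.2, F δ = a.1.1.coeff δ := by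
        intro a ha δ hδ
        have hex : ∃ a ∈ c, δ < a.1.2 := ⟨a, ha, hδ⟩
        have h1 : F δ = hex.choose.1.1.coeff δ := dif_pos hex
        obtain ⟨h2, h3⟩ := hex.choose_spec
        rw [h1]
        rcases eq_or_ne hex.choose a with h4 | h4
        · rw [h4]
        · rcases hc h2 ha h4 with h5 | h5
          · have := h5.2 δ h3
            rw [HahnSeries.coeff_sub, sub_eq_zero] at this
            exact this.symm
          · have := h5.2 δ hδ
            rw [HahnSeries.coeff_sub, sub_eq_zero] at this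
            exact this
      have hpwo : (Function.support F).IsPWO := by
        rw [Set.isPWO_iff_isWF, Set.isWF_iff_no_descending_seq]
        intro f hf hfs
        have h1 : F (f 0) ≠ 0 := hfs 0
        have hex : ∃ a ∈ c, f 0 < a.1.2 := by
          by_contra h2
          exact h1 (dif_neg h2)
        obtain ⟨a, ha, h2⟩ := hex
        have h3 := a.1.1.isPWO_support.isWF
        rw [Set.isWF_iff_no_descending_seq] at h3
        refine h3 f hf fun n => ?_
        have h4 : f n < a.1.2 := lt_of_le_of_lt (hf.antitone (Nat.zero_le n)) h2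
        rw [HahnSeries.mem_support, ← hF a ha _ h4]
        exact hfs n
      let hinf : Hn Γ := ⟨F, hpwo⟩
      have hGe : ∀ a ∈ c, Ge (hinf - a.1.1) a.1.2 := by
        intro a ha δ hδ
        rw [HahnSeries.coeff_sub, sub_eq_zero]
        exact hF a ha δ hδ
      obtain ⟨g', hg1, hg2⟩ := maxSlope P hdeg hinf (hroot _)
      refine ⟨⟨(hinf, g'), hg1⟩, fun a ha => ⟨?_, hGe a ha⟩⟩
      have h1 : Ap P hinf a.1.2 := by
        have := (a.2).move (hGe a ha)
        simpa using this
      obtain ⟨M, h2, k, hk, h3⟩ := h1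
      exact (hg2 M a.1.2 k hk (by simpa using h2 0) h3).1
    · rintro a b e ⟨h1, h2⟩ ⟨h3, h4⟩
      refine ⟨h1.trans h3, ?_⟩
      have : e.1.1 - a.1.1 = (e.1.1 - b.1.1) + (b.1.1 - a.1.1) := by abel
      rw [this]
      exact (h4.mono h1).add h2
  obtain ⟨d, g', hd, hg, ha⟩ := improve P hdeg hroot m.1.1 m.1.2 m.2
  have h1 : r m ⟨(m.1.1 + d, g'), ha⟩ := ⟨hg.le, by simpa using hd⟩
  exact absurd (hm _ h1).1 (not_le.mpr hg)

end Pool.Agent.Work.MP_157c12_gt
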