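import Mathlib

/-!
# Algebraic surfaces of finite type: definitions

`P3` is the polynomial ring in the null coordinates `(ξ, η, y) = (X 0, X 1, X 2)`; the quadratic
form is `ξ η + y ^ 2`.
-/

open MvPolynomial

namespace Pool.Agent.Work.MP_157c12_gt

/-! ### algebra in a ring with two derivations -/

abbrev P3 : Type := MvPolynomial (Fin 3) ℂ

section Alg

variable {R : Type} [CommRing R] [Algebra ℂ R]

/-- `⟨D x, D' x⟩` for the polarisation of `ξ η + y ^ 2` -/
noncomputable def nd (D D' : Derivation ℂ R R) (x : Fin 3 → R) : R :=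
  algebraMap ℂ R (1 / 2) * (D (x 0) * D' (x 1) + D (x 1) * D' (x 0)) + D (x 2) * D' (x 2)

/-- determinant of the first fundamental form -/
noncomputable def detN (D1 D2 : Derivation ℂ R R) (x : Fin 3 → R) : R :=
  nd D1 D1 x * nd D2 D2 x - nd D1 D2 x ^ 2

/-- Laplace operator of the first fundamental form (`di` is the inverse of `detN D1 D2 x`) -/
noncomputable def lapF (D1 D2 : Derivation ℂ R R) (x : Fin 3 → R) (di f : R) : R :=
  di * (D1 (nd D2 D2 x * D1 f - nd D1 D2 x * D2 f) + D2 (nd D1 D1 x * D2 f - nd D1 D2 x * D1 f))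
    - algebraMap ℂ R (1 / 2) * di ^ 2 *
      (D1 (detN D1 D2 x) * (nd D2 D2 x * D1 f - nd D1 D2 x * D2 f)
        + D2 (detN D1 D2 x) * (nd D1 D1 x * D2 f - nd D1 D2 x * D1 f))

/-- the Laplace operator as a linear map -/
noncomputable def lapL (D1 D2 : Derivation ℂ R R) (x : Fin 3 → R) (di : R) : R →ₗ[ℂ] R where
  toFun := lapF D1 D2 x di
  map_add' := by
    intro f g
    simp only [lapF, map_add, mul_add, map_sub, Derivation.leibniz, smul_eq_mul]
    ring
  map_smul' := by
    intro c f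
    simp only [lapF, RingHom.id_apply, D1.map_smul, D2.map_smul, mul_smul_comm, ← smul_sub,
      ← smul_add]

/-- `p(Δ) x = 0` -/
def FT (p : Polynomial ℂ) (D1 D2 : Derivation ℂ R R) (x : Fin 3 → R) (di : R) : Prop :=
  ∀ a, (Polynomial.aeval (lapL D1 D2 x di) p : R →ₗ[ℂ] R) (x a) = 0

end Alg

/-- `|grad F| ^ 2` in null coordinates -/
noncomputable def QN (F : P3) : P3 := 4 * (pderiv 0 F * pderiv 1 F) + pderiv 2 F ^ 2

/-- the quadratic form -/
noncomputable def quad : P3 := X 0 * X 1 + X 2 ^ 2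

/-- homogeneous part of highest degree -/
noncomputable def top (F : P3) : P3 := homogeneousComponent F.totalDegree F

/-- bilinear form on `ℂ³` -/
noncomputable def bn (v w : Fin 3 → ℂ) : ℂ := 1 / 2 * (v 0 * w 1 + v 1 * w 0) + v 2 * w 2

/-- linear isometries -/
def IsoN (A : Matrix (Fin 3) (Fin 3) ℂ) : Prop := ∀ v w, bn (A.mulVec v) (A.mulVec w) = bn v w

/-- `F ∘ A` -/
noncomputable def rot (A : Matrix (Fin 3) (Fin 3) ℂ) (F : P3) : P3 :=
  aeval (fun a => ∑ b, C (A a b) * (X b : P3)) F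

/-- `F` is irreducible, the metric of `F = 0` is not degenerate, and `p(Δ) x = 0` holds at every
generic point of `F = 0` with values in a field with two commuting derivations. -/
structure Good (p : Polynomial ℂ) (F : P3) : Prop where
  irr : Irreducible F
  nondeg : ¬ F ∣ QN F
  p0 : p.coeff 0 ≠ 0
  ft : ∀ (H : Type) [Field H] [Algebra ℂ H] (D1 D2 : Derivation ℂ H H) (x : Fin 3 → H),
    (∀ r, D1 (D2 r) = D2 (D1 r)) → aeval x F = 0 → (∀ W : P3, aeval x W = 0 → F ∣ W) →
    detN D1 D2 x ≠ 0 → FT p D1 D2 x (detN D1 D2 x)⁻¹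

/-! ### Hahn series -/

/-- additive ordered group of the real numbers -/
def RA : Type := ℝ

noncomputable instance : AddCommGroup RA := inferInstanceAs (AddCommGroup ℝ)
noncomputable instance : LinearOrder RA := inferInstanceAs (LinearOrder ℝ)
instance : IsOrderedAddMonoid RA := inferInstanceAs (IsOrderedAddMonoid ℝ)
noncomputable instance : Module ℚ RA := inferInstanceAs (Module ℚ ℝ)

section Hahn

variable {Γ : Type} [AddCommGroup Γ] [LinearOrder Γ] [IsOrderedAddMonoid Γ]

abbrev Hn (Γ : Type) [AddCommGroup Γ] [LinearOrder Γ] [IsOrderedAddMonoid Γ] : Type :=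
  HahnSeries Γ ℂ

/-- the valuation (order) -/
noncomputable abbrev vv (Γ : Type) [AddCommGroup Γ] [LinearOrder Γ] [IsOrderedAddMonoid Γ] :
    AddValuation (Hn Γ) (WithTop Γ) := HahnSeries.addVal Γ ℂ

/-- multiplication of the coefficients by an additive function of the exponent -/
noncomputable def hdF (φ : Γ →+ ℂ) (f : Hn Γ) : Hn Γ where
  coeff := fun γ => φ γ * f.coeff γ
  isPWO_support' := f.isPWO_support.mono (by
    intro γ hγ h
    exact hγ (by simp [h]))

/-- leading term: `f = c t^γ + higher order` -/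
def Lead (f : Hn Γ) (γ : Γ) (c : ℂ) : Prop :=
  c ≠ 0 ∧ f.coeff γ = c ∧ ∀ γ' < γ, f.coeff γ' = 0

end Hahn

/-! ### polynomials with rational exponents in two variables -/

abbrev Gq : Type := AddMonoidAlgebra ℂ (ℚ × ℚ)

/-- evaluation in Hahn series: the monomial with exponent `e` is sent to `t ^ (ι e)` -/
noncomputable def Th {Γ : Type} [AddCommGroup Γ] [LinearOrder Γ] [IsOrderedAddMonoid Γ]
    (ι : ℚ × ℚ →+ Γ) : Gq →ₐ[ℂ] Hn Γ :=
  AddMonoidAlgebra.lift ℂ (Hn Γ) (ℚ × ℚ)
    { toFun := fun e => HahnSeries.single (ι e.toAdd) 1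
      map_one' := by simp
      map_mul' := by
        intro e f
        simp [HahnSeries.single_mul_single] }

/-- exponents `(i, j)` have the order `-(i a + j)` -/
noncomputable def ia (a : ℝ) : ℚ × ℚ →+ RA where
  toFun := fun e => (-(e.1 * a + e.2) : ℝ)
  map_zero' := by
    show (-(((0 : ℚ × ℚ).1 : ℝ) * a + ((0 : ℚ × ℚ).2 : ℝ)) : ℝ) = (0 : ℝ)
    simp
  map_add' := by
    intro e f
    show (-(((e + f).1 : ℝ) * a + ((e + f).2 : ℝ)) : ℝ) =
      ((-((e.1 : ℝ) * a + (e.2 : ℝ)) : ℝ) + (-((f.1 : ℝ) * a + (f.2 : ℝ)) : ℝ) : ℝ)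
    push_cast [Prod.fst_add, Prod.snd_add]
    ring

/-- lexicographic orders -/
abbrev LX : Type := ℚ ×ₗ ℚ

/-- exponents `(i, j)` have the lexicographic order `(-i, -j)` -/
def il : ℚ × ℚ →+ LX where
  toFun := fun e => toLex (-e.1, -e.2)
  map_zero' := by simp
  map_add' := by
    intro e f
    rw [← toLex_add]
    simp [add_comm]

/-- exponents `(i, j)` have the lexicographic order `(-(i + j), i)` -/
def il2 : ℚ × ℚ →+ LX where
  toFun := fun e => toLex (-(e.1 + e.2), e.1)
  map_zero' := by simp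
  map_add' := by
    intro e f
    rw [← toLex_add]
    simp
    ring_nf

/-- weight for the slope `a` -/
noncomputable def wt (a : ℝ) (A : Gq) : ℝ :=
  if h : A.coeff.support.Nonempty then
    A.coeff.support.sup' h fun e => (e.1 : ℝ) * a + e.2 else 0

/-- smallest root weight of the polynomial `P` -/
noncomputable def sm (P : Polynomial Gq) (a : ℝ) : ℝ :=
  if h : (P.support.erase 0).Nonempty then
    (P.support.erase 0).inf' h fun i => (wt a (P.coeff 0) - wt a (P.coeff i)) / i
  else 0

end Pool.Agent.Work.MP_157c12_gt
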