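import Pool.Agent.Work.MP_157c12_gt.Stmts

/-!
# A4: isometries act on good polynomials
-/

open MvPolynomial

namespace Pool.Agent.Work.MP_157c12_gt

namespace ItemA4

/-- the six scalar identities for `A^T M A = M` -/
structure IsoE (A : Matrix (Fin 3) (Fin 3) ℂ) : Prop where
  e : ∀ i j, 1 / 2 * (A 0 i * A 1 j + A 1 i * A 0 j) + A 2 i * A 2 j =
    if (i = 0 ∧ j = 1) ∨ (i = 1 ∧ j = 0) then 1 / 2 else if i = 2 ∧ j = 2 then 1 else 0

theorem isoE_of {A : Matrix (Fin 3) (Fin 3) ℂ} (h : IsoN A) : IsoE A := by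
  refine ⟨fun i j => ?_⟩
  have h1 := h (Pi.single i 1) (Pi.single j 1)
  have e1 : ∀ k l, A.mulVec (Pi.single l 1) k = A k l := by
    intro k l
    simp
  simp only [bn, e1] at h1
  rw [h1]
  fin_cases i <;> fin_cases j <;> simp

theorem isoN_of_isoE {A : Matrix (Fin 3) (Fin 3) ℂ} (h : IsoE A) : IsoN A := by
  intro v w
  have h00 := h.e 0 0
  have h01 := h.e 0 1
  have h02 := h.e 0 2
  have h10 := h.e 1 0
  have h11 := h.e 1 1
  have h12 := h.e 1 2
  have h20 := h.e 2 0
  have h21 := h.e 2 1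
  have h22 := h.e 2 2
  simp at h00 h01 h02 h10 h11 h12 h20 h21 h22
  simp only [bn, Matrix.mulVec, dotProduct, Fin.sum_univ_three]
  linear_combination (v 0 * w 0) * h00 + (v 0 * w 1) * h01 + (v 0 * w 2) * h02 +
    (v 1 * w 0) * h10 + (v 1 * w 1) * h11 + (v 1 * w 2) * h12 + (v 2 * w 0) * h20 +
    (v 2 * w 1) * h21 + (v 2 * w 2) * h22

/-- the inverse isometry -/
theorem inv_exists {A : Matrix (Fin 3) (Fin 3) ℂ} (h : IsoN A) :
    ∃ B : Matrix (Fin 3) (Fin 3) ℂ, B * A = 1 ∧ A * B = 1 ∧ IsoN B := by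
  have hE := isoE_of h
  set B : Matrix (Fin 3) (Fin 3) ℂ :=
    !![A 1 1, A 0 1, 2 * A 2 1; A 1 0, A 0 0, 2 * A 2 0; 1 / 2 * A 1 2, 1 / 2 * A 0 2, A 2 2]
    with hB
  have h00 := hE.e 0 0
  have h01 := hE.e 0 1
  have h02 := hE.e 0 2
  have h10 := hE.e 1 0
  have h11 := hE.e 1 1
  have h12 := hE.e 1 2
  have h20 := hE.e 2 0
  have h21 := hE.e 2 1
  have h22 := hE.e 2 2
  simp at h00 h01 h02 h10 h11 h12 h20 h21 h22
  have hBA : B * A = 1 := by
    ext i j
    rw [Matrix.mul_apply, Fin.sum_univ_three, hB]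
    fin_cases i <;> fin_cases j
    · simp
      linear_combination 2 * h10
    · simp
      linear_combination 2 * h11
    · simp
      linear_combination 2 * h12
    · simp
      linear_combination 2 * h00
    · simp
      linear_combination 2 * h01
    · simp
      linear_combination 2 * h02
    · simp
      linear_combination h20
    · simp
      linear_combination h21
    · simp
      linear_combination h22
  have hAB : A * B = 1 := mul_eq_one_comm.mp hBA
  refine ⟨B, hBA, hAB, ?_⟩
  intro v w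
  have h1 := h (B.mulVec v) (B.mulVec w)
  rw [Matrix.mulVec_mulVec, Matrix.mulVec_mulVec, hAB, Matrix.one_mulVec, Matrix.one_mulVec] at h1
  exact h1.symm

/-- the identities for `A N A^T = N` -/
theorem dual {A : Matrix (Fin 3) (Fin 3) ℂ} (h : IsoN A) (i j : Fin 3) :
    2 * (A i 0 * A j 1 + A i 1 * A j 0) + A i 2 * A j 2 =
    if (i = 0 ∧ j = 1) ∨ (i = 1 ∧ j = 0) then 2 else if i = 2 ∧ j = 2 then 1 else 0 := by
  have hE := isoE_of h
  set B : Matrix (Fin 3) (Fin 3) ℂ :=
    !![A 1 1, A 0 1, 2 * A 2 1; A 1 0, A 0 0, 2 * A 2 0; 1 / 2 * A 1 2, 1 / 2 * A 0 2, A 2 2]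
    with hB
  have h00 := hE.e 0 0
  have h01 := hE.e 0 1
  have h02 := hE.e 0 2
  have h10 := hE.e 1 0
  have h11 := hE.e 1 1
  have h12 := hE.e 1 2
  have h20 := hE.e 2 0
  have h21 := hE.e 2 1
  have h22 := hE.e 2 2
  simp at h00 h01 h02 h10 h11 h12 h20 h21 h22
  have hBA : B * A = 1 := by
    ext i j
    rw [Matrix.mul_apply, Fin.sum_univ_three, hB]
    fin_cases i <;> fin_cases j
    · simp
      linear_combination 2 * h10
    · simp
      linear_combination 2 * h11
    · simp
      linear_combination 2 * h12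
    · simp
      linear_combination 2 * h00
    · simp
      linear_combination 2 * h01
    · simp
      linear_combination 2 * h02
    · simp
      linear_combination h20
    · simp
      linear_combination h21
    · simp
      linear_combination h22
  have hAB : A * B = 1 := mul_eq_one_comm.mp hBA
  have k : ∀ i j, (A * B) i j = (1 : Matrix (Fin 3) (Fin 3) ℂ) i j := fun i j => by rw [hAB]
  simp only [Matrix.mul_apply, Fin.sum_univ_three, hB] at k
  have k00 := k 0 0
  have k01 := k 0 1
  have k02 := k 0 2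
  have k10 := k 1 0
  have k11 := k 1 1
  have k12 := k 1 2
  have k20 := k 2 0
  have k21 := k 2 1
  have k22 := k 2 2
  simp at k00 k01 k02 k10 k11 k12 k20 k21 k22
  fin_cases i <;> fin_cases j
  · simp
    linear_combination 2 * k01
  · simp
    linear_combination 2 * k00
  · simp
    linear_combination k02
  · simp
    linear_combination 2 * k11
  · simp
    linear_combination 2 * k10
  · simp
    linear_combination k12
  · simp
    linear_combination 2 * k21
  · simp
    linear_combination 2 * k20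
  · simp
    linear_combination k22

/-! ### the substitution -/

/-- the substitution as an algebra homomorphism -/
noncomputable def ro (A : Matrix (Fin 3) (Fin 3) ℂ) : P3 →ₐ[ℂ] P3 :=
  aeval (fun a => ∑ b, C (A a b) * (X b : P3))

theorem ro_eq (A : Matrix (Fin 3) (Fin 3) ℂ) (F : P3) : rot A F = ro A F := rfl

theorem ro_X (A : Matrix (Fin 3) (Fin 3) ℂ) (a : Fin 3) :
    ro A (X a) = ∑ b, C (A a b) * (X b : P3) := by
  rw [ro, aeval_X]

theorem ro_ro (A B : Matrix (Fin 3) (Fin 3) ℂ) (F : P3) : ro A (ro B F) = ro (B * A) F := by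
  have h : (ro A).comp (ro B) = ro (B * A) := by
    apply MvPolynomial.algHom_ext
    intro a
    rw [AlgHom.comp_apply, ro_X, ro_X, map_sum]
    have e : ∀ b, ro A (C (B a b) * X b) = ∑ c, C (B a b * A b c) * X c := by
      intro b
      rw [map_mul, ro_X, Finset.mul_sum]
      refine Finset.sum_congr rfl fun c _ => ?_
      have e1 : ro A (C (B a b)) = C (B a b) := by
        rw [← algebraMap_eq, AlgHom.commutes]
      rw [e1, C_mul]
      ring
    rw [Finset.sum_congr rfl fun b _ => e b, Finset.sum_comm]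
    refine Finset.sum_congr rfl fun c _ => ?_
    rw [← Finset.sum_mul, ← map_sum, Matrix.mul_apply]
  exact DFunLike.congr_fun h F

theorem ro_one (F : P3) : ro 1 F = F := by
  have h : ro 1 = AlgHom.id ℂ P3 := by
    apply MvPolynomial.algHom_ext
    intro a
    rw [ro_X]
    simp [Matrix.one_apply]
  rw [h]
  rfl

/-- evaluation -/
theorem aeval_ro {R : Type} [CommRing R] [Algebra ℂ R] (A : Matrix (Fin 3) (Fin 3) ℂ)
    (x : Fin 3 → R) (F : P3) :
    aeval x (ro A F) = aeval (fun a => ∑ b, algebraMap ℂ R (A a b) * x b) F := by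
  have h : (aeval x).comp (ro A) = aeval (fun a => ∑ b, algebraMap ℂ R (A a b) * x b) := by
    apply MvPolynomial.algHom_ext
    intro a
    rw [AlgHom.comp_apply, ro_X, aeval_X, map_sum]
    refine Finset.sum_congr rfl fun b _ => ?_
    rw [map_mul, aeval_C, aeval_X]
  exact DFunLike.congr_fun h F

theorem eval_ro (A : Matrix (Fin 3) (Fin 3) ℂ) (v : Fin 3 → ℂ) (F : P3) :
    eval v (ro A F) = eval (A.mulVec v) F := by
  have h := aeval_ro A v F
  have e1 : ∀ (w : Fin 3 → ℂ) (G : P3), aeval w G = eval w G := fun w G =>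
    DFunLike.congr_fun (MvPolynomial.coe_aeval_eq_eval w) G
  rw [e1, e1] at h
  rw [h]
  rfl

/-! ### degrees -/

theorem ro_hom (A : Matrix (Fin 3) (Fin 3) ℂ) {F : P3} {n : ℕ} (h : F.IsHomogeneous n) :
    (ro A F).IsHomogeneous n := by
  have h1 : ∀ a, (∑ b, C (A a b) * (X b : P3)).IsHomogeneous 1 := by
    intro a
    apply IsHomogeneous.sum
    intro b _
    have := (isHomogeneous_C (Fin 3) (A a b)).mul (isHomogeneous_X ℂ b)
    rwa [zero_add] at this
  have h2 := h.aeval (fun a => ∑ b, C (A a b) * (X b : P3)) h1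
  rwa [one_mul] at h2

theorem ro_sum (A : Matrix (Fin 3) (Fin 3) ℂ) (F : P3) :
    ro A F = ∑ n ∈ Finset.range (F.totalDegree + 1), ro A (homogeneousComponent n F) := by
  conv_lhs => rw [← sum_homogeneousComponent F]
  rw [map_sum]

theorem ro_comp (A : Matrix (Fin 3) (Fin 3) ℂ) (F : P3) (k : ℕ) :
    homogeneousComponent k (ro A F) = ro A (homogeneousComponent k F) := by
  rw [ro_sum A F, map_sum]
  have e : ∀ n, homogeneousComponent k (ro A (homogeneousComponent n F)) =
      if n = k then ro A (homogeneousComponent n F) else 0 := by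
    intro n
    have h := homogeneousComponent_of_mem (m := k) (n := n)
      ((mem_homogeneousSubmodule n _).mpr (ro_hom A (homogeneousComponent_isHomogeneous n F)))
    rw [h]
    by_cases hk : n = k
    · simp [hk]
    · simp [hk, Ne.symm hk]
  rw [Finset.sum_congr rfl fun n _ => e n, Finset.sum_ite_eq']
  by_cases hk : k ∈ Finset.range (F.totalDegree + 1)
  · rw [if_pos hk]
  · rw [if_neg hk, homogeneousComponent_eq_zero, map_zero]
    rw [Finset.mem_range] at hk
    omega

theorem ro_deg_le (A : Matrix (Fin 3) (Fin 3) ℂ) (F : P3) :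
    (ro A F).totalDegree ≤ F.totalDegree := by
  rw [ro_sum A F]
  apply totalDegree_finsetSum_le
  intro n hn
  rw [Finset.mem_range] at hn
  have h := (ro_hom A (homogeneousComponent_isHomogeneous n F)).totalDegree_le
  omega

/-! ### chain rule -/

theorem pderiv_ro (A : Matrix (Fin 3) (Fin 3) ℂ) (b : Fin 3) (F : P3) :
    pderiv b (ro A F) = ∑ a, C (A a b) * ro A (pderiv a F) := by
  induction F using MvPolynomial.induction_on with
  | C c =>
    have e1 : ro A (C c) = C c := by
      rw [← algebraMap_eq, AlgHom.commutes]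
    rw [e1, pderiv_C]
    simp
  | add p q hp hq =>
    rw [map_add, map_add, hp, hq, ← Finset.sum_add_distrib]
    refine Finset.sum_congr rfl fun a _ => ?_
    rw [map_add, map_add]
    ring
  | mul_X p i hp =>
    rw [map_mul, pderiv_mul, hp]
    have e1 : pderiv b (ro A (X i)) = C (A i b) := by
      rw [ro_X, map_sum]
      have : ∀ k, pderiv b (C (A i k) * (X k : P3)) = if k = b then C (A i k) else 0 := by
        intro k
        rw [pderiv_mul, pderiv_C, pderiv_X, Pi.single_apply]
        split_ifs <;> simp_all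
      rw [Finset.sum_congr rfl fun k _ => this k]
      simp
    rw [e1, Finset.sum_mul]
    have e2 : ∀ a, C (A a b) * ro A (pderiv a (p * X i)) =
        C (A a b) * ro A (pderiv a p) * ro A (X i) +
          (if a = i then C (A a b) * ro A p else 0) := by
      intro a
      rw [pderiv_mul, pderiv_X, map_add, map_mul, map_mul, Pi.single_apply]
      split_ifs with h1 h2 h3
      · simp only [map_one]
        ring
      · exact absurd h1.symm h2
      · exact absurd h3.symm h1
      · simp only [map_zero]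
        ring
    rw [Finset.sum_congr rfl fun a _ => e2 a, Finset.sum_add_distrib]
    simp [mul_comm]

theorem QN_ro {A : Matrix (Fin 3) (Fin 3) ℂ} (h : IsoN A) (F : P3) :
    QN (ro A F) = ro A (QN F) := by
  have d := fun i j => congrArg (C : ℂ → P3) (dual h i j)
  have d00 := d 0 0
  have d01 := d 0 1
  have d02 := d 0 2
  have d11 := d 1 1
  have d12 := d 1 2
  have d22 := d 2 2
  simp at d00 d01 d02 d11 d12 d22
  have c2 : (C 2 : P3) = 2 := map_ofNat C 2
  rw [c2] at d00 d01 d02 d11 d12 d22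
  simp only [QN, pderiv_ro, Fin.sum_univ_three, map_add, map_mul, map_pow, map_ofNat]
  set r0 := ro A (pderiv 0 F)
  set r1 := ro A (pderiv 1 F)
  set r2 := ro A (pderiv 2 F)
  linear_combination (r0 * r0) * d00 + (2 * r0 * r1) * d01 + (2 * r0 * r2) * d02 +
    (r1 * r1) * d11 + (2 * r1 * r2) * d12 + (r2 * r2) * d22

/-! ### points -/

section

variable {H : Type} [Field H] [Algebra ℂ H]

/-- the rotated point -/
noncomputable def pt (A : Matrix (Fin 3) (Fin 3) ℂ) (x : Fin 3 → H) : Fin 3 → H :=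
  fun a => ∑ b, algebraMap ℂ H (A a b) * x b

theorem D_pt (A : Matrix (Fin 3) (Fin 3) ℂ) (x : Fin 3 → H) (D : Derivation ℂ H H) (a : Fin 3) :
    D (pt A x a) = ∑ b, algebraMap ℂ H (A a b) * D (x b) := by
  rw [pt, map_sum]
  refine Finset.sum_congr rfl fun b _ => ?_
  rw [Derivation.leibniz, Derivation.map_algebraMap, smul_zero, add_zero, smul_eq_mul]

theorem nd_pt {A : Matrix (Fin 3) (Fin 3) ℂ} (h : IsoN A) (x : Fin 3 → H)
    (D D' : Derivation ℂ H H) : nd D D' (pt A x) = nd D D' x := by
  have hE := isoE_of h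
  have e := fun i j => congrArg (algebraMap ℂ H) (hE.e i j)
  have h00 := e 0 0
  have h01 := e 0 1
  have h02 := e 0 2
  have h10 := e 1 0
  have h11 := e 1 1
  have h12 := e 1 2
  have h20 := e 2 0
  have h21 := e 2 1
  have h22 := e 2 2
  simp only [map_add, map_mul] at h00 h01 h02 h10 h11 h12 h20 h21 h22
  simp only [Fin.isValue, Fin.reduceEq, and_self, and_true, and_false, or_self, or_true,
    or_false, if_true, if_false, zero_ne_one, one_ne_zero,
    map_zero, map_one] at h00 h01 h02 h10 h11 h12 h20 h21 h22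
  simp only [nd, D_pt, Fin.sum_univ_three]
  linear_combination (D (x 0) * D' (x 0)) * h00 + (D (x 0) * D' (x 1)) * h01 +
    (D (x 0) * D' (x 2)) * h02 + (D (x 1) * D' (x 0)) * h10 + (D (x 1) * D' (x 1)) * h11 +
    (D (x 1) * D' (x 2)) * h12 + (D (x 2) * D' (x 0)) * h20 + (D (x 2) * D' (x 1)) * h21 +
    (D (x 2) * D' (x 2)) * h22

theorem detN_pt {A : Matrix (Fin 3) (Fin 3) ℂ} (h : IsoN A) (x : Fin 3 → H)
    (D1 D2 : Derivation ℂ H H) : detN D1 D2 (pt A x) = detN D1 D2 x := by
  simp only [detN, nd_pt h]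

theorem lapL_pt {A : Matrix (Fin 3) (Fin 3) ℂ} (h : IsoN A) (x : Fin 3 → H)
    (D1 D2 : Derivation ℂ H H) (di : H) : lapL D1 D2 (pt A x) di = lapL D1 D2 x di := by
  ext f
  show lapF D1 D2 (pt A x) di f = lapF D1 D2 x di f
  simp only [lapF, nd_pt h, detN_pt h]

theorem pt_pt (A B : Matrix (Fin 3) (Fin 3) ℂ) (x : Fin 3 → H) :
    pt A (pt B x) = pt (A * B) x := by
  funext a
  simp only [pt, Matrix.mul_apply, map_sum, map_mul, Finset.mul_sum, Finset.sum_mul]
  rw [Finset.sum_comm]
  refine Finset.sum_congr rfl fun b _ => Finset.sum_congr rfl fun c _ => ?_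
  ring

theorem pt_one (x : Fin 3 → H) : pt 1 x = x := by
  funext a
  simp [pt, Matrix.one_apply]

theorem FT_pt (p : Polynomial ℂ) (A : Matrix (Fin 3) (Fin 3) ℂ) (h : IsoN A) (x : Fin 3 → H)
    (D1 D2 : Derivation ℂ H H) (di : H) (hf : FT p D1 D2 x di) : FT p D1 D2 (pt A x) di := by
  intro a
  rw [lapL_pt h]
  have e : pt A x a = ∑ b, A a b • x b := by
    rw [pt]
    refine Finset.sum_congr rfl fun b _ => ?_
    rw [Algebra.smul_def]
  rw [e, map_sum]
  refine Finset.sum_eq_zero fun b _ => ?_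
  rw [LinearMap.map_smul, hf b, smul_zero]

end

theorem dvd_of_ro_dvd {A B : Matrix (Fin 3) (Fin 3) ℂ} (hAB : A * B = 1) {F G : P3}
    (h : ro A F ∣ ro A G) : F ∣ G := by
  have h1 := map_dvd (ro B) h
  rw [ro_ro, ro_ro, hAB, ro_one, ro_one] at h1
  exact h1

theorem good_ro {p : Polynomial ℂ} {F : P3} {A : Matrix (Fin 3) (Fin 3) ℂ} (hF : Good p F)
    (hA : IsoN A) : Good p (ro A F) := by
  obtain ⟨B, hBA, hAB, hB⟩ := inv_exists hA
  let e : P3 ≃ₐ[ℂ] P3 := AlgEquiv.ofAlgHom (ro A) (ro B)
    (by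
      ext1 i
      rw [AlgHom.comp_apply, ro_ro, hBA, ro_one]
      rfl)
    (by
      ext1 i
      rw [AlgHom.comp_apply, ro_ro, hAB, ro_one]
      rfl)
  refine ⟨?_, ?_, hF.p0, ?_⟩
  · have h1 : Irreducible (e F) := (MulEquiv.irreducible_iff e).mpr hF.irr
    exact h1
  · intro h
    rw [QN_ro hA] at h
    exact hF.nondeg (dvd_of_ro_dvd hAB h)
  · intro H _ _ D1 D2 x hc h0 hg hd
    have h1 := hF.ft H D1 D2 (pt A x) hc
      (by
        rw [aeval_ro] at h0
        exact h0)
      (by
        intro W hW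
        have h2 : aeval x (ro A W) = 0 := by
          rw [aeval_ro]
          exact hW
        exact dvd_of_ro_dvd hAB (hg _ h2))
      (by
        rw [detN_pt hA]
        exact hd)
    rw [detN_pt hA] at h1
    have h3 := FT_pt p B hB (pt A x) D1 D2 _ h1
    rw [pt_pt, hBA, pt_one] at h3
    exact h3

end ItemA4

open ItemA4 in
/-- A4. -/
theorem a4 : SA4 := by
  intro p F A hF hA
  obtain ⟨B, hBA, hAB, hB⟩ := inv_exists hA
  have hd : (rot A F).totalDegree = F.totalDegree := by
    apply le_antisymm (ro_deg_le A F)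
    have h1 := ro_deg_le B (ro A F)
    rw [ro_ro, hAB, ro_one] at h1
    exact h1
  refine ⟨good_ro hF hA, hd, ?_, fun v => eval_ro A v _⟩
  rw [top, hd, ro_eq, ro_comp]
  rfl

end Pool.Agent.Work.MP_157c12_gt
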