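import Pool.Agent.Work.MP_157c12_gt.Stmts

/-!
# Item A5: frames
-/

set_option autoImplicit false

open MvPolynomial

namespace Pool.Agent.Work.MP_157c12_gt

namespace ItemA5

lemma bn_comm (v w : Fin 3 → ℂ) : bn v w = bn w v := by
  unfold bn
  ring

lemma bn_add_left (u v w : Fin 3 → ℂ) : bn (u + v) w = bn u w + bn v w := by
  unfold bn
  simp only [Pi.add_apply]
  ring

lemma bn_smul_left (c : ℂ) (v w : Fin 3 → ℂ) : bn (c • v) w = c * bn v w := by
  unfold bn
  simp only [Pi.smul_apply, smul_eq_mul]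
  ring

/-- the reflection as a matrix; `w0` is the dual vector of `w` -/
noncomputable def refl (w : Fin 3 → ℂ) : Matrix (Fin 3) (Fin 3) ℂ :=
  Matrix.of fun i j => (if i = j then 1 else 0) -
    2 / bn w w * w i * ((![1 / 2 * w 1, 1 / 2 * w 0, w 2] : Fin 3 → ℂ) j)

lemma refl_mulVec (w v : Fin 3 → ℂ) :
    (refl w).mulVec v = v - (2 * bn v w / bn w w) • w := by
  funext i
  unfold refl Matrix.mulVec dotProduct
  simp only [Matrix.of_apply, Pi.sub_apply, Pi.smul_apply, smul_eq_mul, Fin.sum_univ_three]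
  have h : bn v w = v 0 * (1 / 2 * w 1) + v 1 * (1 / 2 * w 0) + v 2 * w 2 := by
    unfold bn
    ring
  rw [h]
  fin_cases i <;> simp <;> ring

lemma refl_iso {w : Fin 3 → ℂ} (hw : bn w w ≠ 0) : IsoN (refl w) := by
  intro u v
  rw [refl_mulVec, refl_mulVec]
  have key : ∀ a b : ℂ, bn (u - a • w) (v - b • w) =
      bn u v - b * bn u w - a * bn v w + a * b * bn w w := by
    intro a b
    unfold bn
    simp only [Pi.sub_apply, Pi.smul_apply, smul_eq_mul]
    ring
  rw [key]
  field_simp
  ring

lemma refl_send {e P : Fin 3 → ℂ} (h : bn e e = bn P P) (hw : bn (e - P) (e - P) ≠ 0) :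
    (refl (e - P)).mulVec e = P := by
  rw [refl_mulVec]
  have h1 : bn (e - P) (e - P) = 2 * bn e (e - P) := by
    have h2 : bn (e - P) (e - P) = bn e e - 2 * bn e P + bn P P := by
      unfold bn
      simp only [Pi.sub_apply]
      ring
    have h3 : bn e (e - P) = bn e e - bn e P := by
      unfold bn
      simp only [Pi.sub_apply]
      ring
    rw [h2, h3, ← h]
    ring
  rw [← h1, div_self hw, one_smul]
  abel

end ItemA5

open ItemA5

/-- frames -/
theorem a5 : SA5 := by
  constructor
  · intro P hP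
    obtain ⟨t, ht⟩ := IsAlgClosed.exists_pow_nat_eq (bn P P)⁻¹ (n := 2) two_pos
    have ht0 : t ≠ 0 := by
      rintro rfl
      rw [zero_pow two_ne_zero] at ht
      exact inv_ne_zero hP ht.symm
    have h1 : bn (t • P) (t • P) = 1 := by
      rw [bn_smul_left, bn_comm, bn_smul_left, ← mul_assoc, ← pow_two, ht, inv_mul_cancel₀ hP]
    have he : bn ![0, 0, 1] ![0, 0, 1] = 1 := by
      simp [bn]
    by_cases h2 : bn ![0, 0, 1] (t • P) = 1
    · refine ⟨refl (![0, 0, 1] - (-t) • P), -t, refl_iso ?_, neg_ne_zero.mpr ht0,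
        refl_send ?_ ?_⟩
      · have h3 : bn (![0, 0, 1] - (-t) • P) (![0, 0, 1] - (-t) • P) =
            bn ![0, 0, 1] ![0, 0, 1] + 2 * bn ![0, 0, 1] (t • P) + bn (t • P) (t • P) := by
          unfold bn
          simp
          ring
        rw [h3, he, h2, h1]
        norm_num
      · rw [he, bn_smul_left, bn_comm, bn_smul_left]
        rw [bn_smul_left, bn_comm, bn_smul_left] at h1
        linear_combination h1.symm
      · have h3 : bn (![0, 0, 1] - (-t) • P) (![0, 0, 1] - (-t) • P) =
            bn ![0, 0, 1] ![0, 0, 1] + 2 * bn ![0, 0, 1] (t • P) + bn (t • P) (t • P) := by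
          unfold bn
          simp
          ring
        rw [h3, he, h2, h1]
        norm_num
    · have h3 : bn (![0, 0, 1] - t • P) (![0, 0, 1] - t • P) ≠ 0 := by
        have h4 : bn (![0, 0, 1] - t • P) (![0, 0, 1] - t • P) =
            bn ![0, 0, 1] ![0, 0, 1] - 2 * bn ![0, 0, 1] (t • P) + bn (t • P) (t • P) := by
          unfold bn
          simp
          ring
        rw [h4, he, h1]
        intro h5
        exact h2 (by linear_combination (-1 / 2 : ℂ) * h5)
      exact ⟨refl (![0, 0, 1] - t • P), t, refl_iso h3, ht0, refl_send (he.trans h1.symm) h3⟩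
  · have h : ∀ v : Fin 3 → ℂ,
        (!![0, 1, 0; 1, 0, 0; 0, 0, 1] : Matrix (Fin 3) (Fin 3) ℂ).mulVec v = ![v 1, v 0, v 2] := by
      intro v
      funext i
      fin_cases i <;> simp [Matrix.mulVec, dotProduct, Fin.sum_univ_three]
    refine ⟨!![0, 1, 0; 1, 0, 0; 0, 0, 1], ?_, h⟩
    intro v w
    rw [h, h]
    unfold bn
    simp
    ring

end Pool.Agent.Work.MP_157c12_gt
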