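import Pool.Agent.Work.MP_157c12_gt.Stmts

/-!
# C4: Lemma M, neutral case
-/

set_option autoImplicit false
set_option linter.unusedSectionVars false

namespace Pool.Agent.Work.MP_157c12_gt

namespace ItemC4

variable {H : Type} [Field H] [Algebra ℂ H] {v : AddValuation H (WithTop ℚ)}

/-- value at least `s` -/
def Vge (v : AddValuation H (WithTop ℚ)) (s : ℚ) (r : H) : Prop := ((s : ℚ) : WithTop ℚ) ≤ v r

/-- value greater than `s` -/
def Vgt (v : AddValuation H (WithTop ℚ)) (s : ℚ) (r : H) : Prop := ((s : ℚ) : WithTop ℚ) < v r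

lemma Vge.mono {s r : ℚ} {a : H} (ha : Vge v s a) (h : r ≤ s) : Vge v r a :=
  le_trans (by exact_mod_cast h) ha

lemma Vgt.mono {s r : ℚ} {a : H} (ha : Vgt v s a) (h : r ≤ s) : Vgt v r a :=
  lt_of_le_of_lt (by exact_mod_cast h) ha

lemma Vgt.toGe {s r : ℚ} {a : H} (ha : Vgt v s a) (h : r ≤ s) : Vge v r a :=
  le_trans (by exact_mod_cast h) (le_of_lt ha)

lemma Vge.toGt {s r : ℚ} {a : H} (ha : Vge v s a) (h : r < s) : Vgt v r a :=
  lt_of_lt_of_le (by exact_mod_cast h) ha

lemma Vge.mul {s t r : ℚ} {a b : H} (ha : Vge v s a) (hb : Vge v t b)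
    (h : r ≤ s + t) : Vge v r (a * b) := by
  have h1 : ((s + t : ℚ) : WithTop ℚ) ≤ v (a * b) := by
    rw [v.map_mul, WithTop.coe_add]
    exact add_le_add ha hb
  exact le_trans (by exact_mod_cast h) h1

lemma Vgt.mul {s t r : ℚ} {a b : H} (ha : Vgt v s a) (hb : Vge v t b)
    (h : r ≤ s + t) : Vgt v r (a * b) := by
  have h1 : ((s + t : ℚ) : WithTop ℚ) < v (a * b) := by
    rw [v.map_mul, WithTop.coe_add]
    exact lt_of_lt_of_le (WithTop.add_lt_add_right WithTop.coe_ne_top ha) (add_le_add le_rfl hb)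
  exact lt_of_le_of_lt (by exact_mod_cast h) h1

lemma Vge.mul_gt {s t r : ℚ} {a b : H} (ha : Vge v s a) (hb : Vgt v t b)
    (h : r ≤ s + t) : Vgt v r (a * b) := by
  rw [mul_comm]
  exact hb.mul ha (by rwa [add_comm])

lemma Vge.add {s : ℚ} {a b : H} (ha : Vge v s a) (hb : Vge v s b) : Vge v s (a + b) :=
  v.map_le_add ha hb

lemma Vgt.add {s : ℚ} {a b : H} (ha : Vgt v s a) (hb : Vgt v s b) : Vgt v s (a + b) :=
  v.map_lt_add ha hb

lemma Vge.neg {s : ℚ} {a : H} (ha : Vge v s a) : Vge v s (-a) := by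
  unfold Vge
  rw [v.map_neg]
  exact ha

lemma Vgt.neg {s : ℚ} {a : H} (ha : Vgt v s a) : Vgt v s (-a) := by
  unfold Vgt
  rw [v.map_neg]
  exact ha

lemma Vge.sub {s : ℚ} {a b : H} (ha : Vge v s a) (hb : Vge v s b) : Vge v s (a - b) := by
  rw [sub_eq_add_neg]
  exact ha.add hb.neg

lemma Vgt.sub {s : ℚ} {a b : H} (ha : Vgt v s a) (hb : Vgt v s b) : Vgt v s (a - b) := by
  rw [sub_eq_add_neg]
  exact ha.add hb.neg

section VD

variable {D1 D2 : Derivation ℂ H H} (hv : VD v D1 D2)
include hv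

lemma Vge.d1 {s : ℚ} {a : H} (ha : Vge v s a) : Vge v s (D1 a) := le_trans ha (hv.d1 a)

lemma Vge.d2 {s : ℚ} {a : H} (ha : Vge v s a) : Vge v s (D2 a) := le_trans ha (hv.d2 a)

lemma Vgt.d1 {s : ℚ} {a : H} (ha : Vgt v s a) : Vgt v s (D1 a) := lt_of_lt_of_le ha (hv.d1 a)

lemma Vgt.d2 {s : ℚ} {a : H} (ha : Vgt v s a) : Vgt v s (D2 a) := lt_of_lt_of_le ha (hv.d2 a)

lemma ge_c (c : ℂ) : Vge v 0 (algebraMap ℂ H c) := by
  by_cases hc : c = 0
  · subst hc
    unfold Vge
    rw [map_zero, v.map_zero]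
    exact le_top
  · unfold Vge
    rw [hv.c c hc]
    exact le_rfl

lemma ge_two : Vge v 0 (2 : H) := by
  have h := ge_c hv (2 : ℂ)
  rwa [map_ofNat] at h

end VD

/-! ### the Laplace operator -/

/-- the Laplace operator for given coefficients -/
noncomputable def la (D1 D2 : Derivation ℂ H H) (E F G dt di f : H) : H :=
  di * (D1 (G * D1 f - F * D2 f) + D2 (E * D2 f - F * D1 f))
    - algebraMap ℂ H (1 / 2) * di ^ 2 *
      (D1 dt * (G * D1 f - F * D2 f) + D2 dt * (E * D2 f - F * D1 f))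

/-- the coefficient of `D2 w` -/
noncomputable def al (D1 D2 : Derivation ℂ H H) (E F dt di : H) : H :=
  di * (-D1 F + D2 E) - algebraMap ℂ H (1 / 2) * di ^ 2 * (-(D1 dt) * F + D2 dt * E)

/-- the inner product with a function constant along `D1` -/
noncomputable def be (D1 D2 : Derivation ℂ H H) (E F di f : H) : H :=
  di * (-F * D1 f + E * D2 f)

lemma la_eq (D1 D2 : Derivation ℂ H H) (x : Fin 3 → H) (di f : H) :
    lapF D1 D2 x di f =
      la D1 D2 (nd D1 D1 x) (nd D1 D2 x) (nd D2 D2 x) (detN D1 D2 x) di f := rfl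

lemma la_add (D1 D2 : Derivation ℂ H H) (E F G dt di f g : H) :
    la D1 D2 E F G dt di (f + g) = la D1 D2 E F G dt di f + la D1 D2 E F G dt di g := by
  simp only [la, map_add, map_sub, Derivation.leibniz, smul_eq_mul]
  ring

lemma la_mul (D1 D2 : Derivation ℂ H H) (E F G dt di f w : H) (h1 : D1 w = 0)
    (h2 : D1 (D2 w) = 0) :
    la D1 D2 E F G dt di (f * w) = la D1 D2 E F G dt di f * w
      + 2 * be D1 D2 E F di f * D2 w
      + f * (al D1 D2 E F dt di * D2 w + di * E * D2 (D2 w)) := by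
  simp only [la, al, be, map_add, map_sub, Derivation.leibniz, smul_eq_mul, h1, h2, mul_zero,
    zero_add, add_zero]
  ring

lemma bH_comb {D1 D2 : Derivation ℂ H H} {om e mu : Fin 3 → H} {a : H}
    (hn : NF D1 D2 om e mu a) (p q r p' q' r' : H) :
    bH (fun i => p * om i + q * e i + r * mu i) (fun i => p' * om i + q' * e i + r' * mu i) =
      algebraMap ℂ H (1 / 2) * (p * r' + r * p') + q * q' := by
  have h1 := hn.omom
  have h2 := hn.ome
  have h3 := hn.ommu
  have h4 := hn.ee
  have h5 := hn.emu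
  have h6 := hn.mumu
  simp only [bH] at h1 h2 h3 h4 h5 h6 ⊢
  linear_combination p * p' * h1 + (p * q' + q * p') * h2 + (p * r' + r * p') * h3 +
    q * q' * h4 + (q * r' + r * q') * h5 + r * r' * h6

/-- the Laplace operator on a vector given in the frame -/
lemma la_vec {D1 D2 : Derivation ℂ H H} {om e mu : Fin 3 → H} {a : H}
    (hn : NF D1 D2 om e mu a) (E F G dt di f g k : H) (i : Fin 3) :
    la D1 D2 E F G dt di (f * om i + g * e i + k * mu i) =
      la D1 D2 E F G dt di f * om i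
      + (la D1 D2 E F G dt di g + 2 * be D1 D2 E F di f * a
          + f * (al D1 D2 E F dt di * a + di * E * D2 a)) * e i
      + (la D1 D2 E F G dt di k + 2 * be D1 D2 E F di g * (-2 * a)
          + f * (di * E * (-2 * a ^ 2)) + g * (al D1 D2 E F dt di * (-2 * a)
          + di * E * (-2 * D2 a))) * mu i := by
  have h11 : D1 (D2 (om i)) = 0 := by
    rw [hn.om2, Derivation.leibniz, hn.e1, hn.a1]
    simp
  have h12 : D1 (D2 (e i)) = 0 := by
    rw [hn.e2, mul_assoc, Derivation.leibniz, Derivation.leibniz, hn.mu1, hn.a1]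
    have : D1 (-2 : H) = 0 := by
      have h := D1.map_algebraMap (-2 : ℂ)
      rwa [map_neg, map_ofNat] at h
    rw [this]
    simp
  have h13 : D1 (D2 (mu i)) = 0 := by
    rw [hn.mu2]
    simp
  have h21 : D2 (D2 (om i)) = D2 a * e i - 2 * a ^ 2 * mu i := by
    rw [hn.om2, Derivation.leibniz, hn.e2]
    simp only [smul_eq_mul]
    ring
  have h22 : D2 (D2 (e i)) = -2 * D2 a * mu i := by
    rw [hn.e2, mul_assoc, Derivation.leibniz, Derivation.leibniz, hn.mu2]
    have : D2 (-2 : H) = 0 := by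
      have h := D2.map_algebraMap (-2 : ℂ)
      rwa [map_neg, map_ofNat] at h
    rw [this]
    simp only [smul_eq_mul]
    ring
  have h23 : D2 (D2 (mu i)) = 0 := by
    rw [hn.mu2]
    simp
  rw [la_add, la_add, la_mul _ _ _ _ _ _ _ _ _ (hn.om1 i) h11,
    la_mul _ _ _ _ _ _ _ _ _ (hn.e1 i) h12, la_mul _ _ _ _ _ _ _ _ _ (hn.mu1 i) h13, h21, h22,
    h23, hn.om2, hn.e2, hn.mu2]
  ring

end ItemC4

open ItemC4

theorem c4 : SC4 := by
  intro p hp H _ _ v D1 D2 hv hcomm hres om e mu a u Yv h hn hva hu1 hu2 hvu hY1 hvY hvh x hx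
    hvd hFT
  have hres0 : ∀ r, Vge v 0 r → Vgt v 0 (D1 r) := by
    intro r hr
    have h1 := hres 0 r (by simpa [Vge] using hr)
    simpa [Vgt] using h1
  have hge_a : Vge v 0 a := by
    unfold Vge
    rw [hva]
    exact le_rfl
  have hge_u : Vge v (-1) u := by
    unfold Vge
    rw [hvu]
  have hge_Y : Vge v 0 Yv := hvY
  have hge_h : Vge v 0 h := hvh
  have hge_a' : Vge v 0 (D2 a) := hge_a.d2 hv
  -- the first derivatives of `x`
  have hx1 : (fun i => D1 (x i)) = fun i => u * om i + 0 * e i + D1 h * mu i := by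
    funext i
    rw [hx, map_add, map_add, Derivation.leibniz, Derivation.leibniz, Derivation.leibniz,
      hn.om1, hn.e1, hn.mu1, hu1, hY1]
    simp only [smul_eq_mul]
    ring
  have hx2 : (fun i => D2 (x i)) = fun i => 0 * om i + (u * a + D2 Yv) * e i +
      (D2 h - 2 * a * Yv) * mu i := by
    funext i
    rw [hx, map_add, map_add, Derivation.leibniz, Derivation.leibniz, Derivation.leibniz,
      hn.om2, hn.e2, hn.mu2, hu2]
    simp only [smul_eq_mul]
    ring
  have hnd : ∀ D D' : Derivation ℂ H H, nd D D' x = bH (fun i => D (x i)) (fun i => D' (x i)) :=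
    fun _ _ => rfl
  set E := nd D1 D1 x with hE
  set F := nd D1 D2 x with hF
  set G := nd D2 D2 x with hG
  set dt := detN D1 D2 x with hdt
  set di := dt⁻¹ with hdi
  have hE' : E = u * D1 h := by
    rw [hE, hnd, hx1, bH_comb hn]
    have : algebraMap ℂ H (1 / 2) * 2 = 1 := by
      rw [← map_ofNat (algebraMap ℂ H) 2, ← map_mul]
      norm_num
    linear_combination (u * D1 h) * this
  have hF' : F = algebraMap ℂ H (1 / 2) * (u * (D2 h - 2 * a * Yv)) := by
    rw [hF, hnd, hx1, hx2, bH_comb hn]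
    ring
  have hG' : G = (u * a + D2 Yv) * (u * a + D2 Yv) := by
    rw [hG, hnd, hx2, bH_comb hn]
    ring
  have hvE : Vgt v (-1) E := by
    rw [hE']
    exact hge_u.mul_gt (hres0 h hge_h) (h := by norm_num)
  have hvF : Vge v (-1) F := by
    rw [hF']
    have h1 : Vge v 0 (D2 h - 2 * a * Yv) :=
      (hge_h.d2 hv).sub (((ge_two hv).mul hge_a (r := 0) (h := by norm_num)).mul hge_Y (h := by norm_num))
    exact (ge_c hv _).mul (hge_u.mul h1 (r := -1) (h := by norm_num)) (h := by norm_num)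
  have hvA : Vge v (-1) (u * a + D2 Yv) :=
    (hge_u.mul hge_a (h := by norm_num)).add ((hge_Y.d2 hv).mono (h := by norm_num))
  have hvG : Vge v (-2) G := by
    rw [hG']
    exact hvA.mul hvA (h := by norm_num)
  have hvdt : Vge v (-2) dt := by
    unfold Vge
    rw [hvd]
  have hdt0 : dt ≠ 0 := by
    intro h0
    rw [h0, v.map_zero] at hvd
    exact WithTop.top_ne_coe hvd
  have hvdi : Vge v 2 di := by
    have h1 : v dt + v di = 0 := by
      rw [← v.map_mul, hdi, mul_inv_cancel₀ hdt0, v.map_one]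
    rw [hvd] at h1
    unfold Vge
    cases hq : v di with
    | top => exact le_top
    | coe q =>
      rw [hq] at h1
      have h2 : (-2 + q : ℚ) = 0 := by exact_mod_cast h1
      have h3 : (2 : ℚ) ≤ q := by linarith
      exact_mod_cast h3
  have hc2 := ge_c hv (1 / 2 : ℂ)
  have hdi2 : Vge v 4 (di ^ 2) := by
    rw [sq]
    exact hvdi.mul hvdi (h := by norm_num)
  have hcd : Vge v 4 (algebraMap ℂ H (1 / 2) * di ^ 2) := hc2.mul hdi2 (h := by norm_num)
  -- alpha
  have hal : Vgt v 1 (al D1 D2 E F dt di) := by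
    have h1 : Vgt v (-1) (D1 F - F) := by
      have := hres 1 F (by simpa [Vge] using hvF)
      simpa [Vgt] using this
    have h2 : Vgt v (-2) (D1 dt - 2 * dt) := by
      have := hres 2 dt (by simpa [Vge] using hvdt)
      rw [Rat.cast_ofNat, map_ofNat] at this
      simpa [Vgt] using this
    have h3 : al D1 D2 E F dt di = -(di * (D1 F - F)) + di * D2 E
        + algebraMap ℂ H (1 / 2) * di ^ 2 * ((D1 dt - 2 * dt) * F)
        - algebraMap ℂ H (1 / 2) * di ^ 2 * (D2 dt * E) := by
      have h4 : algebraMap ℂ H (1 / 2) * 2 = 1 := by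
        rw [← map_ofNat (algebraMap ℂ H) 2, ← map_mul]
        norm_num
      have h5 : di * dt = 1 := by
        rw [hdi, inv_mul_cancel₀ hdt0]
      unfold al
      linear_combination (di ^ 2 * dt * F) * h4 + (di * F) * h5
    rw [h3]
    refine ((Vgt.neg ?_).add ?_).add ?_ |>.sub ?_
    · exact hvdi.mul_gt h1 (h := by norm_num)
    · exact hvdi.mul_gt (hvE.d2 hv) (h := by norm_num)
    · exact hcd.mul_gt (h2.mul hvF (r := -3) (h := by norm_num)) (h := by norm_num)
    · exact hcd.mul_gt ((hvdt.d2 hv).mul_gt hvE (r := -3) (h := by norm_num))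
        (h := by norm_num)
  -- beta
  have hbe : ∀ (s r : ℚ) (f : H), Vge v s f → r ≤ 1 + s →
      Vge v r (be D1 D2 E F di f) := by
    intro s r f hf hr
    unfold be
    refine hvdi.mul (t := -1 + s) (Vge.add ?_ ?_) (by linarith)
    · exact hvF.neg.mul (hf.d1 hv) le_rfl
    · exact (hvE.toGe le_rfl).mul (hf.d2 hv) (le_refl (-1 + s))
  -- the Laplace operator
  have hla : ∀ (s : ℚ) (f : H), Vge v s f → Vge v s (la D1 D2 E F G dt di f) := by
    intro s f hf
    have h1 : Vge v (-2 + s) (G * D1 f - F * D2 f) :=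
      (hvG.mul (hf.d1 hv) le_rfl).sub (hvF.mul (hf.d2 hv) (by linarith))
    have h2 : Vge v (-2 + s) (E * D2 f - F * D1 f) :=
      ((hvE.toGe (h := by norm_num)).mul (s := -2) (hf.d2 hv) le_rfl).sub (hvF.mul (hf.d1 hv) (by linarith))
    unfold la
    refine (hvdi.mul ((h1.d1 hv).add (h2.d2 hv)) (by linarith)).sub ?_
    refine hcd.mul (t := -4 + s) (Vge.add ?_ ?_) (by linarith)
    · exact (hvdt.d1 hv).mul h1 (by linarith)
    · exact (hvdt.d2 hv).mul h2 (by linarith)
  have hla' : ∀ f : H, Vge v 0 f → Vgt v 0 (la D1 D2 E F G dt di f) := by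
    intro f hf
    have hd := hres0 f hf
    have h1 : Vgt v (-2) (G * D1 f - F * D2 f) :=
      (hvG.mul_gt hd (h := by norm_num)).sub
        ((hvF.mul (hf.d2 hv) (r := -1) (h := by norm_num)).toGt (h := by norm_num))
    have h2 : Vgt v (-2) (E * D2 f - F * D1 f) :=
      (hvE.mul (hf.d2 hv) (r := -2) (h := by norm_num)).sub (hvF.mul_gt hd (h := by norm_num))
    unfold la
    refine (hvdi.mul_gt ((h1.d1 hv).add (h2.d2 hv)) (h := by norm_num)).sub ?_
    refine hcd.mul_gt (t := -4) (Vgt.add ?_ ?_) (h := by norm_num)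
    · exact (hvdt.d1 hv).mul_gt h1 (h := by norm_num)
    · exact (hvdt.d2 hv).mul_gt h2 (h := by norm_num)
  -- the iterates
  have hiter : ∀ n : ℕ, ∃ f g k : H, Vge v (-1) f ∧ Vge v 0 g ∧ Vge v 0 k ∧
      (n ≠ 0 → Vgt v 0 k) ∧ (n = 0 → k = h) ∧
      ∀ i, ((lapL D1 D2 x di) ^ n : H →ₗ[ℂ] H) (x i) = f * om i + g * e i + k * mu i := by
    intro n
    induction n with
    | zero =>
      refine ⟨u, Yv, h, hge_u, hge_Y, hge_h, fun h0 => absurd rfl h0, fun _ => rfl, fun i => ?_⟩
      rw [pow_zero]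
      exact hx i
    | succ n ih =>
      obtain ⟨f, g, k, hf, hg, hk, -, -, hL⟩ := ih
      have hEd : Vgt v 1 (di * E) := hvdi.mul_gt hvE (h := by norm_num)
      have hm2 : Vge v 0 (-2 : H) := (ge_two hv).neg
      have hkey : Vgt v 0 (la D1 D2 E F G dt di k + 2 * be D1 D2 E F di g * (-2 * a)
            + f * (di * E * (-2 * a ^ 2)) + g * (al D1 D2 E F dt di * (-2 * a)
            + di * E * (-2 * D2 a))) := by
        have h1 : Vge v 1 (be D1 D2 E F di g) := hbe 0 1 g hg (by norm_num)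
        have h2 : Vge v 0 (-2 * a) := hm2.mul hge_a (h := by norm_num)
        have h3 : Vge v 0 (-2 * a ^ 2) := by
          rw [sq]
          exact hm2.mul (hge_a.mul hge_a (r := 0) (h := by norm_num)) (h := by norm_num)
        have h4 : Vge v 0 (-2 * D2 a) := hm2.mul hge_a' (h := by norm_num)
        refine (((hla' k hk).add ?_).add ?_).add ?_
        · exact (((ge_two hv).mul h1 (r := 1) (h := by norm_num)).mul h2 (r := 1)
            (h := by norm_num)).toGt (h := by norm_num)
        · exact hf.mul_gt (hEd.mul h3 (r := 1) (h := by norm_num)) (h := by norm_num)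
        · exact hg.mul_gt ((hal.mul h2 (r := 0) (h := by norm_num)).add
            (hEd.mul h4 (h := by norm_num))) (h := by norm_num)
      refine ⟨la D1 D2 E F G dt di f, la D1 D2 E F G dt di g + 2 * be D1 D2 E F di f * a
          + f * (al D1 D2 E F dt di * a + di * E * D2 a), _, hla _ f hf, ?_,
          hkey.toGe le_rfl,
          fun _ => hkey, fun h0 => absurd h0 (Nat.succ_ne_zero n), fun i => ?_⟩
      · refine ((hla _ g hg).add ?_).add ?_
        · exact ((ge_two hv).mul (hbe (-1) 0 f hf (by norm_num)) (r := 0)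
            (h := by norm_num)).mul hge_a (h := by norm_num)
        · have h1 : Vgt v 1 (al D1 D2 E F dt di * a + di * E * D2 a) :=
            (hal.mul hge_a (h := by norm_num)).add (hEd.mul hge_a' (h := by norm_num))
          exact (hf.mul_gt h1 (r := 0) (h := by norm_num)).toGe le_rfl
      · rw [pow_succ', Module.End.mul_apply, hL i]
        exact la_vec hn E F G dt di f g k i
  choose f g k hf hg hk hk1 hk0 hL using hiter
  -- the components of `p(Δ) x`
  have hsum : ∀ i, (∑ j ∈ Finset.range (p.natDegree + 1), algebraMap ℂ H (p.coeff j) * f j) * om i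
      + (∑ j ∈ Finset.range (p.natDegree + 1), algebraMap ℂ H (p.coeff j) * g j) * e i
      + (∑ j ∈ Finset.range (p.natDegree + 1), algebraMap ℂ H (p.coeff j) * k j) * mu i = 0 := by
    intro i
    have h1 := hFT i
    rw [Polynomial.aeval_eq_sum_range, LinearMap.sum_apply] at h1
    rw [← h1, Finset.sum_mul, Finset.sum_mul, Finset.sum_mul, ← Finset.sum_add_distrib,
      ← Finset.sum_add_distrib]
    refine Finset.sum_congr rfl fun j _ => ?_
    rw [LinearMap.smul_apply, hL j i, Algebra.smul_def]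
    ring
  have hK : ∑ j ∈ Finset.range (p.natDegree + 1), algebraMap ℂ H (p.coeff j) * k j = 0 := by
    have h1 := bH_comb hn 1 0 0
      (∑ j ∈ Finset.range (p.natDegree + 1), algebraMap ℂ H (p.coeff j) * f j)
      (∑ j ∈ Finset.range (p.natDegree + 1), algebraMap ℂ H (p.coeff j) * g j)
      (∑ j ∈ Finset.range (p.natDegree + 1), algebraMap ℂ H (p.coeff j) * k j)
    simp only [hsum] at h1
    simp only [bH, mul_zero, add_zero, one_mul, zero_mul] at h1
    have h2 : algebraMap ℂ H (1 / 2) ≠ 0 := by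
      rw [Ne, map_eq_zero]
      norm_num
    exact (mul_eq_zero.1 h1.symm).resolve_left h2
  rw [Finset.sum_range_succ', hk0 0 rfl] at hK
  have hS : Vgt v 0 (∑ j ∈ Finset.range p.natDegree, algebraMap ℂ H (p.coeff (j + 1)) * k (j + 1)) := by
    unfold Vgt
    refine v.map_lt_sum (by exact WithTop.coe_ne_top) fun j _ => ?_
    exact (ge_c hv _).mul_gt (hk1 (j + 1) (Nat.succ_ne_zero j)) (r := 0) (h := by norm_num)
  have h1 : algebraMap ℂ H (p.coeff 0) * h = -∑ j ∈ Finset.range p.natDegree,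
      algebraMap ℂ H (p.coeff (j + 1)) * k (j + 1) := by
    linear_combination hK
  have h2 : Vgt v 0 (algebraMap ℂ H (p.coeff 0) * h) := by
    rw [h1]
    exact hS.neg
  have h3 : h = algebraMap ℂ H (p.coeff 0)⁻¹ * (algebraMap ℂ H (p.coeff 0) * h) := by
    rw [← mul_assoc, ← map_mul, inv_mul_cancel₀ hp, map_one, one_mul]
  have h4 : Vgt v 0 h := by
    rw [h3]
    exact (ge_c hv _).mul_gt h2 (h := by norm_num)
  simpa [Vgt] using h4

end Pool.Agent.Work.MP_157c12_gt
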