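import Pool.Agent.Work.MP_157c12_gt.Stmts

/-!
# Item D4: the adapted frame in the lexicographic field
-/

open MvPolynomial

namespace Pool.Agent.Work.MP_157c12_gt

namespace ItemD4

section

variable {Γ : Type} [AddCommGroup Γ] [LinearOrder Γ] [IsOrderedAddMonoid Γ]

lemma mo_congr (s : Expo Γ) {i i' j j' : ℚ} {c c' : ℂ} (h1 : i = i') (h2 : j = j') (h3 : c = c') :
    mo s i j c = mo s i' j' c' := by
  subst h1 h2 h3
  rfl

lemma mo_zero (s : Expo Γ) (i j : ℚ) : mo s i j 0 = 0 := by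
  rw [mo, HahnSeries.single_eq_zero]

lemma mo_neg (s : Expo Γ) (i j : ℚ) (c : ℂ) : mo s i j (-c) = -mo s i j c := by
  rw [eq_neg_iff_add_eq_zero, ← mo_add, neg_add_cancel, mo_zero]

/-- the frame -/
noncomputable def om (s : Expo Γ) (c : ℂ) (β : ℚ) : Fin 3 → Hn Γ :=
  ![mo s 0 (-2 * β - 2) (-(β ^ 2 * c ^ 2 / 4)), mo s 0 0 1, mo s 0 (-β - 1) (β * c / 2)]

noncomputable def ee (s : Expo Γ) (c : ℂ) (β : ℚ) : Fin 3 → Hn Γ :=
  ![mo s 0 (-β - 1) (-(β * c)), mo s 0 0 0, mo s 0 0 1]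

noncomputable def mu (s : Expo Γ) : Fin 3 → Hn Γ := ![mo s 0 0 1, mo s 0 0 0, mo s 0 0 0]

noncomputable def aa (s : Expo Γ) (c : ℂ) (β : ℚ) : Hn Γ :=
  mo s 0 (-β - 1) (-(β * (β + 1) * c / 2))

lemma nf (s : Expo Γ) (c : ℂ) (β : ℚ) : NF s.d1 s.d2 (om s c β) (ee s c β) (mu s) (aa s c β) := by
  have h0 : ∀ j : ℚ, ∀ c : ℂ, s.d1 (mo s 0 j c) = 0 := by
    intro j c
    rw [mo_d1]
    push_cast
    rw [zero_mul, mo_zero]
  constructor
  · intro i
    fin_cases i <;> exact h0 _ _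
  · intro i
    fin_cases i <;> exact h0 _ _
  · intro i
    fin_cases i <;> exact h0 _ _
  · exact h0 _ _
  · intro i
    fin_cases i
    · show s.d2 (mo s 0 (-2 * β - 2) (-(β ^ 2 * c ^ 2 / 4))) =
        mo s 0 (-β - 1) (-(β * (β + 1) * c / 2)) * mo s 0 (-β - 1) (-(β * c))
      rw [mo_d2, mo_mul]
      apply mo_congr
      · ring
      · ring
      · push_cast
        ring
    · show s.d2 (mo s 0 0 1) = mo s 0 (-β - 1) (-(β * (β + 1) * c / 2)) * mo s 0 0 0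
      rw [mo_d2, mo_mul, mul_zero]
      push_cast
      rw [zero_mul, mo_zero, mo_zero]
    · show s.d2 (mo s 0 (-β - 1) (β * c / 2)) =
        mo s 0 (-β - 1) (-(β * (β + 1) * c / 2)) * mo s 0 0 1
      rw [mo_d2, mo_mul]
      apply mo_congr
      · ring
      · ring
      · push_cast
        ring
  · intro i
    have h2 : (-2 : Hn Γ) = mo s 0 0 (-2) := by
      rw [← algebraMap_eq_mo, map_neg, map_ofNat]
    fin_cases i
    · show s.d2 (mo s 0 (-β - 1) (-(β * c))) =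
        -2 * mo s 0 (-β - 1) (-(β * (β + 1) * c / 2)) * mo s 0 0 1
      rw [h2, mo_d2, mo_mul, mo_mul]
      apply mo_congr
      · ring
      · ring
      · push_cast
        ring
    · show s.d2 (mo s 0 0 0) = -2 * mo s 0 (-β - 1) (-(β * (β + 1) * c / 2)) * mo s 0 0 0
      rw [mo_zero, map_zero, mul_zero]
    · show s.d2 (mo s 0 0 1) = -2 * mo s 0 (-β - 1) (-(β * (β + 1) * c / 2)) * mo s 0 0 0
      rw [mo_d2, mo_zero, mul_zero]
      push_cast
      rw [zero_mul, mo_zero]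
  · intro i
    fin_cases i
    · show s.d2 (mo s 0 0 1) = 0
      rw [mo_d2]
      push_cast
      rw [zero_mul, mo_zero]
    · show s.d2 (mo s 0 0 0) = 0
      rw [mo_zero, map_zero]
    · show s.d2 (mo s 0 0 0) = 0
      rw [mo_zero, map_zero]
  · show algebraMap ℂ (Hn Γ) (1 / 2) *
      (mo s 0 (-2 * β - 2) (-(β ^ 2 * c ^ 2 / 4)) * mo s 0 0 1 +
        mo s 0 0 1 * mo s 0 (-2 * β - 2) (-(β ^ 2 * c ^ 2 / 4))) +
      mo s 0 (-β - 1) (β * c / 2) * mo s 0 (-β - 1) (β * c / 2) = 0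
    rw [algebraMap_eq_mo s, mo_mul, mo_mul, mo_mul]
    rw [mo_congr s (i := 0 + 0) (i' := 0) (j := -2 * β - 2 + 0) (j' := -2 * β - 2) (by ring)
      (by ring) rfl]
    rw [mo_congr s (i := 0 + 0) (i' := 0) (j := 0 + (-2 * β - 2)) (j' := -2 * β - 2) (by ring)
      (by ring) rfl]
    rw [mo_congr s (i := 0 + 0) (i' := 0) (j := -β - 1 + (-β - 1)) (j' := -2 * β - 2) (by ring)
      (by ring) rfl]
    rw [← mo_add, mo_mul]
    rw [mo_congr s (i := 0 + 0) (i' := 0) (j := 0 + (-2 * β - 2)) (j' := -2 * β - 2) (by ring)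
      (by ring) rfl]
    rw [← mo_add]
    rw [← mo_zero s 0 (-2 * β - 2)]
    apply mo_congr _ rfl rfl
    ring
  · show algebraMap ℂ (Hn Γ) (1 / 2) *
      (mo s 0 (-2 * β - 2) (-(β ^ 2 * c ^ 2 / 4)) * mo s 0 0 0 +
        mo s 0 0 1 * mo s 0 (-β - 1) (-(β * c))) +
      mo s 0 (-β - 1) (β * c / 2) * mo s 0 0 1 = 0
    rw [algebraMap_eq_mo s, mo_zero s 0 0, mul_zero, zero_add, mo_mul, mo_mul, mo_mul]
    rw [mo_congr s (i := 0 + (0 + 0)) (i' := 0) (j := 0 + (0 + (-β - 1))) (j' := -β - 1) (by ring)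
      (by ring) rfl]
    rw [mo_congr s (i := 0 + 0) (i' := 0) (j := -β - 1 + 0) (j' := -β - 1) (by ring)
      (by ring) rfl]
    rw [← mo_add]
    rw [← mo_zero s 0 (-β - 1)]
    apply mo_congr _ rfl rfl
    ring
  · show algebraMap ℂ (Hn Γ) (1 / 2) *
      (mo s 0 (-2 * β - 2) (-(β ^ 2 * c ^ 2 / 4)) * mo s 0 0 0 +
        mo s 0 0 1 * mo s 0 0 1) +
      mo s 0 (-β - 1) (β * c / 2) * mo s 0 0 0 = algebraMap ℂ (Hn Γ) (1 / 2)
    rw [mo_zero s 0 0, mo_one]
    ring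
  · show algebraMap ℂ (Hn Γ) (1 / 2) *
      (mo s 0 (-β - 1) (-(β * c)) * mo s 0 0 0 + mo s 0 0 0 * mo s 0 (-β - 1) (-(β * c))) +
      mo s 0 0 1 * mo s 0 0 1 = 1
    rw [mo_zero s 0 0, mo_one]
    ring
  · show algebraMap ℂ (Hn Γ) (1 / 2) *
      (mo s 0 (-β - 1) (-(β * c)) * mo s 0 0 0 + mo s 0 0 0 * mo s 0 0 1) +
      mo s 0 0 1 * mo s 0 0 0 = 0
    rw [mo_zero s 0 0]
    ring
  · show algebraMap ℂ (Hn Γ) (1 / 2) *
      (mo s 0 0 1 * mo s 0 0 0 + mo s 0 0 0 * mo s 0 0 1) +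
      mo s 0 0 0 * mo s 0 0 0 = 0
    rw [mo_zero s 0 0]
    ring

end

lemma v1_mo_zero (j : ℚ) (c : ℂ) : 0 ≤ v1 (mo exL 0 j c) := by
  by_cases hc : c = 0
  · rw [hc, mo_zero, AddValuation.map_zero]
    exact le_top
  · rw [(mo_lead exL 0 j hc).val1]
    have : lfst (exL.io (0, j)) = 0 := by
      show (-(0 : ℚ)) = 0
      exact neg_zero
    rw [this]
    exact le_refl _

lemma v1_of_lt {g : Hn LX} {j : ℚ} (hg : ((il (0, j) : LX) : WithTop LX) < vv LX g) :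
    0 ≤ v1 g := by
  rw [v1_apply]
  have h1 : ((il (0, j) : LX) : WithTop LX).map lfst ≤ (vv LX g).map lfst :=
    WithTop.monotone_map_iff.mpr lfst_mono hg.le
  refine le_trans ?_ h1
  show ((0 : ℚ) : WithTop ℚ) ≤ ((lfst (il (0, j)) : ℚ) : WithTop ℚ)
  rw [lfst_il, neg_zero]

end ItemD4

open ItemD4 in
/-- the adapted frame in the lexicographic field -/
theorem d4 (h : SC5) : SD4 := by
  intro p hp κ c β g hc hβ hβ1 hg hFT
  have hβ1' : ((β : ℂ) + 1) ≠ 0 := by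
    have h0 : (0 : ℚ) < β + 1 := by linarith
    have := h0.ne'
    exact_mod_cast this
  have hβ' : (β : ℂ) ≠ 0 := by exact_mod_cast hβ
  have ha : aa exL c β ≠ 0 := by
    refine (mo_lead exL 0 (-β - 1) (c := -(β * (β + 1) * c / 2)) ?_).ne_zero
    refine neg_ne_zero.mpr (div_ne_zero (mul_ne_zero (mul_ne_zero hβ' hβ1') hc) two_ne_zero)
  set hh : Hn LX := mo exL 0 0 κ + mo exL 0 (-β) ((1 + β) * c) + g with hhh
  have hpos : 0 ≤ v1 hh := by
    refine AddValuation.map_le_add v1 (AddValuation.map_le_add v1 ?_ ?_) ?_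
    · exact v1_mo_zero _ _
    · exact v1_mo_zero _ _
    · exact v1_of_lt hg
  have hY : exL.d1 (mo exL 0 1 1) = 0 := by
    rw [mo_d1]
    push_cast
    rw [zero_mul, mo_zero]
  have key := h p hp (om exL c β) (ee exL c β) (mu exL) (aa exL c β) (mo exL 0 1 1) hh
    (nf exL c β) ha hY hpos (ptA exL κ c β g) (by
      intro i
      fin_cases i
      · show mo exL 0 0 κ + mo exL 0 (-β) c - mo exL 1 (-2 * β - 2) (β ^ 2 * c ^ 2 / 4) + g =
          mo exL 1 0 1 * mo exL 0 (-2 * β - 2) (-(β ^ 2 * c ^ 2 / 4)) +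
            mo exL 0 1 1 * mo exL 0 (-β - 1) (-(β * c)) + hh * mo exL 0 0 1
        rw [mo_one, mul_one, hhh, mo_mul, mo_mul]
        rw [mo_congr exL (i := 1 + 0) (i' := 1) (j := 0 + (-2 * β - 2)) (j' := -2 * β - 2)
          (by ring) (by ring) rfl]
        rw [mo_congr exL (i := 0 + 0) (i' := 0) (j := 1 + (-β - 1)) (j' := -β)
          (by ring) (by ring) rfl]
        have e1 : mo exL 0 (-β) c =
            mo exL 0 (-β) (1 * -(β * c)) + mo exL 0 (-β) ((1 + β) * c) := by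
          rw [← mo_add]
          exact mo_congr _ rfl rfl (by ring)
        have e2 : mo exL 1 (-2 * β - 2) (1 * -(β ^ 2 * c ^ 2 / 4)) =
            -mo exL 1 (-2 * β - 2) (β ^ 2 * c ^ 2 / 4) := by
          rw [← mo_neg]
          exact mo_congr _ rfl rfl (by ring)
        rw [e1, e2]
        ring
      · show mo exL 1 0 1 = mo exL 1 0 1 * mo exL 0 0 1 + mo exL 0 1 1 * mo exL 0 0 0 +
          hh * mo exL 0 0 0
        rw [mo_one, mo_zero]
        ring
      · show mo exL 0 1 1 + mo exL 1 (-β - 1) (β * c / 2) =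
          mo exL 1 0 1 * mo exL 0 (-β - 1) (β * c / 2) + mo exL 0 1 1 * mo exL 0 0 1 +
          hh * mo exL 0 0 0
        rw [mo_one, mo_zero, mo_mul]
        rw [mo_congr exL (i := 1 + 0) (i' := 1) (j := 0 + (-β - 1)) (j' := -β - 1)
          (by ring) (by ring) (one_mul _)]
        ring) hFT
  have hcoef : hh.coeff (il (0, -β)) ≠ 0 := by
    rw [hhh, HahnSeries.coeff_add, HahnSeries.coeff_add, coeff_eq_zero_of_lt_vv hg, add_zero]
    have e1 : (mo exL 0 0 κ).coeff (il (0, -β)) = 0 := by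
      apply HahnSeries.coeff_single_of_ne
      intro hne
      have := congrArg lsnd hne
      have h2 : (-(-β) : ℚ) = -0 := this
      apply hβ
      linarith
    have e2 : (mo exL 0 (-β) ((1 + β) * c)).coeff (il (0, -β)) = (1 + β) * c :=
      HahnSeries.coeff_single_same _ _
    rw [e1, e2, zero_add]
    refine mul_ne_zero ?_ hc
    rw [add_comm]
    exact hβ1'
  have hle : vv LX hh ≤ ((il (0, -β) : LX) : WithTop LX) := by
    by_contra hlt
    exact hcoef (coeff_eq_zero_of_lt_vv (not_le.mp hlt))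
  have hle1 : v1 hh ≤ 0 := by
    rw [v1_apply]
    have h1 : (vv LX hh).map lfst ≤ ((il (0, -β) : LX) : WithTop LX).map lfst :=
      WithTop.monotone_map_iff.mpr lfst_mono hle
    refine le_trans h1 ?_
    show ((lfst (il (0, -β)) : ℚ) : WithTop ℚ) ≤ ((0 : ℚ) : WithTop ℚ)
    rw [lfst_il, neg_zero]
  exact absurd key (not_lt.mpr hle1)

end Pool.Agent.Work.MP_157c12_gt
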