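import Pool.Agent.Work.MP_157c12_gt.Bd.B06

/-!
# Item GS2: the Laplace operator in the ring of smooth functions
-/

set_option autoImplicit false

open MvPolynomial TopologicalSpace
open scoped Manifold ContDiff

namespace Pool.Agent.Work.MP_157c12_gt.ItemGS2

variable {O : Opens (E 2)}

/-- `r` is the complexification of the real function `ρ` -/
def IsR (r : RO O) (ρ : E 2 → ℝ) : Prop := ∀ q ∈ O, evO r q = ((ρ q : ℝ) : ℂ)

theorem IsR.sm {r : RO O} {ρ : E 2 → ℝ} (h : IsR r ρ) : ContDiffOn ℝ ∞ ρ O := by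
  refine (Complex.reCLM.contDiff.comp_contDiffOn (smooth_evO r)).congr ?_
  intro q hq
  show ρ q = Complex.re (evO r q)
  rw [h q hq, Complex.ofReal_re]

theorem IsR.diffAt {r : RO O} {ρ : E 2 → ℝ} (h : IsR r ρ) {p : E 2} (hp : p ∈ O) :
    DifferentiableAt ℝ ρ p :=
  (h.sm.contDiffAt (O.isOpen.mem_nhds hp)).differentiableAt (by simp)

theorem IsR.add {r s : RO O} {ρ σ : E 2 → ℝ} (h : IsR r ρ) (k : IsR s σ) :
    IsR (r + s) (fun q => ρ q + σ q) := by
  intro q hq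
  rw [add_evO _ _ hq, h q hq, k q hq]
  push_cast
  rfl

theorem IsR.sub {r s : RO O} {ρ σ : E 2 → ℝ} (h : IsR r ρ) (k : IsR s σ) :
    IsR (r - s) (fun q => ρ q - σ q) := by
  intro q hq
  rw [sub_evO _ _ hq, h q hq, k q hq]
  push_cast
  rfl

theorem IsR.mul {r s : RO O} {ρ σ : E 2 → ℝ} (h : IsR r ρ) (k : IsR s σ) :
    IsR (r * s) (fun q => ρ q * σ q) := by
  intro q hq
  rw [mul_evO _ _ hq, h q hq, k q hq]
  push_cast
  rfl

theorem IsR.d {r : RO O} {ρ : E 2 → ℝ} (h : IsR r ρ) (i : Fin 2) :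
    IsR (dO O i r) (pd i ρ) := by
  intro p hp
  have hev : evO r =ᶠ[nhds p] fun q => ((ρ q : ℝ) : ℂ) :=
    Filter.eventually_of_mem (O.isOpen.mem_nhds hp) fun q hq => h q hq
  have h2 : HasFDerivAt (fun q => ((ρ q : ℝ) : ℂ)) (Complex.ofRealCLM.comp (fderiv ℝ ρ p)) p :=
    Complex.ofRealCLM.hasFDerivAt.comp p (h.diffAt hp).hasFDerivAt
  rw [dO_evO _ _ hp, hev.fderiv_eq, h2.fderiv]
  rfl

/-- product rule with the inverse of a square root -/
theorem pd_sqrt {D N : E 2 → ℝ} {p : E 2} (hD : DifferentiableAt ℝ D p)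
    (hN : DifferentiableAt ℝ N p) (h0 : 0 < D p) (i : Fin 2) :
    pd i (fun q => (√(D q))⁻¹ * N q) p =
      (√(D p))⁻¹ * pd i N p + N p * (-(1 / (2 * √(D p))) / √(D p) ^ 2 * pd i D p) := by
  have hs : √(D p) ≠ 0 := (Real.sqrt_pos.mpr h0).ne'
  have h1 : HasDerivAt (fun y => (√y)⁻¹) (-(1 / (2 * √(D p))) / √(D p) ^ 2) (D p) :=
    (Real.hasDerivAt_sqrt h0.ne').inv hs
  have h2 := h1.comp_hasFDerivAt p hD.hasFDerivAt
  have h3 := h2.mul hN.hasFDerivAt
  unfold pd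
  have h4 : HasFDerivAt (fun q => (√(D q))⁻¹ * N q) _ p := h3
  rw [h4.fderiv]
  rfl

theorem alg {s D a0 a1 b0 b1 n0 n1 : ℝ} (hs : 0 < s) (hD : s ^ 2 = D) :
    s⁻¹ * (s⁻¹ * a0 + n0 * (-(1 / (2 * s)) / s ^ 2 * b0) +
      (s⁻¹ * a1 + n1 * (-(1 / (2 * s)) / s ^ 2 * b1))) =
    D⁻¹ * (a0 + a1) - 1 / 2 * (D⁻¹ * D⁻¹) * (b0 * n0 + b1 * n1) := by
  subst hD
  field_simp
  ring

theorem inv_entries {X : E 2 → E 3} {q : E 2} :
    (gram X q)⁻¹ 0 0 = ((gram X q).det)⁻¹ * gram X q 1 1 ∧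
    (gram X q)⁻¹ 0 1 = -(((gram X q).det)⁻¹ * gram X q 0 1) ∧
    (gram X q)⁻¹ 1 0 = -(((gram X q).det)⁻¹ * gram X q 0 1) ∧
    (gram X q)⁻¹ 1 1 = ((gram X q).det)⁻¹ * gram X q 0 0 := by
  have hs : gram X q 1 0 = gram X q 0 1 := by
    simp only [gram, Matrix.of_apply]
    exact Finset.sum_congr rfl fun a _ => mul_comm _ _
  rw [Matrix.inv_def, Ring.inverse_eq_inv', Matrix.adjugate_fin_two]
  refine ⟨?_, ?_, ?_, ?_⟩
  · simp
  · simp
  · simp [hs]
  · simp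

end Pool.Agent.Work.MP_157c12_gt.ItemGS2

namespace Pool.Agent.Work.MP_157c12_gt

open ItemGS2

theorem gs2 (h : GS1) : GS2 := by
  intro O X hX x di hx hdi f g hf hg p hp
  obtain ⟨-, h1⟩ := h O X hX
  obtain ⟨hnd, hdet, -⟩ := h1 x hx
  have rA : IsR (nd (dO O 0) (dO O 0) x) (fun q => gram X q 0 0) := fun q hq => hnd q hq 0 0
  have rB : IsR (nd (dO O 0) (dO O 1) x) (fun q => gram X q 0 1) := fun q hq => hnd q hq 0 1
  have rC : IsR (nd (dO O 1) (dO O 1) x) (fun q => gram X q 1 1) := fun q hq => hnd q hq 1 1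
  have rD : IsR (detN (dO O 0) (dO O 1) x) (fun q => (gram X q).det) := hdet
  have rg : IsR g f := hg
  have rdi : IsR di (fun q => ((gram X q).det)⁻¹) := by
    intro q hq
    have e1 : evO (detN (dO O 0) (dO O 1) x) q * evO di q = 1 := by
      rw [← mul_evO _ _ hq, hdi, one_evO hq]
    rw [hdet q hq] at e1
    rw [Complex.ofReal_inv]
    exact eq_inv_of_mul_eq_one_right e1
  have rN0 := (rC.mul (rg.d 0)).sub (rB.mul (rg.d 1))
  have rN1 := (rA.mul (rg.d 1)).sub (rB.mul (rg.d 0))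
  set N0 : E 2 → ℝ := fun q => gram X q 1 1 * pd 0 f q - gram X q 0 1 * pd 1 f q with hN0
  set N1 : E 2 → ℝ := fun q => gram X q 0 0 * pd 1 f q - gram X q 0 1 * pd 0 f q with hN1
  have hleft : evO (lapF (dO O 0) (dO O 1) x di g) p =
      ((((gram X p).det)⁻¹ * (pd 0 N0 p + pd 1 N1 p) -
        1 / 2 * (((gram X p).det)⁻¹ * ((gram X p).det)⁻¹) *
          (pd 0 (fun q => (gram X q).det) p * N0 p +
            pd 1 (fun q => (gram X q).det) p * N1 p) : ℝ) : ℂ) := by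
    unfold lapF
    rw [sub_evO _ _ hp, mul_evO _ _ hp, mul_evO _ _ hp, mul_evO _ _ hp, algebraMap_evO _ hp, sq,
      (rdi.mul rdi) p hp, rdi p hp, ((rN0.d 0).add (rN1.d 1)) p hp,
      (((rD.d 0).mul rN0).add ((rD.d 1).mul rN1)) p hp]
    push_cast
    ring
  rw [hleft]
  congr 1
  have hDpos : 0 < (gram X p).det := hX.imm p hp
  have hDd := rD.diffAt hp
  have hterm : ∀ (N : E 2 → ℝ) (i : Fin 2), DifferentiableAt ℝ N p →
      (∀ q ∈ O, ∑ j, (gram X q)⁻¹ i j * pd j f q = ((gram X q).det)⁻¹ * N q) →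
      pd i (fun q => √(gram X q).det * ∑ j, (gram X q)⁻¹ i j * pd j f q) p =
        (√(gram X p).det)⁻¹ * pd i N p +
          N p * (-(1 / (2 * √(gram X p).det)) / √(gram X p).det ^ 2 *
            pd i (fun q => (gram X q).det) p) := by
    intro N i hN hq
    have hev : (fun q => √(gram X q).det * ∑ j, (gram X q)⁻¹ i j * pd j f q) =ᶠ[nhds p]
        fun q => (√(gram X q).det)⁻¹ * N q := by
      refine Filter.eventually_of_mem (O.isOpen.mem_nhds hp) fun q hqO => ?_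
      have hq0 : 0 < (gram X q).det := hX.imm q hqO
      have hs : 0 < √(gram X q).det := Real.sqrt_pos.mpr hq0
      show √(gram X q).det * ∑ j, (gram X q)⁻¹ i j * pd j f q = (√(gram X q).det)⁻¹ * N q
      rw [hq q hqO, ← mul_assoc]
      congr 1
      rw [← div_eq_mul_inv, Real.sqrt_div_self]
    have h3 : pd i (fun q => √(gram X q).det * ∑ j, (gram X q)⁻¹ i j * pd j f q) p =
        pd i (fun q => (√(gram X q).det)⁻¹ * N q) p := by
      unfold pd at hev ⊢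
      rw [hev.fderiv_eq]
    rw [h3]
    exact pd_sqrt hDd hN hDpos i
  unfold lap
  rw [Fin.sum_univ_two, hterm N0 0 (rN0.diffAt hp) ?_, hterm N1 1 (rN1.diffAt hp) ?_]
  · exact (alg (Real.sqrt_pos.mpr hDpos) (Real.sq_sqrt hDpos.le)).symm
  · intro q _
    obtain ⟨e0, e1, e2, e3⟩ := inv_entries (X := X) (q := q)
    rw [Fin.sum_univ_two, e2, e3]
    simp only [hN1]
    ring
  · intro q _
    obtain ⟨e0, e1, e2, e3⟩ := inv_entries (X := X) (q := q)
    rw [Fin.sum_univ_two, e0, e1]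
    simp only [hN0]
    ring

end Pool.Agent.Work.MP_157c12_gt
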