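import Pool.Agent.Work.MP_157c12_gt.Bd.B06

/-!
# Item GS6: nondegeneracy
-/

set_option autoImplicit false

open MvPolynomial TopologicalSpace
open scoped Manifold ContDiff

namespace Pool.Agent.Work.MP_157c12_gt

namespace ItemGS6

lemma coeff_pderiv (a : Fin 3) (F : P3) (m : Fin 3 →₀ ℕ) :
    coeff m (pderiv a F) = coeff (m + Finsupp.single a 1) F * ((m a : ℂ) + 1) := by
  induction F using MvPolynomial.induction_on' with
  | monomial s c =>
    rw [pderiv_monomial, MvPolynomial.coeff_monomial, MvPolynomial.coeff_monomial]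
    by_cases hs : s = m + Finsupp.single a 1
    · subst hs
      have h1 : m + Finsupp.single a 1 - Finsupp.single a 1 = m := add_tsub_cancel_right _ _
      rw [if_pos h1, if_pos rfl]
      simp
    · rw [if_neg hs, zero_mul]
      by_cases h0 : s a = 0
      · rw [h0]
        simp
      · rw [if_neg]
        intro h
        apply hs
        rw [← h]
        refine (tsub_add_cancel_of_le ?_).symm
        rw [Finsupp.single_le_iff]
        exact Nat.one_le_iff_ne_zero.mpr h0
  | add p q hp hq =>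
    rw [map_add, MvPolynomial.coeff_add, MvPolynomial.coeff_add, hp, hq, add_mul]

/-- an irreducible polynomial does not divide some partial derivative -/
lemma exists_pderiv {F : P3} (hF : Irreducible F) : ∃ a, ¬ F ∣ pderiv a F := by
  have h0 : F ≠ 0 := hF.ne_zero
  have hm : ∃ m ∈ F.support, m ≠ 0 := by
    by_contra hcon
    push Not at hcon
    have hC : F = C (coeff 0 F) := by
      ext m
      rw [coeff_C]
      by_cases hm0 : m = 0
      · rw [hm0]
        simp
      · rw [if_neg (fun h => hm0 h.symm)]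
        by_contra hne
        exact hm0 (hcon m (mem_support_iff.mpr hne))
    have hne : coeff 0 F ≠ 0 := by
      intro h
      rw [h, C_0] at hC
      exact h0 hC
    apply hF.not_isUnit
    rw [hC]
    exact (isUnit_iff_ne_zero.mpr hne).map C
  obtain ⟨m, hmF, hm0⟩ := hm
  obtain ⟨a, ha⟩ : ∃ a, m a ≠ 0 := by
    by_contra hcon
    push Not at hcon
    exact hm0 (Finsupp.ext hcon)
  have hle : Finsupp.single a 1 ≤ m := by
    rw [Finsupp.single_le_iff]
    exact Nat.one_le_iff_ne_zero.mpr ha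
  have hne : pderiv a F ≠ 0 := by
    intro h
    have h1 := coeff_pderiv a F (m - Finsupp.single a 1)
    rw [h, coeff_zero, tsub_add_cancel_of_le hle] at h1
    have h2 : coeff m F ≠ 0 := mem_support_iff.mp hmF
    have h3 : (((m - Finsupp.single a 1 : Fin 3 →₀ ℕ) a : ℂ) + 1) ≠ 0 :=
      Nat.cast_add_one_ne_zero _
    exact mul_ne_zero h2 h3 h1.symm
  refine ⟨a, fun hdvd => ?_⟩
  obtain ⟨G, hG⟩ := hdvd
  have hG0 : G ≠ 0 := by
    rintro rfl
    rw [mul_zero] at hG
    exact hne hG
  have hdeg : F.totalDegree ≤ (pderiv a F).totalDegree := by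
    rw [hG, totalDegree_mul_of_isDomain h0 hG0]
    exact Nat.le_add_right _ _
  have hlt : (pderiv a F).totalDegree + 1 ≤ F.totalDegree := by
    obtain ⟨m', hm', hmd⟩ : ∃ m' ∈ (pderiv a F).support,
        (pderiv a F).totalDegree = m'.sum fun _ e => e := by
      have hs : (pderiv a F).support.Nonempty := support_nonempty.mpr hne
      obtain ⟨m', hm', h⟩ := Finset.exists_mem_eq_sup _ hs (fun s : Fin 3 →₀ ℕ => s.sum fun _ e => e)
      exact ⟨m', hm', h⟩
    have h1 := coeff_pderiv a F m'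
    have h2 : coeff (m' + Finsupp.single a 1) F ≠ 0 := by
      intro h
      rw [h, zero_mul] at h1
      exact mem_support_iff.mp hm' h1
    have h3 := le_totalDegree (mem_support_iff.mpr h2)
    rw [hmd]
    refine le_trans (le_of_eq ?_) h3
    rw [Finsupp.sum_add_index' (fun _ => rfl) (fun _ _ _ => rfl),
      Finsupp.sum_single_index rfl]
  omega

/-- chain rule -/
lemma chain {R : Type} [CommRing R] [Algebra ℂ R] (D : Derivation ℂ R R) (x : Fin 3 → R)
    (F : P3) : D (aeval x F) = ∑ b, aeval x (pderiv b F) * D (x b) := by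
  induction F using MvPolynomial.induction_on with
  | C c =>
    rw [MvPolynomial.algHom_C]
    simp
  | add p q hp hq =>
    simp only [map_add, hp, hq, add_mul, Finset.sum_add_distrib]
  | mul_X p n hp =>
    have h1 : ∀ b, aeval x (pderiv b (p * X n)) =
        aeval x p * (if b = n then 1 else 0) + x n * aeval x (pderiv b p) := by
      intro b
      rw [Derivation.leibniz, pderiv_X, map_add, smul_eq_mul, smul_eq_mul, map_mul, map_mul,
        aeval_X]
      congr 2
      by_cases hbn : b = n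
      · subst hbn
        simp
      · rw [if_neg hbn, Pi.single_eq_of_ne (fun h => hbn h.symm), map_zero]
    simp only [h1]
    rw [map_mul, aeval_X, Derivation.leibniz, hp]
    simp only [smul_eq_mul, add_mul, Finset.sum_add_distrib, mul_assoc, ite_mul, one_mul,
      zero_mul, mul_ite, mul_zero, Finset.sum_ite_eq', Finset.mem_univ, if_true, Finset.mul_sum]

/-- evaluation at a point -/
lemma ev_aeval {O : Opens (E 2)} {X : E 2 → E 3} {x : Fin 3 → RO O} (hx : IsNull X x)
    (G : P3) {p : E 2} (hp : p ∈ O) : evO (aeval x G) p = eval (nv (X p)) G := by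
  rw [← evH_apply hp, MvPolynomial.comp_aeval_apply, ← coe_aeval_eq_eval]
  have h : (fun i => evH hp (x i)) = nv (X p) := by
    funext a
    rw [evH_apply, hx p hp a]
  rw [h]
  rfl

lemma alg (f u w : Fin 3 → ℂ) (h1 : ∑ b, f b * u b = 0) (h2 : ∑ b, f b * w b = 0)
    (a : Fin 3) (hfa : f a ≠ 0)
    (hdet : (1 / 2 * (u 0 * u 1 + u 1 * u 0) + u 2 * u 2) *
      (1 / 2 * (w 0 * w 1 + w 1 * w 0) + w 2 * w 2) -
      (1 / 2 * (u 0 * w 1 + u 1 * w 0) + u 2 * w 2) ^ 2 ≠ 0) :
    4 * (f 0 * f 1) + f 2 ^ 2 ≠ 0 := by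
  rw [Fin.sum_univ_three] at h1 h2
  intro hQ
  set n0 := u 1 * w 2 - u 2 * w 1 with hn0
  set n1 := u 2 * w 0 - u 0 * w 2 with hn1
  set n2 := u 0 * w 1 - u 1 * w 0 with hn2
  have hn : 4 * n0 * n1 + n2 ^ 2 ≠ 0 := by
    intro h
    apply hdet
    rw [hn0, hn1, hn2] at h
    linear_combination (-1 / 4 : ℂ) * h
  have c01 : f 0 * n1 = f 1 * n0 := by
    rw [hn0, hn1]
    linear_combination (-w 2) * h1 + u 2 * h2
  have c02 : f 0 * n2 = f 2 * n0 := by
    rw [hn0, hn2]
    linear_combination w 1 * h1 - u 1 * h2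
  have c12 : f 1 * n2 = f 2 * n1 := by
    rw [hn1, hn2]
    linear_combination (-w 0) * h1 + u 0 * h2
  apply hn
  have key : f a ^ 2 * (4 * n0 * n1 + n2 ^ 2) = 0 := by
    fin_cases a
    · show f 0 ^ 2 * (4 * n0 * n1 + n2 ^ 2) = 0
      linear_combination n0 ^ 2 * hQ + 4 * f 0 * n0 * c01 + (f 0 * n2 + f 2 * n0) * c02
    · show f 1 ^ 2 * (4 * n0 * n1 + n2 ^ 2) = 0
      linear_combination n1 ^ 2 * hQ - 4 * f 1 * n1 * c01 + (f 1 * n2 + f 2 * n1) * c12
    · show f 2 ^ 2 * (4 * n0 * n1 + n2 ^ 2) = 0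
      linear_combination n2 ^ 2 * hQ - 4 * f 1 * n2 * c02 - 4 * f 2 * n0 * c12
  exact (mul_eq_zero.mp key).resolve_left (pow_ne_zero 2 hfa)

end ItemGS6

open ItemGS6

/-- nondegeneracy -/
theorem gs6 (h1 : GS1) (h4 : GS4) : GS6 := by
  intro O X hX hO F hF hFX hdvd
  obtain ⟨a, ha⟩ := exists_pderiv hF
  have hex : ∃ p ∈ O, eval (nv (X p)) (pderiv a F) ≠ 0 := by
    by_contra hcon
    push Not at hcon
    exact ha (h4 O X hX hO F (pderiv a F) hF hFX hcon)
  obtain ⟨p, hp, hpa⟩ := hex
  obtain ⟨⟨x, hx⟩, hall⟩ := h1 O X hX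
  obtain ⟨hnd, hdet, -⟩ := hall x hx
  have hzero : aeval x F = 0 := by
    apply ext_evO
    intro q hq
    rw [ev_aeval hx F hq, zero_evO hq, hFX q hq]
  have hder : ∀ i, ∑ b, eval (nv (X p)) (pderiv b F) * evO (dO O i (x b)) p = 0 := by
    intro i
    have h2 := chain (dO O i) x F
    rw [hzero, map_zero] at h2
    have h3 := congrArg (evH hp) h2
    rw [map_zero, map_sum] at h3
    rw [h3]
    refine Finset.sum_congr rfl fun b _ => ?_
    rw [map_mul, evH_apply, evH_apply, ev_aeval hx _ hp]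
  have hdp : evO (detN (dO O 0) (dO O 1) x) p ≠ 0 := by
    rw [hdet p hp]
    exact_mod_cast (hX.imm p hp).ne'
  have hQ : eval (nv (X p)) (QN F) = 0 := by
    obtain ⟨G, hG⟩ := hdvd
    rw [hG, map_mul, hFX p hp, zero_mul]
  refine alg (fun b => eval (nv (X p)) (pderiv b F)) (fun b => evO (dO O 0 (x b)) p)
    (fun b => evO (dO O 1 (x b)) p) (hder 0) (hder 1) a hpa ?_ ?_
  · intro h
    apply hdp
    rw [← h]
    simp only [detN, nd, sub_evO _ _ hp, pow_two, mul_evO _ _ hp, add_evO _ _ hp,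
      algebraMap_evO _ hp]
  · rw [← hQ]
    simp only [QN, map_add, map_mul, map_pow]
    congr 2
    exact (map_ofNat _ 4).symm

end Pool.Agent.Work.MP_157c12_gt
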