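import Pool.Agent.Work.MP_157c12_gt.Bd.B06
import Pool.Agent.Work.MP_157c12_gt.Bd.B07
import Pool.Agent.Work.MP_157c12_gt.ItemGS6

/-!
# Item GS7: the polynomial of a patch of finite type is good
-/

set_option autoImplicit false

open MvPolynomial TopologicalSpace
open scoped Manifold ContDiff

namespace Pool.Agent.Work.MP_157c12_gt

open ItemGS6

/-- the polynomial of a patch of finite type is good -/
theorem gs7 (a1 : SA1) (h1 : GS1) (h4 : GS4) (h6 : GS6) : GS7 := by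
  intro O X hX hO F p hF hFX hp0 hFT
  have hnd : ¬ F ∣ QN F := h6 O X hX hO F hF hFX
  obtain ⟨Z, hZ⟩ := a1 F p
  have hopen : IsOpen ((O : Set (E 2)) ∩ (fun q => eval (nv (X q)) (QN F)) ⁻¹' {z | z ≠ 0}) :=
    (ItemGS5.cont (fun a => (hX.smooth a).continuousOn) (QN F)).isOpen_inter_preimage O.isOpen
      isOpen_ne
  set U : Opens (E 2) := ⟨_, hopen⟩ with hU
  have hUO : U ≤ O := fun q hq => hq.1
  have hUne : (U : Set (E 2)).Nonempty := by
    by_contra hcon
    rw [Set.not_nonempty_iff_eq_empty] at hcon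
    refine hnd (h4 O X hX hO F (QN F) hF hFX fun q hq => ?_)
    by_contra hne
    have : q ∈ (U : Set (E 2)) := ⟨hq, hne⟩
    rw [hcon] at this
    exact this
  have hXU : Patch U X := ⟨fun a => (hX.smooth a).mono hUO, fun q hq => hX.imm q (hUO hq)⟩
  obtain ⟨⟨x, hx⟩, hall⟩ := h1 U X hXU
  obtain ⟨-, -, di, hdi⟩ := hall x hx
  have hFTU : FT p (dO U 0) (dO U 1) x di := hFT U hUO x di hx hdi
  have hQne : ∀ q ∈ U, evO (aeval x (QN F)) q ≠ 0 := by
    intro q hq
    rw [ev_aeval hx _ hq]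
    exact hq.2
  have hxF : aeval x F = 0 := by
    apply ext_evO
    intro q hq
    rw [ev_aeval hx F hq, zero_evO hq, hFX q (hUO hq)]
  have hQi : aeval x (QN F) * mkRO (fun q => (evO (aeval x (QN F)) q)⁻¹)
      ((smooth_evO _).inv hQne) = 1 := by
    apply ext_evO
    intro q hq
    rw [mul_evO _ _ hq, mkRO_evO _ _ hq, one_evO hq]
    exact mul_inv_cancel₀ (hQne q hq)
  have hZx := (hZ (RO U) (dO U 0) (dO U 1) x di _ (fun r => dO_comm U 0 1 r) hxF hdi hQi).mp hFTU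
  have hdvd : ∀ a, F ∣ Z a := by
    intro a
    refine h4 U X hXU hUne F (Z a) hF (fun q hq => hFX q (hUO hq)) fun q hq => ?_
    rw [← ev_aeval hx _ hq, hZx a, zero_evO hq]
  refine ⟨hF, hnd, hp0, ?_⟩
  intro H _ _ D1 D2 x' hcomm hF' hgen hdetne
  have hQ' : aeval x' (QN F) ≠ 0 := fun h => hnd (hgen _ h)
  refine (hZ H D1 D2 x' (detN D1 D2 x')⁻¹ (aeval x' (QN F))⁻¹ hcomm hF'
    (mul_inv_cancel₀ hdetne) (mul_inv_cancel₀ hQ')).mpr fun a => ?_
  obtain ⟨G, hG⟩ := hdvd a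
  rw [hG, map_mul, hF', zero_mul]

end Pool.Agent.Work.MP_157c12_gt
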