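import Pool.Agent.Work.MP_157c12_gt.Stmts

/-!
# Item H2: the exponents of the conic frame
-/

open MvPolynomial

namespace Pool.Agent.Work.MP_157c12_gt

namespace ItemH2

/-- all exponents of `A` have first component at most `t` -/
def Lq (t : ℚ) (A : Gq) : Prop := ∀ e, A.coeff e ≠ 0 → e.1 ≤ t

lemma Lq.mono {s t : ℚ} {A : Gq} (h : Lq s A) (hst : s ≤ t) : Lq t A :=
  fun e he => (h e he).trans hst

lemma Lq.zero (t : ℚ) : Lq t 0 := fun _ he => absurd rfl he

lemma Lq.add {t : ℚ} {A B : Gq} (hA : Lq t A) (hB : Lq t B) : Lq t (A + B) := by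
  intro e he
  by_contra hlt
  apply he
  have h1 : A.coeff e = 0 := by
    by_contra h
    exact hlt (hA e h)
  have h2 : B.coeff e = 0 := by
    by_contra h
    exact hlt (hB e h)
  rw [AddMonoidAlgebra.coeff_add, Finsupp.add_apply, h1, h2, add_zero]

lemma Lq.neg {t : ℚ} {A : Gq} (hA : Lq t A) : Lq t (-A) := by
  intro e he
  apply hA e
  intro h
  apply he
  rw [AddMonoidAlgebra.coeff_neg, Finsupp.neg_apply, h, neg_zero]

lemma Lq.mul {s t : ℚ} {A B : Gq} (hA : Lq s A) (hB : Lq t B) : Lq (s + t) (A * B) := by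
  classical
  intro e he
  have h1 : e ∈ (A * B).coeff.support := Finsupp.mem_support_iff.mpr he
  have h2 := AddMonoidAlgebra.support_coeff_mul_subset A B h1
  rw [Finset.mem_add] at h2
  obtain ⟨a, ha, b, hb, rfl⟩ := h2
  have h3 := hA a (Finsupp.mem_support_iff.mp ha)
  have h4 := hB b (Finsupp.mem_support_iff.mp hb)
  rw [Prod.fst_add]
  linarith

lemma Lq.sum {ι : Type} (S : Finset ι) (f : ι → Gq) {t : ℚ} (h : ∀ i ∈ S, Lq t (f i)) :
    Lq t (∑ i ∈ S, f i) := by
  classical
  induction S using Finset.induction_on with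
  | empty => exact Lq.zero t
  | insert a S ha ih =>
    rw [Finset.sum_insert ha]
    exact (h a (Finset.mem_insert_self a S)).add
      (ih fun i hi => h i (Finset.mem_insert_of_mem hi))

lemma Lq_gm (i j : ℚ) (c : ℂ) : Lq i (gm i j c) := by
  intro e he
  rw [gm, AddMonoidAlgebra.coeff_single] at he
  by_cases h : (i, j) = e
  · rw [← h]
  · exact absurd (Finsupp.single_eq_of_ne (Ne.symm h)) he

/-- the coefficient of `X ^ j` has exponents with first component at most `t - 2 j` -/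
def Lp (t : ℚ) (P : Polynomial Gq) : Prop := ∀ j : ℕ, Lq (t - 2 * j) (P.coeff j)

lemma Lp.mono {s t : ℚ} {A : Polynomial Gq} (h : Lp s A) (hst : s ≤ t) : Lp t A :=
  fun j => (h j).mono (by linarith)

lemma Lp.zero (t : ℚ) : Lp t 0 := fun j => by
  rw [Polynomial.coeff_zero]
  exact Lq.zero _

lemma Lp.add {t : ℚ} {A B : Polynomial Gq} (hA : Lp t A) (hB : Lp t B) : Lp t (A + B) := by
  intro j
  rw [Polynomial.coeff_add]
  exact (hA j).add (hB j)

lemma Lp.neg {t : ℚ} {A : Polynomial Gq} (hA : Lp t A) : Lp t (-A) := by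
  intro j
  rw [Polynomial.coeff_neg]
  exact (hA j).neg

lemma Lp.mul {s t : ℚ} {A B : Polynomial Gq} (hA : Lp s A) (hB : Lp t B) :
    Lp (s + t) (A * B) := by
  intro j
  rw [Polynomial.coeff_mul]
  apply Lq.sum
  rintro ⟨i, k⟩ hik
  have hik' : i + k = j := Finset.HasAntidiagonal.mem_antidiagonal.mp hik
  refine ((hA i).mul (hB k)).mono (le_of_eq ?_)
  rw [← hik']
  push_cast
  ring

lemma Lp.sum {ι : Type} (S : Finset ι) (f : ι → Polynomial Gq) {t : ℚ}
    (h : ∀ i ∈ S, Lp t (f i)) : Lp t (∑ i ∈ S, f i) := by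
  classical
  induction S using Finset.induction_on with
  | empty => exact Lp.zero t
  | insert a S ha ih =>
    rw [Finset.sum_insert ha]
    exact (h a (Finset.mem_insert_self a S)).add
      (ih fun i hi => h i (Finset.mem_insert_of_mem hi))

lemma Lp_C {t : ℚ} {A : Gq} (h : Lq t A) : Lp t (Polynomial.C A) := by
  intro j
  rw [Polynomial.coeff_C]
  split_ifs with h0
  · subst h0
    exact h.mono (by simp)
  · exact Lq.zero _

lemma Lp_X : Lp 2 (Polynomial.X : Polynomial Gq) := by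
  intro j
  rw [Polynomial.coeff_X]
  split_ifs with h0
  · subst h0
    have := Lq_gm 0 0 1
    have h1 : (1 : Gq) = gm 0 0 1 := rfl
    rw [h1]
    exact this.mono (by norm_num)
  · exact Lq.zero _

lemma Lp_one : Lp 0 (1 : Polynomial Gq) := by
  have h : (1 : Polynomial Gq) = Polynomial.C (gm 0 0 1) := rfl
  rw [h]
  exact Lp_C (Lq_gm 0 0 1)

lemma Lp.pow {t : ℚ} {A : Polynomial Gq} (hA : Lp t A) (n : ℕ) : Lp (n * t) (A ^ n) := by
  induction n with
  | zero =>
    rw [pow_zero]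
    exact Lp_one.mono (by simp)
  | succ n ih =>
    rw [pow_succ]
    refine (ih.mul hA).mono (le_of_eq ?_)
    push_cast
    ring

/-- the point of `coP` -/
noncomputable def cpt : Fin 3 → Polynomial Gq :=
  ![Polynomial.C (gm (-1) 0 1) * Polynomial.X - Polynomial.C (gm 1 2 1),
    Polynomial.C (gm 1 0 1), Polynomial.C (gm 1 1 1)]

lemma coP_eq (F : P3) : coP F = aeval cpt F := rfl

lemma Lp_cpt (i : Fin 3) : Lp 1 (cpt i) := by
  fin_cases i
  · show Lp 1 (Polynomial.C (gm (-1) 0 1) * Polynomial.X - Polynomial.C (gm 1 2 1))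
    rw [sub_eq_add_neg]
    refine Lp.add (((Lp_C (Lq_gm (-1) 0 1)).mul Lp_X).mono (by norm_num)) ?_
    exact (Lp_C (Lq_gm 1 2 1)).neg
  · exact Lp_C (Lq_gm 1 0 1)
  · exact Lp_C (Lq_gm 1 1 1)

lemma algebraMap_eq (c : ℂ) :
    algebraMap ℂ (Polynomial Gq) c = Polynomial.C (gm 0 0 c) := rfl

lemma Lp_monomial (v : Fin 3 →₀ ℕ) (c : ℂ) : Lp (v.degree : ℚ) (aeval cpt (monomial v c)) := by
  rw [aeval_monomial, algebraMap_eq]
  have h1 : v.prod (fun i k => cpt i ^ k) = cpt 0 ^ v 0 * cpt 1 ^ v 1 * cpt 2 ^ v 2 := by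
    rw [Finsupp.prod_fintype _ _ (by intro i; exact pow_zero _), Fin.prod_univ_three]
  rw [h1]
  have h2 : (v.degree : ℚ) = v 0 + v 1 + v 2 := by
    rw [Finsupp.degree_eq_sum, Fin.sum_univ_three]
    push_cast
    ring
  rw [h2]
  have h3 := ((((Lp_cpt 0).pow (v 0)).mul ((Lp_cpt 1).pow (v 1))).mul ((Lp_cpt 2).pow (v 2)))
  refine ((Lp_C (Lq_gm 0 0 c)).mul h3).mono (le_of_eq ?_)
  ring

lemma Lp_homogeneous {G : P3} {n : ℕ} (hG : G.IsHomogeneous n) : Lp (n : ℚ) (coP G) := by
  rw [coP_eq, G.as_sum, map_sum]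
  apply Lp.sum
  intro v hv
  have h1 : v.degree = n := by
    have := hG (mem_support_iff.mp hv)
    rw [← this, Finsupp.degree_eq_weight_one]
    rfl
  rw [← h1]
  exact Lp_monomial v _

lemma coP_quad : coP quad = Polynomial.X := by
  rw [coP_eq, quad, map_add, map_mul, map_pow, aeval_X, aeval_X, aeval_X]
  show (Polynomial.C (gm (-1) 0 1) * Polynomial.X - Polynomial.C (gm 1 2 1)) *
    Polynomial.C (gm 1 0 1) + Polynomial.C (gm 1 1 1) ^ 2 = Polynomial.X
  have h1 : gm (-1) 0 1 * gm 1 0 1 = 1 := by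
    rw [gm, gm, AddMonoidAlgebra.single_mul_single, AddMonoidAlgebra.one_def]
    congr 1
    · simp
    · simp
  have h2 : gm 1 2 1 * gm 1 0 1 = gm 1 1 1 ^ 2 := by
    rw [pow_two, gm, gm, gm, AddMonoidAlgebra.single_mul_single,
      AddMonoidAlgebra.single_mul_single]
    congr 1
    simp
    norm_num
  have h3 : (Polynomial.C (gm (-1) 0 1) * Polynomial.X - Polynomial.C (gm 1 2 1)) *
    Polynomial.C (gm 1 0 1) + Polynomial.C (gm 1 1 1) ^ 2 =
    Polynomial.C (gm (-1) 0 1 * gm 1 0 1) * Polynomial.X -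
      Polynomial.C (gm 1 2 1 * gm 1 0 1) + Polynomial.C (gm 1 1 1 ^ 2) := by
    rw [map_mul, map_mul, map_pow]
    ring
  rw [h3, h1, h2, map_one]
  ring

/-- the shape of `coP F` -/
lemma shape {F : P3} {c : ℂ} {m : ℕ} (hc : c ≠ 0) (hF : top F = C c * quad ^ m) :
    ∃ R : Polynomial Gq, Lp (2 * m - 1) R ∧
      coP F = Polynomial.C (gm 0 0 c) * Polynomial.X ^ m + R := by
  have hq : (quad : P3).IsHomogeneous 2 := by
    have h1 : (X 0 * X 1 : P3).IsHomogeneous 2 := (isHomogeneous_X ℂ 0).mul (isHomogeneous_X ℂ 1)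
    have h2 : (X 2 ^ 2 : P3).IsHomogeneous 2 := by
      have := (isHomogeneous_X (R := ℂ) (2 : Fin 3)).pow 2
      simpa using this
    exact h1.add h2
  have hq0 : (quad : P3) ≠ 0 := by
    intro h
    have := coP_quad
    rw [h, coP_eq, map_zero] at this
    exact Polynomial.X_ne_zero this.symm
  have h1 : (C c * quad ^ m : P3).IsHomogeneous (2 * m) := by
    have h2 := (isHomogeneous_C (Fin 3) c).mul (hq.pow m)
    rwa [zero_add] at h2
  have h2 : (C c * quad ^ m : P3) ≠ 0 :=
    mul_ne_zero (by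
      rw [Ne, C_eq_zero]
      exact hc) (pow_ne_zero m hq0)
  have h3 : (top F).IsHomogeneous F.totalDegree := homogeneousComponent_isHomogeneous _ _
  rw [hF] at h3
  have h4 : F.totalDegree = 2 * m := h3.inj_right h1 h2
  refine ⟨∑ i ∈ Finset.range F.totalDegree, coP (homogeneousComponent i F), ?_, ?_⟩
  · apply Lp.sum
    intro i hi
    refine (Lp_homogeneous (homogeneousComponent_isHomogeneous i F)).mono ?_
    have h5 : i + 1 ≤ 2 * m := by
      rw [← h4]
      exact Finset.mem_range.mp hi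
    have h6 : (i : ℚ) + 1 ≤ 2 * m := by exact_mod_cast h5
    linarith
  · have h5 := sum_homogeneousComponent F
    rw [Finset.sum_range_succ] at h5
    have h6 : coP F = ∑ i ∈ Finset.range F.totalDegree, coP (homogeneousComponent i F) +
        coP (homogeneousComponent F.totalDegree F) := by
      conv_lhs => rw [← h5]
      rw [coP_eq, map_add, map_sum]
      rfl
    have h7 : coP (homogeneousComponent F.totalDegree F) =
        Polynomial.C (gm 0 0 c) * Polynomial.X ^ m := by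
      have h8 : homogeneousComponent F.totalDegree F = C c * quad ^ m := hF
      have h9 : aeval cpt quad = Polynomial.X := coP_quad
      rw [h8, coP_eq, map_mul, map_pow, h9, aeval_C]
      rfl
    rw [h6, h7, add_comm]

lemma v1_Th (h5 : SB5) {A : Gq} (hA : A ≠ 0) : ∃ e ∈ A.coeff.support,
    v1 (Th il A) = ((-e.1 : ℚ) : WithTop ℚ) ∧ ∀ e' ∈ A.coeff.support, e'.1 ≤ e.1 := by
  obtain ⟨e, he, h1, h2⟩ := (h5 LX exL A).2.2 hA
  refine ⟨e, he, h1.val1, ?_⟩
  intro e' he'
  have h3 : lfst (il e) ≤ lfst (il e') := lfst_mono (h2 e' he')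
  have h4 : (-e.1 : ℚ) ≤ -e'.1 := h3
  linarith

lemma v1_ge (h5 : SB5) {A : Gq} {t : ℚ} (ht : Lq t A) (hA : A ≠ 0) :
    ((-t : ℚ) : WithTop ℚ) ≤ v1 (Th il A) := by
  obtain ⟨e, he, h1, -⟩ := v1_Th h5 hA
  rw [h1]
  have h2 := ht e (Finsupp.mem_support_iff.mp he)
  have h3 : (-t : ℚ) ≤ -e.1 := by linarith
  exact_mod_cast h3

lemma v1_le (h5 : SB5) {A : Gq} {e : ℚ × ℚ} (he : e ∈ A.coeff.support) :
    v1 (Th il A) ≤ ((-e.1 : ℚ) : WithTop ℚ) := by
  have hA : A ≠ 0 := by
    rintro rfl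
    simp at he
  obtain ⟨e0, he0, h1, h2⟩ := v1_Th h5 hA
  rw [h1]
  have h3 : (-e0.1 : ℚ) ≤ -e.1 := by linarith [h2 e he]
  exact_mod_cast h3

lemma Th_inj (h5 : SB5) {A : Gq} (hA : A ≠ 0) : Th il A ≠ 0 := by
  obtain ⟨e, he, h1, -⟩ := (h5 LX exL A).2.2 hA
  exact h1.ne_zero

end ItemH2

open ItemH2 in
theorem h2 (h1 : SB1) (h4 : SB4) (h5 : SB5) (hg : SFg) (hd : SD5) : SH2 := by
  intro p F hF c m hc hm htop j0 e he
  by_contra hpos
  push Not at hpos
  obtain ⟨R, hR, hP⟩ := shape hc htop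
  -- the coefficients
  have hB : ∀ j, j ≠ m → Lq (2 * m - 1 - 2 * j) ((coP F).coeff j) := by
    intro j hj
    rw [hP, Polynomial.coeff_add, Polynomial.coeff_C_mul, Polynomial.coeff_X_pow, if_neg hj,
      mul_zero, zero_add]
    exact hR j
  have hBm : (coP F).coeff m = gm 0 0 c + R.coeff m := by
    rw [hP, Polynomial.coeff_add, Polynomial.coeff_C_mul, Polynomial.coeff_X_pow, if_pos rfl,
      mul_one]
  have hRm : Lq (-1) (R.coeff m) := (hR m).mono (by linarith)
  have hBm0 : Lq 0 ((coP F).coeff m) := by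
    rw [hBm]
    exact (Lq_gm 0 0 c).add (hRm.mono (by norm_num))
  have hc0 : (0, 0) ∈ ((coP F).coeff m).coeff.support := by
    rw [Finsupp.mem_support_iff, hBm, AddMonoidAlgebra.coeff_add, Finsupp.add_apply]
    have h6 : (R.coeff m).coeff (0, 0) = 0 := by
      by_contra h
      have := hRm _ h
      norm_num at this
    rw [h6, add_zero, gm, AddMonoidAlgebra.coeff_single, Finsupp.single_eq_same]
    exact hc
  have hne : ∀ {j : ℕ} {e : ℚ × ℚ}, e ∈ ((coP F).coeff j).coeff.support → (coP F).coeff j ≠ 0 := by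
    intro j e he h
    rw [h] at he
    simp at he
  -- the value of the leading coefficient
  have hvm : v1 (Th il ((coP F).coeff m)) = ((0 : ℚ) : WithTop ℚ) := by
    apply le_antisymm
    · have := v1_le h5 hc0
      simpa using this
    · have := v1_ge h5 hBm0 (hne hc0)
      simpa using this
  have hj0 : j0 < m := by
    by_contra hlt
    have h6 := Finsupp.mem_support_iff.mp he
    rcases eq_or_ne j0 m with h7 | h7
    · subst h7
      exact absurd (hBm0 e h6) (not_le.mpr hpos)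
    · have h8 := hB j0 h7 e h6
      have h9 : (m : ℚ) ≤ j0 := by exact_mod_cast (not_lt.mp hlt)
      linarith
  have hcoeff : ∀ j, (PT il (coP F)).coeff j = Th il ((coP F).coeff j) := by
    intro j
    rw [PT, Polynomial.coeff_map]
    rfl
  have : IsAlgClosed (Hn LX) := h1 LX
  obtain ⟨r, hr, hr1, hr2⟩ := h4 (Hn LX) ℚ v1 (PT il (coP F)) m j0 (-2) 0 (by norm_num)
    (by
      rw [hcoeff]
      exact Th_inj h5 (hne hc0)) hj0
    (by
      intro j hj
      rw [hcoeff, hcoeff]
      by_cases h0 : (coP F).coeff j = 0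
      · right
        rw [h0, map_zero]
      · left
        rw [hvm]
        have h6 := v1_ge h5 (hB j hj) h0
        obtain ⟨e1, he1, h7, -⟩ := v1_Th h5 h0
        rw [h7] at h6 ⊢
        have h8 : (-(2 * m - 1 - 2 * j) : ℚ) ≤ -e1.1 := by exact_mod_cast h6
        have h9 : (0 : ℚ) + m • (-2 : ℚ) < -e1.1 + j • (-2 : ℚ) := by
          rw [nsmul_eq_mul, nsmul_eq_mul]
          linarith
        exact_mod_cast h9)
    (by
      intro j hj
      rw [hcoeff, hcoeff]
      by_cases h0 : (coP F).coeff j = 0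
      · right
        rw [h0, map_zero]
      · left
        obtain ⟨e1, he1, h7, -⟩ := v1_Th h5 h0
        obtain ⟨e2, he2, h8, h9⟩ := v1_Th h5 (hne he)
        rw [h7, h8]
        have h10 : e1.1 ≤ 0 := by
          have h11 := Finsupp.mem_support_iff.mp he1
          rcases eq_or_ne j m with h12 | h12
          · subst h12
            exact hBm0 e1 h11
          · have h13 := hB j h12 e1 h11
            have h14 : (m : ℚ) ≤ j := by exact_mod_cast hj
            linarith
        have h11 : (-e2.1 : ℚ) + j0 • (0 : ℚ) < -e1.1 + j • (0 : ℚ) := by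
          rw [smul_zero, smul_zero]
          have := h9 e he
          linarith
        exact_mod_cast h11)
  -- the value of the root
  have hr3 : ∃ t : ℚ, v1 r = (t : WithTop ℚ) := by
    rcases hv : v1 r with _ | t
    · rw [hv] at hr2
      exact absurd hr2 (not_lt.mpr le_top)
    · exact ⟨t, rfl⟩
  obtain ⟨t, ht⟩ := hr3
  rw [ht] at hr1 hr2
  have ht1 : -2 < t := by exact_mod_cast hr1
  have ht2 : t < 0 := by exact_mod_cast hr2
  exact hd p hF.p0 r t ht1 ht2 ht ((hg p F hF LX exL).2.2 r hr)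

end Pool.Agent.Work.MP_157c12_gt
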