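import Pool.Agent.Work.MP_157c12_gt.Bd.B02
import Pool.Agent.Work.MP_157c12_gt.ItemA4
import Pool.Agent.Work.MP_157c12_gt.ItemA5
import Pool.Agent.Work.MP_157c12_gt.ItemB1
import Pool.Agent.Work.MP_157c12_gt.ItemB4
import Pool.Agent.Work.MP_157c12_gt.Bd.B07
import Pool.Agent.Work.MP_157c12_gt.ItemC4
import Pool.Agent.Work.MP_157c12_gt.Bd.B03
import Pool.Agent.Work.MP_157c12_gt.ItemD4
import Pool.Agent.Work.MP_157c12_gt.ItemE2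
import Pool.Agent.Work.MP_157c12_gt.Bd.B06
import Pool.Agent.Work.MP_157c12_gt.ItemGS2
import Pool.Agent.Work.MP_157c12_gt.ItemGS6
import Pool.Agent.Work.MP_157c12_gt.ItemGS7
import Pool.Agent.Work.MP_157c12_gt.Bd.B08
import Pool.Agent.Work.MP_157c12_gt.ItemH2

/-!
# Algebraic surfaces of finite type: assembly
-/

open scoped Manifold ContDiff

namespace Pool.Agent.Work.MP_157c12_gt

theorem pA1 : SA1 := a1 a1a
theorem pA3 : SA3 := a3 a2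
theorem pC5 : SC5 := c5 c1 c2 c4
theorem pD1 : SD1 := d1 c1
theorem pD2 : SD2 := d2 c1 c2 c3
theorem pD3 : SD3 := d3 c1
theorem pD4 : SD4 := d4 pC5
theorem pD5 : SD5 := d5 c1 pC5
theorem pE2 : SE2 := thmE2 b1 b3 b5
theorem pE3 : SE3 := e3 b5
theorem pE4 : SE4 := e4 b1 b3 b5
theorem pF0 : SF0 := f0 pA3 b6 b5 e6
theorem pFg : SFg := fg pA3 b6 e6
theorem pF1a : SF1a := f1a b1 b2 b5 pE3 e6
theorem pF1b : SF1b := f1b e1 pE2 pE4 e5 pF0 pFg pD3 pD4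
theorem pF1 : SF1 := f1 pE2 pF0 pFg pD1 pF1a pF1b
theorem pF2 : SF2 := f2 b5 e1 pE2 pE3 pE4 e5 e6 pF0 pFg pD1 pD2 pF1
theorem pF3 : SF3 := f3 pF0 pF2
theorem pG : SG := gII a4 a5 b1 b3 pF0 pFg pD1
theorem pH2 : SH2 := h2 b1 b4 b5 pFg pD5
theorem pAlg : SAlg := alg a4 pG pF3 hH1 pH2 hH3

theorem pGS2 : GS2 := gs2 gs1
theorem pGS3 : GS3 := gs3 gs1 pGS2
theorem pGS4 : GS4 := gs4 a2
theorem pGS6 : GS6 := gs6 gs1 pGS4
theorem pGS7 : GS7 := gs7 pA1 gs1 pGS4 pGS6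
theorem pGS8 : GS8 := gs8 gs5 pGS7 pAlg
theorem pGM1 : GM1 := gm1 gm2
theorem pGM3 : GM3 := gm3 gh1 gh2 pGM1 gm2
theorem pGM5 : GM5 := gm5 pGS8 gs9 pGS3 pGM1 gm2 pGM3 gm4
theorem pGMain : GMain := gmain pGM5

end Pool.Agent.Work.MP_157c12_gt
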