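import Mathlib

/-!
# Immersions of finite type: definitions

The Laplace operator of the metric induced by an immersion, in charts, and immersions of finite
type.
-/

open scoped Manifold ContDiff

namespace Pool.Agent.Work.MP_157c12_gt

/-- Euclidean space -/
abbrev E (n : ℕ) : Type := EuclideanSpace ℝ (Fin n)

/-- smooth immersion of a manifold `M` modelled on `V` into `W` -/
def SmoothImmersion {V W M : Type*} [NormedAddCommGroup V] [NormedSpace ℝ V]
    [NormedAddCommGroup W] [NormedSpace ℝ W] [TopologicalSpace M] [ChartedSpace V M]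
    (x : M → W) : Prop :=
  ContMDiff 𝓘(ℝ, V) 𝓘(ℝ, W) ∞ x ∧ ∀ p, Function.Injective (mfderiv 𝓘(ℝ, V) 𝓘(ℝ, W) x p)

/-- partial derivative of a real function -/
noncomputable def pd {n : ℕ} (i : Fin n) (f : E n → ℝ) (p : E n) : ℝ :=
  fderiv ℝ f p (EuclideanSpace.single i 1)

/-- first fundamental form of `X : E n → E m` -/
noncomputable def gram {n m : ℕ} (X : E n → E m) (p : E n) : Matrix (Fin n) (Fin n) ℝ :=
  Matrix.of fun i j => ∑ a, pd i (fun q => X q a) p * pd j (fun q => X q a) p

/-- Laplace operator of the metric induced by `X` on a function `f` -/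
noncomputable def lap {n m : ℕ} (X : E n → E m) (f : E n → ℝ) (p : E n) : ℝ :=
  (√(gram X p).det)⁻¹ *
    ∑ i, pd i (fun q => √(gram X q).det * ∑ j, (gram X q)⁻¹ i j * pd j f q) p

section Manifold

variable {n : ℕ} {M : Type*} [TopologicalSpace M] [ChartedSpace (E n) M]

/-- `Δ f = l f` for the metric induced by `x`, in every chart of the atlas -/
def LapEq {m : ℕ} (x : M → E m) (f : M → ℝ) (l : ℝ) : Prop :=
  ∀ φ ∈ atlas (E n) M, ∀ p ∈ φ.target,
    lap (fun q => x (φ.symm q)) (fun q => f (φ.symm q)) p = l * f (φ.symm p)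

/-- `x` is of finite type: a constant vector plus finitely many non-constant smooth eigenvectors
of the Laplace operator of the induced metric -/
def FiniteType {m : ℕ} (x : M → E m) : Prop :=
  ∃ (c : E m) (k : ℕ) (y : Fin k → M → E m) (l : Fin k → ℝ),
    (∀ i, ContMDiff 𝓘(ℝ, E n) 𝓘(ℝ, E m) ∞ (y i)) ∧
    (∀ i, ∃ p q, y i p ≠ y i q) ∧
    (∀ p, x p = c + ∑ i, y i p) ∧
    ∀ i a, LapEq (n := n) x (fun p => y i p a) (l i)

end Manifold

end Pool.Agent.Work.MP_157c12_gt
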