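import Pool.Agent.Work.MP_157c12_gt.Stmts
import Pool.Agent.Work.MP_157c12_gt.Surf

/-!
# Geometry: definitions and the ring of smooth functions on an open set of the plane
-/

open MvPolynomial TopologicalSpace
open scoped Manifold ContDiff

namespace Pool.Agent.Work.MP_157c12_gt

/-! ### the ring of smooth complex functions on an open set of the plane -/

/-- extension by zero -/
noncomputable def ext0 (O : Opens (E 2)) (f : O → ℂ) (p : E 2) : ℂ :=
  open Classical in if h : p ∈ O then f ⟨p, h⟩ else 0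

lemma ext0_of_mem {O : Opens (E 2)} (f : O → ℂ) {p : E 2} (h : p ∈ O) : ext0 O f p = f ⟨p, h⟩ := by
  rw [ext0, dif_pos h]

/-- smooth complex functions on `O` -/
def RO (O : Opens (E 2)) : Subalgebra ℂ (O → ℂ) where
  carrier := {f | ContDiffOn ℝ ∞ (ext0 O f) O}
  mul_mem' := by
    intro f g hf hg
    refine (ContDiffOn.mul hf hg).congr ?_
    intro p hp
    rw [ext0_of_mem _ hp]
    show f _ * g _ = ext0 O f p * ext0 O g p
    rw [ext0_of_mem f hp, ext0_of_mem g hp]
  add_mem' := by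
    intro f g hf hg
    refine (ContDiffOn.add hf hg).congr ?_
    intro p hp
    rw [ext0_of_mem _ hp]
    show f _ + g _ = ext0 O f p + ext0 O g p
    rw [ext0_of_mem f hp, ext0_of_mem g hp]
  algebraMap_mem' := by
    intro c
    refine (contDiffOn_const (c := c)).congr ?_
    intro p hp
    rw [ext0_of_mem _ hp]
    rfl

/-- value at a point of `O`, extended by zero -/
noncomputable def evO {O : Opens (E 2)} (f : RO O) : E 2 → ℂ := ext0 O f.1

lemma smooth_evO {O : Opens (E 2)} (f : RO O) : ContDiffOn ℝ ∞ (evO f) O := f.2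

/-- restriction of a smooth function to `O` -/
noncomputable def mkRO {O : Opens (E 2)} (f : E 2 → ℂ) (hf : ContDiffOn ℝ ∞ f O) : RO O :=
  ⟨fun p => f p.1, by
    refine hf.congr ?_
    intro p hp
    rw [ext0_of_mem _ hp]⟩

lemma mkRO_evO {O : Opens (E 2)} (f : E 2 → ℂ) (hf : ContDiffOn ℝ ∞ f O) {p : E 2} (hp : p ∈ O) :
    evO (mkRO f hf) p = f p := by
  rw [evO, ext0_of_mem _ hp]
  rfl

lemma ext_evO {O : Opens (E 2)} {f g : RO O} (h : ∀ p ∈ O, evO f p = evO g p) : f = g := by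
  apply Subtype.ext
  funext p
  have := h p.1 p.2
  rw [evO, evO, ext0_of_mem _ p.2, ext0_of_mem _ p.2] at this
  exact this

lemma mul_evO {O : Opens (E 2)} (f g : RO O) {p : E 2} (hp : p ∈ O) :
    evO (f * g) p = evO f p * evO g p := by
  rw [evO, evO, evO, ext0_of_mem _ hp, ext0_of_mem _ hp, ext0_of_mem _ hp]
  rfl

lemma add_evO {O : Opens (E 2)} (f g : RO O) {p : E 2} (hp : p ∈ O) :
    evO (f + g) p = evO f p + evO g p := by
  rw [evO, evO, evO, ext0_of_mem _ hp, ext0_of_mem _ hp, ext0_of_mem _ hp]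
  rfl

lemma sub_evO {O : Opens (E 2)} (f g : RO O) {p : E 2} (hp : p ∈ O) :
    evO (f - g) p = evO f p - evO g p := by
  rw [evO, evO, evO, ext0_of_mem _ hp, ext0_of_mem _ hp, ext0_of_mem _ hp]
  rfl

lemma algebraMap_evO {O : Opens (E 2)} (c : ℂ) {p : E 2} (hp : p ∈ O) :
    evO (algebraMap ℂ (RO O) c) p = c := by
  rw [evO, ext0_of_mem _ hp]
  rfl

lemma zero_evO {O : Opens (E 2)} {p : E 2} (hp : p ∈ O) : evO (0 : RO O) p = 0 := by
  rw [evO, ext0_of_mem _ hp]
  rfl

lemma one_evO {O : Opens (E 2)} {p : E 2} (hp : p ∈ O) : evO (1 : RO O) p = 1 := by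
  rw [evO, ext0_of_mem _ hp]
  rfl

/-- evaluation at a point is a homomorphism -/
noncomputable def evH {O : Opens (E 2)} {p : E 2} (hp : p ∈ O) : RO O →ₐ[ℂ] ℂ :=
  (Pi.evalAlgHom ℂ (fun _ : O => ℂ) ⟨p, hp⟩).comp (RO O).val

lemma evH_apply {O : Opens (E 2)} {p : E 2} (hp : p ∈ O) (f : RO O) : evH hp f = evO f p := by
  rw [evO, ext0_of_mem _ hp]
  rfl

/-- coordinate vector -/
noncomputable def e2 (i : Fin 2) : E 2 := EuclideanSpace.single i 1

lemma fderiv_smooth {O : Opens (E 2)} {f : E 2 → ℂ} (hf : ContDiffOn ℝ ∞ f O) (v : E 2) :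
    ContDiffOn ℝ ∞ (fun p => fderiv ℝ f p v) O := by
  have h := hf.fderiv_of_isOpen O.isOpen (m := ∞) (by simp)
  exact h.clm_apply contDiffOn_const

lemma diffAt_evO {O : Opens (E 2)} (f : RO O) {p : E 2} (hp : p ∈ O) :
    DifferentiableAt ℝ (evO f) p :=
  ((smooth_evO f).contDiffAt (O.isOpen.mem_nhds hp)).differentiableAt (by simp)

/-- the partial derivatives as derivations -/
noncomputable def dO (O : Opens (E 2)) (i : Fin 2) : Derivation ℂ (RO O) (RO O) where
  toFun := fun f => mkRO (fun p => fderiv ℝ (evO f) p (e2 i)) (fderiv_smooth (smooth_evO f) _)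
  map_add' := by
    intro f g
    apply ext_evO
    intro p hp
    rw [add_evO _ _ hp, mkRO_evO _ _ hp, mkRO_evO _ _ hp, mkRO_evO _ _ hp]
    have h : evO (f + g) =ᶠ[nhds p] fun q => evO f q + evO g q :=
      Filter.eventually_of_mem (O.isOpen.mem_nhds hp) fun q hq => add_evO f g hq
    rw [h.fderiv_eq, fderiv_fun_add (diffAt_evO f hp) (diffAt_evO g hp)]
    rfl
  map_smul' := by
    intro c f
    apply ext_evO
    intro p hp
    have e1 : ∀ g : RO O, ∀ q ∈ O, evO (c • g) q = c * evO g q := by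
      intro g q hq
      rw [Algebra.smul_def, mul_evO _ _ hq, algebraMap_evO c hq]
    rw [RingHom.id_apply, e1 _ p hp, mkRO_evO _ _ hp, mkRO_evO _ _ hp]
    have h : evO (c • f) =ᶠ[nhds p] fun q => c * evO f q :=
      Filter.eventually_of_mem (O.isOpen.mem_nhds hp) fun q hq => e1 f q hq
    rw [h.fderiv_eq, fderiv_const_mul (diffAt_evO f hp)]
    rfl
  map_one_eq_zero' := by
    apply ext_evO
    intro p hp
    show evO (mkRO (fun p => fderiv ℝ (evO (1 : RO O)) p (e2 i))
      (fderiv_smooth (smooth_evO _) _)) p = _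
    rw [mkRO_evO _ _ hp, zero_evO hp]
    have h : evO (1 : RO O) =ᶠ[nhds p] fun _ => (1 : ℂ) :=
      Filter.eventually_of_mem (O.isOpen.mem_nhds hp) fun q hq => one_evO hq
    rw [h.fderiv_eq]
    simp
  leibniz' := by
    intro f g
    apply ext_evO
    intro p hp
    show evO (mkRO (fun p => fderiv ℝ (evO (f * g)) p (e2 i)) (fderiv_smooth (smooth_evO _) _)) p =
      evO (f * mkRO (fun p => fderiv ℝ (evO g) p (e2 i)) (fderiv_smooth (smooth_evO g) _) +
        g * mkRO (fun p => fderiv ℝ (evO f) p (e2 i)) (fderiv_smooth (smooth_evO f) _)) p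
    rw [mkRO_evO _ _ hp, add_evO _ _ hp, mul_evO _ _ hp, mul_evO _ _ hp, mkRO_evO _ _ hp,
      mkRO_evO _ _ hp]
    have h : evO (f * g) =ᶠ[nhds p] fun q => evO f q * evO g q :=
      Filter.eventually_of_mem (O.isOpen.mem_nhds hp) fun q hq => mul_evO f g hq
    rw [h.fderiv_eq, fderiv_fun_mul (diffAt_evO f hp) (diffAt_evO g hp)]
    simp

lemma dO_evO {O : Opens (E 2)} (i : Fin 2) (f : RO O) {p : E 2} (hp : p ∈ O) :
    evO (dO O i f) p = fderiv ℝ (evO f) p (e2 i) := mkRO_evO _ _ hp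

lemma dO_comm (O : Opens (E 2)) (i j : Fin 2) (f : RO O) : dO O i (dO O j f) = dO O j (dO O i f) := by
  apply ext_evO
  intro p hp
  rw [dO_evO _ _ hp, dO_evO _ _ hp]
  have h1 : ∀ k : Fin 2, evO (dO O k f) =ᶠ[nhds p] fun q => fderiv ℝ (evO f) q (e2 k) := fun k =>
    Filter.eventually_of_mem (O.isOpen.mem_nhds hp) fun q hq => dO_evO k f hq
  rw [(h1 i).fderiv_eq, (h1 j).fderiv_eq]
  have hc : ContDiffAt ℝ ∞ (evO f) p := (smooth_evO f).contDiffAt (O.isOpen.mem_nhds hp)
  have hd : DifferentiableAt ℝ (fderiv ℝ (evO f)) p := by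
    have := ((smooth_evO f).fderiv_of_isOpen O.isOpen (m := ∞) (by simp)).contDiffAt
      (O.isOpen.mem_nhds hp)
    exact this.differentiableAt (by simp)
  have hs : IsSymmSndFDerivAt ℝ (evO f) p := hc.isSymmSndFDerivAt (by
    simp only [minSmoothness_of_isRCLikeNormedField]
    exact WithTop.coe_le_coe.mpr le_top)
  have h2 : ∀ k : Fin 2, ∀ v, fderiv ℝ (fun q => fderiv ℝ (evO f) q (e2 k)) p v =
      fderiv ℝ (fderiv ℝ (evO f)) p v (e2 k) := by
    intro k v
    rw [fderiv_clm_apply hd (differentiableAt_const _)]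
    simp
  rw [h2, h2]
  exact hs _ _

end Pool.Agent.Work.MP_157c12_gt
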