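import Pool.Agent.Work.MP_157c12_gt.Stmts

/-!
# E2: for an irrational slope there is a root of smallest weight
-/

open MvPolynomial

namespace Pool.Agent.Work.MP_157c12_gt

namespace ItemE2

section Hahn

variable {Γ : Type} [AddCommGroup Γ] [LinearOrder Γ] [IsOrderedAddMonoid Γ]

lemma lt_vv {f : Hn Γ} {α : Γ} (h : (α : WithTop Γ) ≤ vv Γ f) (h0 : f.coeff α = 0) :
    (α : WithTop Γ) < vv Γ f := by
  refine lt_of_le_of_ne h fun he => ?_
  exact (lead_of_vv he.symm).1 h0

lemma coeff_mul_add {f g : Hn Γ} {α β : Γ} (hf : (α : WithTop Γ) ≤ vv Γ f)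
    (hg : (β : WithTop Γ) ≤ vv Γ g) : (f * g).coeff (α + β) = f.coeff α * g.coeff β := by
  by_cases h1 : f.coeff α = 0
  · rw [h1, zero_mul]
    apply coeff_eq_zero_of_lt_vv
    rw [AddValuation.map_mul, WithTop.coe_add]
    exact WithTop.add_lt_add_of_lt_of_le WithTop.coe_ne_top (lt_vv hf h1) hg
  · by_cases h2 : g.coeff β = 0
    · rw [h2, mul_zero]
      apply coeff_eq_zero_of_lt_vv
      rw [AddValuation.map_mul, WithTop.coe_add]
      exact WithTop.add_lt_add_of_le_of_lt WithTop.coe_ne_top hf (lt_vv hg h2)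
    · have l1 : Lead f α (f.coeff α) := ⟨h1, rfl, fun γ' hγ' => coeff_eq_zero_of_lt_vv
        (lt_of_lt_of_le (by exact_mod_cast hγ') hf)⟩
      have l2 : Lead g β (g.coeff β) := ⟨h2, rfl, fun γ' hγ' => coeff_eq_zero_of_lt_vv
        (lt_of_lt_of_le (by exact_mod_cast hγ') hg)⟩
      exact (l1.mul l2).2.1

end Hahn

/-- the polynomial for the leading coefficient -/
noncomputable def RR (P : Polynomial Gq) (e0 e : ℚ × ℚ) : Polynomial ℂ :=
  ∑ j ∈ Finset.range (P.natDegree + 1),
    Polynomial.C ((P.coeff j).coeff (e0 - j • e)) * Polynomial.X ^ j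

lemma RR_ne {P : Polynomial Gq} {e0 : ℚ × ℚ} (h : (P.coeff 0).coeff e0 ≠ 0) (e : ℚ × ℚ) :
    RR P e0 e ≠ 0 := by
  intro h0
  have h1 : (RR P e0 e).coeff 0 = (P.coeff 0).coeff e0 := by
    unfold RR
    rw [Polynomial.finsetSum_coeff, Finset.sum_eq_single 0]
    · simp
    · intro j _ hj
      simp [Polynomial.coeff_X_pow, hj.symm]
    · intro h
      simp at h
  rw [h0] at h1
  simp at h1
  exact h h1.symm

lemma wt_eq {a : ℝ} {A : Gq} {e : ℚ × ℚ} (he : e ∈ A.coeff.support)
    (h : ∀ e' ∈ A.coeff.support, ia a e ≤ ia a e') : wt a A = (e.1 : ℝ) * a + e.2 := by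
  unfold wt
  rw [dif_pos ⟨e, he⟩]
  apply le_antisymm
  · apply Finset.sup'_le
    intro e' he'
    have := h e' he'
    have h2 : (-((e.1 : ℝ) * a + e.2) : ℝ) ≤ -((e'.1 : ℝ) * a + e'.2) := this
    linarith
  · exact Finset.le_sup' (fun e : ℚ × ℚ => (e.1 : ℝ) * a + e.2) he

/-- exponents -/
noncomputable def SS (P : Polynomial Gq) : Finset (ℚ × ℚ) := by
  classical
  exact (P.coeff 0).coeff.support.biUnion fun e0 => P.support.biUnion fun i =>
    (P.coeff i).coeff.support.image fun e' => ((i : ℚ)⁻¹) • (e0 - e')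

/-- leading coefficients -/
noncomputable def TT (P : Polynomial Gq) : Finset ℂ := by
  classical
  exact (P.coeff 0).coeff.support.biUnion fun e0 => (SS P).biUnion fun e =>
    (RR P e0 e).roots.toFinset

end ItemE2

open ItemE2 in
/-- for an irrational slope there is a root of smallest weight -/
theorem thmE2 (h1 : SB1) (h3 : SB3) (h5 : SB5) : SE2 := by
  classical
  intro P hP0 hPd
  refine ⟨SS P, TT P, ?_⟩
  intro a ha
  have hio := exA_io ha
  have : IsAlgClosed (Hn RA) := h1 RA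
  have h5' : ∀ A : Gq, (∀ e, (Th (ia a) A).coeff (ia a e) = A.coeff e) ∧
      (A ≠ 0 → ∃ e ∈ A.coeff.support, Lead (Th (ia a) A) (ia a e) (A.coeff e) ∧
        ∀ e' ∈ A.coeff.support, ia a e ≤ ia a e') := by
    intro A
    obtain ⟨b1, -, b3⟩ := h5 RA (exA ha) A
    rw [hio] at b1 b3
    exact ⟨b1, b3⟩
  have hinj : Function.Injective (Th (ia a)).toRingHom := by
    rw [injective_iff_map_eq_zero]
    intro A hA
    by_contra hne
    obtain ⟨e, -, hl, -⟩ := (h5' A).2 hne
    exact hl.ne_zero hA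
  have hcoef : ∀ j, (PT (ia a) P).coeff j = Th (ia a) (P.coeff j) := fun j =>
    Polynomial.coeff_map _ _
  have hdeg : (PT (ia a) P).natDegree = P.natDegree :=
    Polynomial.natDegree_map_eq_of_injective hinj P
  obtain ⟨e0, he0, l0, m0⟩ := (h5' (P.coeff 0)).2 hP0
  obtain ⟨r, hr, hr0, hrle, i, hi, hieq⟩ := h3 (Hn RA) RA (vv RA) (PT (ia a) P)
    (by rw [hcoef]; exact l0.ne_zero) (by rw [hdeg]; exact hPd)
  simp only [hcoef] at hrle hieq
  obtain ⟨γ, c, lr⟩ := lead_exists hr0
  have hPi : P.coeff i ≠ 0 := by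
    intro h
    rw [h, map_zero, zero_mul, AddValuation.map_zero, l0.val] at hieq
    exact WithTop.coe_ne_top hieq.symm
  obtain ⟨ei, hei, li, mi⟩ := (h5' (P.coeff i)).2 hPi
  have hγi : ia a ei + i • γ = ia a e0 := by
    have h := (li.mul (lr.pow i)).val
    rw [hieq, l0.val] at h
    exact_mod_cast h.symm
  set e : ℚ × ℚ := ((i : ℚ)⁻¹) • (e0 - ei) with he
  have hi0 : (i : ℚ) ≠ 0 := by
    have : i ≠ 0 := by omega
    exact_mod_cast this
  have hie : i • e = e0 - ei := by
    rw [he, ← Nat.cast_smul_eq_nsmul ℚ, smul_smul, mul_inv_cancel₀ hi0, one_smul]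
  have hγ : γ = ia a e := by
    have h : i • γ = i • ia a e := by
      rw [← map_nsmul, hie, map_sub, ← hγi]
      abel
    exact nsmul_right_injective (by omega : i ≠ 0) h
  rw [hγ] at lr
  have heS : e ∈ SS P := by
    unfold SS
    simp only [Finset.mem_biUnion, Finset.mem_image]
    exact ⟨e0, he0, i, Polynomial.mem_support_iff.2 hPi, ei, hei, rfl⟩
  -- the weights
  have hw : ∀ j, P.coeff j ≠ 0 → (j : ℝ) * ((e.1 : ℝ) * a + e.2) ≤
      wt a (P.coeff 0) - wt a (P.coeff j) := by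
    intro j hj
    obtain ⟨ej, hej, lj, mj⟩ := (h5' (P.coeff j)).2 hj
    rw [wt_eq he0 m0, wt_eq hej mj]
    have h := hrle j
    rw [l0.val, (lj.mul (lr.pow j)).val] at h
    have h' : ia a e0 ≤ ia a ej + j • ia a e := by exact_mod_cast h
    rw [← map_nsmul] at h'
    have h'' : (-((e0.1 : ℝ) * a + e0.2) : ℝ) ≤ -((ej.1 : ℝ) * a + ej.2) +
        -((((j • e).1 : ℚ) : ℝ) * a + ((j • e).2 : ℚ)) := h'
    have q1 : ((j • e).1 : ℚ) = (j : ℚ) * e.1 := by rw [Prod.smul_fst, nsmul_eq_mul]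
    have q2 : ((j • e).2 : ℚ) = (j : ℚ) * e.2 := by rw [Prod.smul_snd, nsmul_eq_mul]
    rw [q1, q2] at h''
    push_cast at h''
    linarith
  have hwi : (i : ℝ) * ((e.1 : ℝ) * a + e.2) = wt a (P.coeff 0) - wt a (P.coeff i) := by
    rw [wt_eq he0 m0, wt_eq hei mi]
    have h1 : (i : ℚ) * e.1 = e0.1 - ei.1 := by
      have := congrArg Prod.fst hie
      simpa using this
    have h2 : (i : ℚ) * e.2 = e0.2 - ei.2 := by
      have := congrArg Prod.snd hie
      simpa using this
    have h1' : (i : ℝ) * (e.1 : ℝ) = e0.1 - ei.1 := by exact_mod_cast h1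
    have h2' : (i : ℝ) * (e.2 : ℝ) = e0.2 - ei.2 := by exact_mod_cast h2
    linear_combination a * h1' + h2'
  have hsupp : i ∈ P.support.erase 0 :=
    Finset.mem_erase.2 ⟨by omega, Polynomial.mem_support_iff.2 hPi⟩
  have hsm : (e.1 : ℝ) * a + e.2 = sm P a := by
    unfold sm
    rw [dif_pos ⟨i, hsupp⟩]
    apply le_antisymm
    · apply Finset.le_inf'
      intro j hj
      obtain ⟨hj0, hj⟩ := Finset.mem_erase.1 hj
      have hjpos : (0 : ℝ) < j := by exact_mod_cast Nat.pos_of_ne_zero hj0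
      rw [le_div_iff₀ hjpos, mul_comm]
      exact hw j (Polynomial.mem_support_iff.1 hj)
    · have hipos : (0 : ℝ) < i := by exact_mod_cast hi
      refine (Finset.inf'_le (fun i : ℕ => (wt a (P.coeff 0) - wt a (P.coeff i)) / i) hsupp).trans
        (le_of_eq ?_)
      rw [div_eq_iff hipos.ne', ← hwi]
      ring
  -- the leading coefficient
  have hcT : c ∈ TT P := by
    unfold TT
    simp only [Finset.mem_biUnion]
    refine ⟨e0, he0, e, heS, ?_⟩
    rw [Multiset.mem_toFinset, Polynomial.mem_roots (RR_ne (Finsupp.mem_support_iff.1 he0) e)]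
    change Polynomial.eval c (RR P e0 e) = 0
    have hsum : ∑ j ∈ Finset.range (P.natDegree + 1),
        (Th (ia a) (P.coeff j) * r ^ j).coeff (ia a e0) = 0 := by
      have h := hr
      rw [Polynomial.eval_eq_sum_range, hdeg] at h
      simp only [hcoef] at h
      have h' := congrArg (fun f : Hn RA => f.coeff (ia a e0)) h
      simp only [HahnSeries.coeff_zero] at h'
      rw [← h', HahnSeries.coeff_sum]
    rw [← hsum]
    unfold RR
    rw [Polynomial.eval_finsetSum]
    refine Finset.sum_congr rfl fun j _ => ?_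
    rw [Polynomial.eval_mul, Polynomial.eval_C, Polynomial.eval_pow, Polynomial.eval_X]
    have hsplit : ia a e0 = ia a (e0 - j • e) + j • ia a e := by
      rw [map_sub, map_nsmul]
      abel
    rw [hsplit, coeff_mul_add, (h5' (P.coeff j)).1, (lr.pow j).2.1]
    · by_cases hj : P.coeff j = 0
      · rw [hj, map_zero, AddValuation.map_zero]
        exact le_top
      · obtain ⟨ej, hej, lj, mj⟩ := (h5' (P.coeff j)).2 hj
        have h := hrle j
        rw [l0.val, (lj.mul (lr.pow j)).val] at h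
        have h' : ia a e0 ≤ ia a ej + j • ia a e := by exact_mod_cast h
        rw [lj.val]
        rw [hsplit] at h'
        exact_mod_cast le_of_add_le_add_right h'
    · rw [(lr.pow j).val]
  exact ⟨e, heS, c, hcT, r, lr, hr, hsm⟩

end Pool.Agent.Work.MP_157c12_gt
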