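import Pool.Agent.Work.MP_157c12_gt.Basic

/-!
# Statements of the algebraic part
-/

open MvPolynomial

namespace Pool.Agent.Work.MP_157c12_gt

/-! ### A: transfer, elimination, generic points, isometries -/

/-- `p(Δ) x = 0` is given by polynomials in `x` -/
def SA1 : Prop := ∀ (F : P3) (p : Polynomial ℂ), ∃ Z : Fin 3 → P3,
  ∀ (R : Type) [CommRing R] [Algebra ℂ R] (D1 D2 : Derivation ℂ R R) (x : Fin 3 → R) (di Qi : R),
    (∀ r, D1 (D2 r) = D2 (D1 r)) → aeval x F = 0 → detN D1 D2 x * di = 1 →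
    aeval x (QN F) * Qi = 1 →
    (FT p D1 D2 x di ↔ ∀ a, aeval x (Z a) = 0)

/-- the raised gradient -/
noncomputable def fs (F : P3) : Fin 3 → P3 := ![2 * pderiv 1 F, 2 * pderiv 0 F, pderiv 2 F]

/-- `⟨grad F, grad W⟩` -/
noncomputable def dg (F W : P3) : P3 := ∑ a, pderiv a W * fs F a

/-- Hessian of `W` on the gradient of `F` -/
noncomputable def hes (F W : P3) : P3 := ∑ a, ∑ b, pderiv a (pderiv b W) * fs F a * fs F b

/-- Euclidean Laplace operator in null coordinates -/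
noncomputable def lap0 (W : P3) : P3 := 4 * pderiv 0 (pderiv 1 W) + pderiv 2 (pderiv 2 W)

/-- `|grad F| ^ 4` times the Laplace operator of `F = 0`, on the restriction of `W` -/
noncomputable def LN (F W : P3) : P3 :=
  QN F * (QN F * lap0 W - hes F W) - dg F W * (QN F * lap0 F - hes F F)

/-- `|grad F| ^ 2` times the inner product of the tangential gradients of `W` and `V` -/
noncomputable def GN (F W V : P3) : P3 :=
  QN F * (2 * (pderiv 0 W * pderiv 1 V + pderiv 1 W * pderiv 0 V) + pderiv 2 W * pderiv 2 V)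
    - dg F W * dg F V

/-- the inner product of the gradients -/
noncomputable def gam {R : Type} [CommRing R] [Algebra ℂ R] (D1 D2 : Derivation ℂ R R)
    (x : Fin 3 → R) (di f g : R) : R :=
  di * (nd D2 D2 x * D1 f * D1 g - nd D1 D2 x * (D1 f * D2 g + D2 f * D1 g)
    + nd D1 D1 x * D2 f * D2 g)

/-- the Laplace operator on restrictions of polynomials -/
def SA1a : Prop := ∀ (F W V : P3)
  (R : Type) [CommRing R] [Algebra ℂ R] (D1 D2 : Derivation ℂ R R) (x : Fin 3 → R) (di Qi : R),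
    (∀ r, D1 (D2 r) = D2 (D1 r)) → aeval x F = 0 → detN D1 D2 x * di = 1 →
    aeval x (QN F) * Qi = 1 →
    lapF D1 D2 x di (aeval x W) = Qi ^ 2 * aeval x (LN F W) ∧
    gam D1 D2 x di (aeval x W) (aeval x V) = Qi * aeval x (GN F W V)

/-- elimination of the first variable -/
def SA2 : Prop := ∀ F W : P3, Irreducible F → ¬ F ∣ W →
  ∃ (A B : P3) (r : MvPolynomial (Fin 2) ℂ), r ≠ 0 ∧ A * F + B * W = rename Fin.succ r

/-- points whose last two coordinates are independent are generic -/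
def SA3 : Prop := ∀ (p : Polynomial ℂ) (F : P3), Good p F →
  ∀ (H : Type) [Field H] [Algebra ℂ H] (D1 D2 : Derivation ℂ H H) (x : Fin 3 → H),
    (∀ r, D1 (D2 r) = D2 (D1 r)) → aeval x F = 0 →
    (∀ r : MvPolynomial (Fin 2) ℂ, r ≠ 0 → aeval (fun i => x (Fin.succ i)) r ≠ 0) →
    D1 (x 1) * D2 (x 2) - D1 (x 2) * D2 (x 1) ≠ 0 →
    detN D1 D2 x ≠ 0 ∧ FT p D1 D2 x (detN D1 D2 x)⁻¹

/-- isometries -/
def SA4 : Prop := ∀ (p : Polynomial ℂ) (F : P3) (A : Matrix (Fin 3) (Fin 3) ℂ), Good p F →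
  IsoN A → Good p (rot A F) ∧ (rot A F).totalDegree = F.totalDegree ∧
    top (rot A F) = rot A (top F) ∧ ∀ v, eval v (rot A (top F)) = eval (A.mulVec v) (top F)

/-- frames -/
def SA5 : Prop := (∀ P : Fin 3 → ℂ, bn P P ≠ 0 → ∃ (A : Matrix (Fin 3) (Fin 3) ℂ) (c : ℂ),
    IsoN A ∧ c ≠ 0 ∧ A.mulVec ![0, 0, 1] = c • P) ∧
  ∃ A : Matrix (Fin 3) (Fin 3) ℂ, IsoN A ∧ ∀ v, A.mulVec v = ![v 1, v 0, v 2]

/-! ### B: Hahn series and Newton polygons -/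

/-- Hahn series over `ℂ` with a divisible value group are algebraically closed -/
def SB1 : Prop := ∀ (Γ : Type) [AddCommGroup Γ] [LinearOrder Γ] [IsOrderedAddMonoid Γ]
  [Module ℚ Γ], IsAlgClosed (Hn Γ)

/-- a polynomial with a small value at `z` has a root near `z` -/
def SB2 : Prop := ∀ (H : Type) [Field H] [IsAlgClosed H] (Γ : Type) [AddCommGroup Γ]
  [LinearOrder Γ] [IsOrderedAddMonoid Γ] (v : AddValuation H (WithTop Γ)) (P : Polynomial H)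
  (z : H) (i : ℕ), z ≠ 0 → v (P.coeff i * z ^ i) < v (P.eval z) →
  P ≠ 0 → ∃ r, P.eval r = 0 ∧ v z < v (z - r)

/-- the roots of largest value -/
def SB3 : Prop := ∀ (H : Type) [Field H] [IsAlgClosed H] (Γ : Type) [AddCommGroup Γ]
  [LinearOrder Γ] [IsOrderedAddMonoid Γ] (v : AddValuation H (WithTop Γ)) (P : Polynomial H),
  P.coeff 0 ≠ 0 → 1 ≤ P.natDegree → ∃ r, P.eval r = 0 ∧ r ≠ 0 ∧
    (∀ j, v (P.coeff 0) ≤ v (P.coeff j * r ^ j)) ∧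
    ∃ i, 1 ≤ i ∧ v (P.coeff i * r ^ i) = v (P.coeff 0)

/-- roots between two slopes -/
def SB4 : Prop := ∀ (H : Type) [Field H] [IsAlgClosed H] (Γ : Type) [AddCommGroup Γ]
  [LinearOrder Γ] [IsOrderedAddMonoid Γ] (v : AddValuation H (WithTop Γ)) (P : Polynomial H)
  (m j0 : ℕ) (g1 g0 : Γ), g1 < g0 → P.coeff m ≠ 0 → j0 < m →
  (∀ j, j ≠ m → v (P.coeff m) + ((m • g1 : Γ) : WithTop Γ) <
    v (P.coeff j) + ((j • g1 : Γ) : WithTop Γ) ∨ P.coeff j = 0) →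
  (∀ j, m ≤ j → v (P.coeff j0) + ((j0 • g0 : Γ) : WithTop Γ) <
    v (P.coeff j) + ((j • g0 : Γ) : WithTop Γ) ∨ P.coeff j = 0) →
  ∃ r, P.eval r = 0 ∧ (g1 : WithTop Γ) < v r ∧ v r < (g0 : WithTop Γ)

/-- the substitution of Hahn monomials -/
def SB5 : Prop := ∀ (Γ : Type) [AddCommGroup Γ] [LinearOrder Γ] [IsOrderedAddMonoid Γ]
  (s : Expo Γ) (A : Gq),
  (∀ e, (Th s.io A).coeff (s.io e) = A.coeff e) ∧
  (∀ γ, (∀ e ∈ A.coeff.support, s.io e ≠ γ) → (Th s.io A).coeff γ = 0) ∧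
  (A ≠ 0 → ∃ e ∈ A.coeff.support, Lead (Th s.io A) (s.io e) (A.coeff e) ∧
    ∀ e' ∈ A.coeff.support, s.io e ≤ s.io e')

/-- algebraic independence from leading exponents -/
def SB6 : Prop := ∀ (Γ : Type) [AddCommGroup Γ] [LinearOrder Γ] [IsOrderedAddMonoid Γ]
  (s : Expo Γ) (x1 x2 : Hn Γ) (e1 e2 : ℚ × ℚ) (c1 c2 : ℂ),
  Lead x1 (s.io e1) c1 → Lead x2 (s.io e2) c2 → e1.1 * e2.2 - e1.2 * e2.1 ≠ 0 →
  ∀ r : MvPolynomial (Fin 2) ℂ, r ≠ 0 → aeval ![x1, x2] r ≠ 0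

/-! ### C: decay, growth, neutral -/

/-- axioms for a valuation with two derivations -/
structure VD {H : Type} [Field H] [Algebra ℂ H] {Γ : Type} [AddCommGroup Γ] [LinearOrder Γ]
    [IsOrderedAddMonoid Γ] (v : AddValuation H (WithTop Γ)) (D1 D2 : Derivation ℂ H H) : Prop where
  d1 : ∀ r, v r ≤ v (D1 r)
  d2 : ∀ r, v r ≤ v (D2 r)
  c : ∀ z : ℂ, z ≠ 0 → v (algebraMap ℂ H z) = 0

/-- decay -/
def SC1 : Prop := ∀ (p : Polynomial ℂ), p.coeff 0 ≠ 0 → ∀ (H : Type) [Field H] [Algebra ℂ H]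
  (Γ : Type) [AddCommGroup Γ] [LinearOrder Γ] [IsOrderedAddMonoid Γ]
  (v : AddValuation H (WithTop Γ)) (D1 D2 : Derivation ℂ H H), VD v D1 D2 → ∀ x : Fin 3 → H,
  v (detN D1 D2 x) < v (nd D1 D1 x) → v (detN D1 D2 x) < v (nd D1 D2 x) →
  v (detN D1 D2 x) < v (nd D2 D2 x) → ¬ FT p D1 D2 x (detN D1 D2 x)⁻¹

/-- growth -/
def SC2 : Prop := ∀ (p : Polynomial ℂ), p.coeff 0 ≠ 0 → ∀ (Γ : Type) [AddCommGroup Γ]
  [LinearOrder Γ] [IsOrderedAddMonoid Γ] (f1 f2 : Γ →+ ℂ) (x : Fin 3 → Hn Γ) (a : Fin 3)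
  (g gG gD : Γ) (c cG cD : ℂ), Lead (x a) g c → Lead (nd (hd f2) (hd f2) x) gG cG →
  Lead (detN (hd f1) (hd f2) x) gD cD → gG < gD →
  (gG : WithTop Γ) < vv Γ (nd (hd f1) (hd f1) x) → (gG : WithTop Γ) < vv Γ (nd (hd f1) (hd f2) x) →
  (∀ k : ℕ, f1 g + k * (f1 gG - f1 gD) ≠ 0 ∧
    f1 g + k * (f1 gG - f1 gD) + f1 gG - f1 gD / 2 ≠ 0) →
  ¬ FT p (hd f1) (hd f2) x (detN (hd f1) (hd f2) x)⁻¹

/-- neutral case -/
def SC3 : Prop := ∀ (p : Polynomial ℂ), p.coeff 0 ≠ 0 → ∀ (H : Type) [Field H] [Algebra ℂ H]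
  (Γ : Type) [AddCommGroup Γ] [LinearOrder Γ] [IsOrderedAddMonoid Γ]
  (v : AddValuation H (WithTop Γ)) (D1 D2 : Derivation ℂ H H), VD v D1 D2 → ∀ (x : Fin 3 → H)
  (a : Fin 3), x a ≠ 0 → D1 (x a) = 0 →
  v (detN D1 D2 x) < v (nd D1 D1 x) → v (detN D1 D2 x) < v (nd D1 D2 x) →
  v (detN D1 D2 x) ≤ v (nd D2 D2 x) → ¬ FT p D1 D2 x (detN D1 D2 x)⁻¹

/-- bilinear form on `H ^ 3` -/
noncomputable def bH {H : Type} [Field H] [Algebra ℂ H] (v w : Fin 3 → H) : H :=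
  algebraMap ℂ H (1 / 2) * (v 0 * w 1 + v 1 * w 0) + v 2 * w 2

/-- a null frame moving along a curve -/
structure NF {H : Type} [Field H] [Algebra ℂ H] (D1 D2 : Derivation ℂ H H) (om e mu : Fin 3 → H)
    (a : H) : Prop where
  om1 : ∀ i, D1 (om i) = 0
  e1 : ∀ i, D1 (e i) = 0
  mu1 : ∀ i, D1 (mu i) = 0
  a1 : D1 a = 0
  om2 : ∀ i, D2 (om i) = a * e i
  e2 : ∀ i, D2 (e i) = -2 * a * mu i
  mu2 : ∀ i, D2 (mu i) = 0
  omom : bH om om = 0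
  ome : bH om e = 0
  ommu : bH om mu = algebraMap ℂ H (1 / 2)
  ee : bH e e = 1
  emu : bH e mu = 0
  mumu : bH mu mu = 0

/-- Lemma M, neutral case -/
def SC4 : Prop := ∀ (p : Polynomial ℂ), p.coeff 0 ≠ 0 → ∀ (H : Type) [Field H] [Algebra ℂ H]
  (v : AddValuation H (WithTop ℚ)) (D1 D2 : Derivation ℂ H H), VD v D1 D2 →
  (∀ r, D1 (D2 r) = D2 (D1 r)) →
  (∀ (t : ℚ) (r : H), ((-t : ℚ) : WithTop ℚ) ≤ v r →
    ((-t : ℚ) : WithTop ℚ) < v (D1 r - algebraMap ℂ H (t : ℂ) * r)) →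
  ∀ (om e mu : Fin 3 → H) (a u Yv h : H), NF D1 D2 om e mu a → v a = 0 → D1 u = u → D2 u = 0 →
    v u = ((-1 : ℚ) : WithTop ℚ) → D1 Yv = 0 → 0 ≤ v Yv → 0 ≤ v h →
    ∀ x : Fin 3 → H, (∀ i, x i = u * om i + Yv * e i + h * mu i) →
    v (detN D1 D2 x) = ((-2 : ℚ) : WithTop ℚ) →
    FT p D1 D2 x (detN D1 D2 x)⁻¹ → 0 < v h

/-- Lemma M in the lexicographic field -/
def SC5 : Prop := ∀ (p : Polynomial ℂ), p.coeff 0 ≠ 0 →
  ∀ (om e mu : Fin 3 → Hn LX) (a Yv h : Hn LX), NF exL.d1 exL.d2 om e mu a → a ≠ 0 →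
    exL.d1 Yv = 0 → 0 ≤ v1 h → 
    ∀ x : Fin 3 → Hn LX, (∀ i, x i = mo exL 1 0 1 * om i + Yv * e i + h * mu i) →
    FT p exL.d1 exL.d2 x (detN exL.d1 exL.d2 x)⁻¹ → 0 < v1 h

/-! ### D: the frames -/

/-- `(κ + f, η, y)` -/
noncomputable def ptX {Γ : Type} [AddCommGroup Γ] [LinearOrder Γ] [IsOrderedAddMonoid Γ]
    (s : Expo Γ) (κ : ℂ) (f : Hn Γ) : Fin 3 → Hn Γ :=
  ![mo s 0 0 κ + f, mo s 1 0 1, mo s 0 1 1]

/-- the adapted frame: `(κ + ψ - η ψ' ^ 2 / 4 + g, η, Y - η ψ' / 2)`, `ψ = c Y ^ (-β)` -/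
noncomputable def ptA {Γ : Type} [AddCommGroup Γ] [LinearOrder Γ] [IsOrderedAddMonoid Γ]
    (s : Expo Γ) (κ c : ℂ) (β : ℚ) (g : Hn Γ) : Fin 3 → Hn Γ :=
  ![mo s 0 0 κ + mo s 0 (-β) c - mo s 1 (-2 * β - 2) (β ^ 2 * c ^ 2 / 4) + g, mo s 1 0 1,
    mo s 0 1 1 + mo s 1 (-β - 1) (β * c / 2)]

/-- the conic frame: `(q / u - u θ ^ 2, u, u θ)` -/
noncomputable def ptC {Γ : Type} [AddCommGroup Γ] [LinearOrder Γ] [IsOrderedAddMonoid Γ]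
    (s : Expo Γ) (q : Hn Γ) : Fin 3 → Hn Γ :=
  ![mo s (-1) 0 1 * q - mo s 1 2 1, mo s 1 0 1, mo s 1 1 1]

/-- `p(Δ) x = 0` -/
def FTs {Γ : Type} [AddCommGroup Γ] [LinearOrder Γ] [IsOrderedAddMonoid Γ] (p : Polynomial ℂ)
    (s : Expo Γ) (x : Fin 3 → Hn Γ) : Prop :=
  FT p s.d1 s.d2 x (detN s.d1 s.d2 x)⁻¹

/-- decay in the frame `(κ + f, η, y)` -/
def SD1 : Prop := ∀ (p : Polynomial ℂ), p.coeff 0 ≠ 0 → ∀ (Γ : Type) [AddCommGroup Γ]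
  [LinearOrder Γ] [IsOrderedAddMonoid Γ] (s : Expo Γ) (κ : ℂ) (f : Hn Γ) (γ : Γ) (c : ℂ),
  Lead f γ c → s.f1 γ ≠ 0 → s.io (0, 2) < γ + s.io (1, 0) → γ + s.io (1, 0) < 0 →
  ¬ FTs p s (ptX s κ f)

/-- the frame `(κ + f, η, y)` in the lexicographic field -/
def SD2 : Prop := ∀ (p : Polynomial ℂ), p.coeff 0 ≠ 0 → ∀ (κ : ℂ) (f : Hn LX) (γ : LX) (c : ℂ),
  Lead f γ c → il (0, 2) < γ + il (1, 0) → ¬ FTs p exL (ptX exL κ f)

/-- decay in the adapted frame -/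
def SD3 : Prop := ∀ (p : Polynomial ℂ), p.coeff 0 ≠ 0 → ∀ (a : ℝ) (ha : Irrational a) (κ c0 : ℂ)
  (β : ℚ) (g : Hn RA) (γ : RA) (c : ℂ), c0 ≠ 0 → β ≠ 0 → -1 < β → Lead g γ c →
  (exA ha).f1 γ ≠ 0 → rA β < γ → γ < rA a → ¬ FTs p (exA ha) (ptA (exA ha) κ c0 β g)

/-- the adapted frame in the lexicographic field -/
def SD4 : Prop := ∀ (p : Polynomial ℂ), p.coeff 0 ≠ 0 → ∀ (κ c0 : ℂ) (β : ℚ) (g : Hn LX),
  c0 ≠ 0 → β ≠ 0 → -1 < β → ((il (0, -β) : LX) : WithTop LX) < vv LX g →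
  ¬ FTs p exL (ptA exL κ c0 β g)

/-- the conic frame -/
def SD5 : Prop := ∀ (p : Polynomial ℂ), p.coeff 0 ≠ 0 → ∀ (q : Hn LX) (t : ℚ), -2 < t → t < 0 →
  v1 q = (t : WithTop ℚ) → ¬ FTs p exL (ptC exL q)

/-! ### E: root weights -/

/-- `c η^i y^j` in `Gq` -/
noncomputable def gm (i j : ℚ) (c : ℂ) : Gq := AddMonoidAlgebra.single (i, j) c

/-- image of a polynomial over `Gq` -/
noncomputable def PT {Γ : Type} [AddCommGroup Γ] [LinearOrder Γ] [IsOrderedAddMonoid Γ]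
    (ι : ℚ × ℚ →+ Γ) (P : Polynomial Gq) : Polynomial (Hn Γ) := P.map (Th ι).toRingHom

def SE1 : Prop := ∀ P : Polynomial Gq, Continuous (sm P)

/-- for an irrational slope there is a root of smallest weight; exponents and leading coefficients
come from finite sets -/
def SE2 : Prop := ∀ P : Polynomial Gq, P.coeff 0 ≠ 0 → 1 ≤ P.natDegree →
  ∃ (S : Finset (ℚ × ℚ)) (T : Finset ℂ), ∀ a : ℝ, Irrational a → ∃ e ∈ S, ∃ c ∈ T, ∃ f : Hn RA,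
    Lead f (ia a e) c ∧ (PT (ia a) P).eval f = 0 ∧ (e.1 : ℝ) * a + e.2 = sm P a

/-- all roots have at least the smallest weight -/
def SE3 : Prop := ∀ P : Polynomial Gq, P.coeff 0 ≠ 0 → ∀ (a : ℝ), Irrational a → ∀ f : Hn RA,
  (PT (ia a) P).eval f = 0 → vv RA f ≤ ((rA (-sm P a) : RA) : WithTop RA)

/-- the lexicographic root -/
def SE4 : Prop := ∀ P : Polynomial Gq, P.coeff 0 ≠ 0 → 1 ≤ P.natDegree →
  ∀ (a0 : ℝ) (l1 l2 : ℚ), (∀ a ≥ a0, sm P a < l1 * a + l2) →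
  ∃ f : Hn LX, (PT il P).eval f = 0 ∧ ((il (l1, l2) : LX) : WithTop LX) < vv LX f

/-- real analysis -/
def SE5 : Prop := ∀ (s : ℝ → ℝ) (lo hi : ℝ) (S : Set ℝ), Continuous s → lo < hi → S.Finite →
  (∀ a, lo < a → a < hi → Irrational a → s a ∈ S) →
  ∃ v ∈ S, ∀ a, lo ≤ a → a ≤ hi → s a = v

/-- evaluation at a root gives a point of the surface -/
def SE6 : Prop := ∀ (Γ : Type) [AddCommGroup Γ] [LinearOrder Γ] [IsOrderedAddMonoid Γ]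
  (ι : ℚ × ℚ →+ Γ) (S : Fin 3 → Polynomial Gq) (F : P3) (f : Hn Γ),
  (PT ι (aeval S F)).eval f = aeval (fun i => (PT ι (S i)).eval f) F

/-! ### F: the path -/

/-- `F(κ + X, η, y)` -/
noncomputable def xiP (κ : ℂ) (F : P3) : Polynomial Gq :=
  aeval ![Polynomial.X + Polynomial.C (gm 0 0 κ), Polynomial.C (gm 1 0 1),
    Polynomial.C (gm 0 1 1)] F

/-- `F(κ + ψ - η ψ' ^ 2 / 4 + X, η, Y - η ψ' / 2)` -/
noncomputable def adP (κ c : ℂ) (β : ℚ) (F : P3) : Polynomial Gq :=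
  aeval ![Polynomial.X + Polynomial.C (gm 0 0 κ + gm 0 (-β) c -
      gm 1 (-2 * β - 2) (β ^ 2 * c ^ 2 / 4)), Polynomial.C (gm 1 0 1),
    Polynomial.C (gm 0 1 1 + gm 1 (-β - 1) (β * c / 2))] F

/-- `F(X / u - u θ ^ 2, u, u θ)` -/
noncomputable def coP (F : P3) : Polynomial Gq :=
  aeval ![Polynomial.C (gm (-1) 0 1) * Polynomial.X - Polynomial.C (gm 1 2 1),
    Polynomial.C (gm 1 0 1), Polynomial.C (gm 1 1 1)] F

/-- good polynomials do not vanish on `ξ = κ` and on adapted developables; they involve `ξ` -/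
def SF0 : Prop := ∀ (p : Polynomial ℂ) (F : P3), Good p F →
  (∀ κ, (xiP κ F).coeff 0 ≠ 0) ∧
  (∀ κ c β, c ≠ 0 → β ≠ 0 → -1 < β → (adP κ c β F).coeff 0 ≠ 0) ∧
  (1 ≤ F.degreeOf 0 → (∀ κ, 1 ≤ (xiP κ F).natDegree) ∧
    (∀ κ c β, c ≠ 0 → β ≠ 0 → -1 < β → 1 ≤ (adP κ c β F).natDegree) ∧
    1 ≤ (coP F).natDegree)

/-- the points of the frames are generic -/
def SFg : Prop := ∀ (p : Polynomial ℂ) (F : P3), Good p F → ∀ (Γ : Type) [AddCommGroup Γ]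
  [LinearOrder Γ] [IsOrderedAddMonoid Γ] (s : Expo Γ),
  (∀ κ f, (PT s.io (xiP κ F)).eval f = 0 → FTs p s (ptX s κ f)) ∧
  (∀ κ c β g, c ≠ 0 → β ≠ 0 → -1 < β → (PT s.io (adP κ c β F)).eval g = 0 →
    FTs p s (ptA s κ c β g)) ∧
  (∀ q, (PT s.io (coP F)).eval q = 0 → FTs p s (ptC s q))

/-- from a pure root to the adapted frame -/
def SF1a : Prop := ∀ (F : P3) (κ c : ℂ) (β : ℚ) (a : ℝ) (f : Hn RA), Irrational a → c ≠ 0 →
  β ≠ 0 → -1 < β → a < 2 + β → (xiP κ F).coeff 0 ≠ 0 → (adP κ c β F).coeff 0 ≠ 0 →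
  1 ≤ (adP κ c β F).natDegree → Lead f (ia a (0, -β)) c → (PT (ia a) (xiP κ F)).eval f = 0 →
  sm (xiP κ F) a = -β → sm (adP κ c β F) a < -β

/-- the adapted path -/
def SF1b : Prop := ∀ (p : Polynomial ℂ) (F : P3), Good p F → 1 ≤ F.degreeOf 0 →
  ∀ (κ c : ℂ) (β : ℚ) (a : ℝ), c ≠ 0 → β ≠ 0 → -1 < β → β < a → ¬ sm (adP κ c β F) a < -β

/-- Lemma B -/
def SF1 : Prop := ∀ (p : Polynomial ℂ) (F : P3), Good p F → 1 ≤ F.degreeOf 0 →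
  ∀ (κ : ℂ) (a1 ε : ℝ), 1 < a1 → a1 ≠ 2 → 0 < ε →
  ¬ ∀ a, a1 - ε ≤ a → a ≤ a1 → sm (xiP κ F) a = 2 - a1

/-- the path -/
def SF2 : Prop := ∀ (p : Polynomial ℂ) (F : P3), Good p F → 1 ≤ F.degreeOf 0 →
  ∀ (κ : ℂ) (a0 : ℝ), 1 ≤ a0 → ¬ sm (xiP κ F) a0 + a0 < 2

/-- step III -/
def SF3 : Prop := ∀ (p : Polynomial ℂ) (F : P3), Good p F → ¬ X 0 ∣ top F

/-! ### G, H: step II, the conic case and the main theorem -/

/-- step II -/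
def SG : Prop := ∀ (p : Polynomial ℂ) (F : P3), Good p F → ∀ P : Fin 3 → ℂ, eval P (top F) = 0 →
  bn P P ≠ 0 → ∃ A, IsoN A ∧ X 0 ∣ top (rot A F)

def SH1 : Prop := ∀ F : P3, 0 < F.totalDegree →
  (∀ P : Fin 3 → ℂ, eval P (top F) = 0 → bn P P = 0) →
  ∃ (c : ℂ) (m : ℕ), c ≠ 0 ∧ 1 ≤ m ∧ top F = C c * quad ^ m

def SH2 : Prop := ∀ (p : Polynomial ℂ) (F : P3), Good p F → ∀ (c : ℂ) (m : ℕ), c ≠ 0 → 1 ≤ m →
  top F = C c * quad ^ m → ∀ j, ∀ e ∈ ((coP F).coeff j).coeff.support, e.1 ≤ 0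

def SH3 : Prop := ∀ F : P3, Irreducible F →
  (∀ j, ∀ e ∈ ((coP F).coeff j).coeff.support, e.1 ≤ 0) →
  ∃ c κ : ℂ, c ≠ 0 ∧ F = C c * (quad - C κ)

/-- the algebraic main theorem -/
def SAlg : Prop := ∀ (p : Polynomial ℂ) (F : P3), Good p F →
  ∃ c κ : ℂ, c ≠ 0 ∧ F = C c * (quad - C κ)

end Pool.Agent.Work.MP_157c12_gt
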